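import Mathlib
import Pool.Agent.H177R2.SD.Brun

set_option autoImplicit false

/-!
# Brun's pure sieve for `r` linear forms, uniformly in `r` (helper306)
-/

namespace Pool.Agent.helper306_moser

open Finset

/-- counting one residue class in an interval -/
theorem count_class {d : ℕ} (hd : 0 < d) (v₀ V : ℕ) :
    |((#{v ∈ range V | v ≡ v₀ [MOD d]} : ℕ) : ℝ) - V / d| ≤ 1 := by
  rw [← Nat.count_eq_card_filter_range, Nat.count_modEq_card V hd v₀]
  have hdR : (0 : ℝ) < d := by exact_mod_cast hd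
  have hq : (V : ℝ) / d = (V / d : ℕ) + ((V % d : ℕ) : ℝ) / d := by
    have : (V : ℝ) = d * (V / d : ℕ) + (V % d : ℕ) := by exact_mod_cast (Nat.div_add_mod V d).symm
    field_simp
    linarith
  have hr0 : (0 : ℝ) ≤ ((V % d : ℕ) : ℝ) / d := by positivity
  have hr1 : ((V % d : ℕ) : ℝ) / d ≤ 1 := by
    rw [div_le_one hdR]
    exact_mod_cast (Nat.mod_lt V hd).le
  rw [hq]
  push_cast
  split_ifs <;> rw [abs_le] <;> constructor <;> norm_num <;> linarith

/-- a linear form has a root modulo a prime not dividing the leading coefficient -/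
theorem exists_root {p A B : ℕ} (hp : p.Prime) (hA : ¬ p ∣ A) : ∃ v₀ : ℕ, ∀ v : ℕ,
    p ∣ A * v + B ↔ v ≡ v₀ [MOD p] := by
  have : Fact p.Prime := ⟨hp⟩
  have hc : Nat.Coprime p A := (Nat.Prime.coprime_iff_not_dvd hp).2 hA
  obtain ⟨v₀, hv₀⟩ : ∃ v₀ : ℕ, p ∣ A * v₀ + B := by
    have hA0 : (A : ZMod p) ≠ 0 := by
      rw [Ne, ZMod.natCast_eq_zero_iff]
      exact hA
    refine ⟨(-(B : ZMod p) * (A : ZMod p)⁻¹).val, ?_⟩
    rw [← ZMod.natCast_eq_zero_iff]
    push_cast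
    rw [ZMod.natCast_val, ZMod.cast_id', id]
    field_simp
    ring
  refine ⟨v₀, fun v => ⟨fun h => ?_, fun h => ?_⟩⟩
  · have h1 : A * v + B ≡ A * v₀ + B [MOD p] :=
      ((Nat.modEq_zero_iff_dvd).2 h).trans ((Nat.modEq_zero_iff_dvd).2 hv₀).symm
    have h2 : A * v ≡ A * v₀ [MOD p] := Nat.ModEq.add_right_cancel' B h1
    exact Nat.ModEq.cancel_left_of_coprime hc h2
  · have h1 : A * v + B ≡ A * v₀ + B [MOD p] := (h.mul_left A).add_right B
    exact (Nat.modEq_zero_iff_dvd).1 (h1.trans ((Nat.modEq_zero_iff_dvd).2 hv₀))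

/-- simultaneous congruences modulo the primes of a set -/
theorem modEq_prod {S : Finset ℕ} (hS : ∀ p ∈ S, p.Prime) (v v₀ : ℕ) :
    (∀ p ∈ S, v ≡ v₀ [MOD p]) ↔ v ≡ v₀ [MOD ∏ p ∈ S, p] := by
  constructor
  · intro h
    rw [Nat.modEq_iff_dvd]
    push_cast
    refine Finset.prod_dvd_of_coprime ?_ ?_
    · intro p hp q hq hpq
      have h1 : Nat.Coprime p q :=
        (Nat.coprime_primes (hS p hp) (hS q hq)).2 hpq
      exact Nat.isCoprime_iff_coprime.2 h1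
    · intro p hp
      exact (Nat.modEq_iff_dvd).1 (h p hp)
  · intro h p hp
    exact h.of_dvd (Finset.dvd_prod_of_mem _ hp)

theorem count_forms {S : Finset ℕ} (hS : ∀ p ∈ S, p.Prime) (A B : ℕ → ℕ)
    (hA : ∀ p ∈ S, ¬ p ∣ A p) (V : ℕ) :
    |((#{v ∈ range V | ∀ p ∈ S, p ∣ A p * v + B p} : ℕ) : ℝ) - V / ∏ p ∈ S, (p : ℝ)| ≤ 1 := by
  classical
  have h1 : ∀ p : ℕ, ∃ v₀ : ℕ, p ∈ S → ∀ v : ℕ, p ∣ A p * v + B p ↔ v ≡ v₀ [MOD p] := by
    intro p
    by_cases hp : p ∈ S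
    · obtain ⟨v₀, h⟩ := exists_root (B := B p) (hS p hp) (hA p hp)
      exact ⟨v₀, fun _ => h⟩
    · exact ⟨0, fun h => absurd h hp⟩
  choose ρ hρ using h1
  have hne : ∀ p ∈ S, p ≠ 0 := fun p hp => (hS p hp).pos.ne'
  have hpw : Set.Pairwise (S : Set ℕ) (Function.onFun Nat.Coprime (fun p : ℕ => p)) := by
    intro p hp q hq hpq
    exact (Nat.coprime_primes (hS p hp) (hS q hq)).2 hpq
  obtain ⟨v₀, hv₀⟩ := Nat.chineseRemainderOfFinset ρ (fun p => p) S hne hpw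
  have h2 : ({v ∈ range V | ∀ p ∈ S, p ∣ A p * v + B p} : Finset ℕ)
      = {v ∈ range V | v ≡ v₀ [MOD ∏ p ∈ S, p]} := by
    apply filter_congr
    intro v _
    rw [← modEq_prod hS]
    constructor
    · intro h p hp
      exact ((hρ p hp v).1 (h p hp)).trans (hv₀ p hp).symm
    · intro h p hp
      exact (hρ p hp v).2 ((h p hp).trans (hv₀ p hp))
  rw [h2]
  have h3 := count_class (d := ∏ p ∈ S, p) (prod_pos fun p hp => (hS p hp).pos) v₀ V
  push_cast at h3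
  exact h3

/-- the number of `v < V` which are roots of one of the forms modulo every prime of `S` -/
theorem count_roots {ι : Type*} [DecidableEq ι] (Θ : Finset ι) (A B : ι → ℕ) {S : Finset ℕ}
    (hS : ∀ p ∈ S, p.Prime) (hA : ∀ p ∈ S, ∀ s ∈ Θ, ¬ p ∣ A s)
    (hd : ∀ p ∈ S, ∀ s ∈ Θ, ∀ s' ∈ Θ, s ≠ s' → ∀ v, ¬ (p ∣ A s * v + B s ∧ p ∣ A s' * v + B s'))
    (V : ℕ) :
    |∑ v ∈ range V, ∏ p ∈ S, (if ∃ s ∈ Θ, p ∣ A s * v + B s then (1 : ℝ) else 0) -
      V * ∏ p ∈ S, ((#Θ : ℝ) / p)| ≤ (#Θ : ℝ) ^ #S := by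
  classical
  have h1 : ∀ v ∈ range V, ∏ p ∈ S, (if ∃ s ∈ Θ, p ∣ A s * v + B s then (1 : ℝ) else 0) =
      ∑ f ∈ S.pi (fun _ => Θ),
        (if ∀ p ∈ S.attach, p.1 ∣ A (f p.1 p.2) * v + B (f p.1 p.2) then (1 : ℝ) else 0) := by
    intro v _
    have h2 : ∀ p ∈ S, (if ∃ s ∈ Θ, p ∣ A s * v + B s then (1 : ℝ) else 0) =
        ∑ s ∈ Θ, (if p ∣ A s * v + B s then (1 : ℝ) else 0) := by
      intro p hp
      split_ifs with h
      · obtain ⟨s, hs, hps⟩ := h
        rw [sum_eq_single s]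
        · rw [if_pos hps]
        · intro s' hs' hne
          rw [if_neg]
          intro h'
          exact hd p hp s' hs' s hs hne v ⟨h', hps⟩
        · intro h'; exact absurd hs h'
      · symm
        apply sum_eq_zero
        intro s hs
        rw [if_neg]
        intro h'
        exact h ⟨s, hs, h'⟩
    rw [prod_congr rfl h2, prod_sum]
    apply sum_congr rfl
    intro f _
    rw [prod_boole]
    congr 1
  rw [sum_congr rfl h1, sum_comm]
  have h3 : (V : ℝ) * ∏ p ∈ S, ((#Θ : ℝ) / p) =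
      ∑ f ∈ S.pi (fun _ => Θ), (V : ℝ) / ∏ p ∈ S, (p : ℝ) := by
    rw [sum_const, card_pi, prod_const, prod_div_distrib, prod_const, nsmul_eq_mul]
    push_cast
    ring
  rw [h3, ← sum_sub_distrib]
  refine (abs_sum_le_sum_abs _ _).trans ?_
  have h4 : ∀ f ∈ S.pi (fun _ => Θ),
      |∑ v ∈ range V, (if ∀ p ∈ S.attach, p.1 ∣ A (f p.1 p.2) * v + B (f p.1 p.2)
        then (1 : ℝ) else 0) - (V : ℝ) / ∏ p ∈ S, (p : ℝ)| ≤ 1 := by
    intro f hf
    rw [mem_pi] at hf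
    rw [sum_boole]
    have h5 := count_forms hS (fun p => if hp : p ∈ S then A (f p hp) else 1)
      (fun p => if hp : p ∈ S then B (f p hp) else 1) (by
        intro p hp
        simp only [dif_pos hp]
        exact hA p hp _ (hf p hp)) V
    have h6 : ({v ∈ range V | ∀ p ∈ S.attach, p.1 ∣ A (f p.1 p.2) * v + B (f p.1 p.2)} : Finset ℕ) =
        {v ∈ range V | ∀ p ∈ S, p ∣ (if hp : p ∈ S then A (f p hp) else 1) * v +
          (if hp : p ∈ S then B (f p hp) else 1)} := by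
      apply filter_congr
      intro v _
      constructor
      · intro h p hp
        simp only [dif_pos hp]
        exact h ⟨p, hp⟩ (mem_attach _ _)
      · rintro h ⟨p, hp⟩ _
        have := h p hp
        simp only [dif_pos hp] at this
        exact this
    rw [h6]
    exact h5
  refine (sum_le_sum h4).trans ?_
  rw [sum_const, card_pi, prod_const]
  simp

/-- Brun's pure sieve for the forms `A s * v + B s`, `s ∈ Θ` -/
theorem brun_forms {ι : Type*} [DecidableEq ι] (Θ : Finset ι) (A B : ι → ℕ) (P : Finset ℕ)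
    (hP : ∀ p ∈ P, p.Prime) (hA : ∀ p ∈ P, ∀ s ∈ Θ, ¬ p ∣ A s)
    (hd : ∀ p ∈ P, ∀ s ∈ Θ, ∀ s' ∈ Θ, s ≠ s' → ∀ v, ¬ (p ∣ A s * v + B s ∧ p ∣ A s' * v + B s'))
    (hΘ : Θ.Nonempty) (hΘP : ∀ p ∈ P, #Θ ≤ p) (V m : ℕ) :
    ((#{v ∈ range V | ∀ s ∈ Θ, ∀ p ∈ P, ¬ p ∣ A s * v + B s} : ℕ) : ℝ) ≤
      V * (∏ p ∈ P, (1 - (#Θ : ℝ) / p) +
        (∑ p ∈ P, (#Θ : ℝ) / p) ^ (2 * m + 1) / (2 * m + 1).factorial) +
        ((#P : ℝ) + 1) ^ (2 * m) * (#Θ : ℝ) ^ (2 * m) := by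
  classical
  have hr1 : (1 : ℝ) ≤ #Θ := by exact_mod_cast hΘ.card_pos
  have h := Pool.Agent.H177R2.SD.brun (range V) P
    (fun p v => if ∃ s ∈ Θ, p ∣ A s * v + B s then (1 : ℝ) else 0) (fun p => (#Θ : ℝ) / p)
    (by
      intro p _ v _
      split_ifs <;> norm_num)
    (by
      intro p hp
      have hp0 : (0 : ℝ) < p := by exact_mod_cast (hP p hp).pos
      refine ⟨by positivity, ?_⟩
      rw [div_le_one hp0]
      exact_mod_cast hΘP p hp)
    m V ((#Θ : ℝ) ^ (2 * m)) (Nat.cast_nonneg _) (by positivity)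
    (by
      intro S hSP hSm
      refine (count_roots Θ A B (fun p hp => hP p (hSP hp)) (fun p hp => hA p (hSP hp))
        (fun p hp => hd p (hSP hp)) V).trans ?_
      exact pow_le_pow_right₀ hr1 hSm)
  refine le_trans (le_of_eq ?_) h
  rw [← sum_boole]
  apply sum_congr rfl
  intro v _
  have h2 : ∀ p ∈ P, (1 - (if ∃ s ∈ Θ, p ∣ A s * v + B s then (1 : ℝ) else 0)) =
      if ∀ s ∈ Θ, ¬ p ∣ A s * v + B s then (1 : ℝ) else 0 := by
    intro p _
    by_cases h : ∃ s ∈ Θ, p ∣ A s * v + B s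
    · rw [if_pos h, if_neg]
      · norm_num
      · push Not; exact h
    · rw [if_neg h, if_pos]
      · norm_num
      · push Not at h; exact h
  rw [prod_congr rfl h2, prod_boole]
  congr 1
  apply propext
  constructor
  · intro h p hp s hs
    exact h s hs p hp
  · intro h s hs p hp
    exact h p hp s hs

end Pool.Agent.helper306_moser
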