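import Mathlib
import Pool.Agent.helper306_moser.SieveForms
import Pool.Agent.Erdos456.Mertens

set_option autoImplicit false

/-!
# Brun's pure sieve for `r` linear forms, uniformly in `r` up to a power of the logarithm (helper306)
-/

namespace Pool.Agent.helper306_moser

open Finset

/-- binary length -/
def Lam (N : ℕ) : ℕ := Nat.log 2 N + 1

lemma lt_two_pow_Lam (N : ℕ) : N < 2 ^ Lam N := Nat.lt_pow_succ_log_self (by norm_num) N

lemma Lam_pos (N : ℕ) : 1 ≤ Lam N := by unfold Lam; omega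

lemma log_le_Lam {N : ℕ} (hN : 1 ≤ N) : Real.log N ≤ Lam N * Real.log 2 := by
  have h1 : (N : ℝ) ≤ 2 ^ Lam N := by exact_mod_cast (lt_two_pow_Lam N).le
  have h2 : (0 : ℝ) < N := by exact_mod_cast hN
  calc Real.log N ≤ Real.log (2 ^ Lam N) := Real.log_le_log h2 h1
    _ = _ := Real.log_pow _ _

/-- the sieving primes -/
def SP (y z : ℕ) : Finset ℕ := (Ioc y z).filter Nat.Prime

lemma sum_SP {y z : ℕ} (h : y ≤ z) :
    ∑ p ∈ SP y z, (1 : ℝ) / p = ∑ p ∈ (Icc 1 z).filter Nat.Prime, (1 : ℝ) / p -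
      ∑ p ∈ (Icc 1 y).filter Nat.Prime, (1 : ℝ) / p := by
  rw [eq_sub_iff_add_eq]
  unfold SP
  rw [← sum_union]
  · apply sum_congr _ (fun _ _ => rfl)
    ext p
    simp only [mem_union, mem_filter, mem_Ioc, mem_Icc]
    constructor
    · rintro (⟨⟨h1, h2⟩, h3⟩ | ⟨⟨h1, h2⟩, h3⟩)
      · exact ⟨⟨by omega, h2⟩, h3⟩
      · exact ⟨⟨h1, by omega⟩, h3⟩
    · rintro ⟨⟨h1, h2⟩, h3⟩
      rcases le_or_gt p y with h4 | h4
      · exact Or.inr ⟨⟨h1, h4⟩, h3⟩
      · exact Or.inl ⟨⟨h4, h2⟩, h3⟩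
  · rw [disjoint_left]
    intro p hp hp'
    simp only [mem_filter, mem_Ioc, mem_Icc] at hp hp'
    omega

/-- Mertens for the sieving primes -/
theorem mertens_SP : ∃ C : ℝ, 0 ≤ C ∧ ∀ y z : ℕ, 3 ≤ y → y ≤ z →
    |∑ p ∈ SP y z, (1 : ℝ) / p - (Real.log (Real.log z) - Real.log (Real.log y))| ≤ C := by
  obtain ⟨C, hC⟩ := Pool.Agent.Erdos456.Mert.mertens_inv
  have hC0 : 0 ≤ C := (abs_nonneg _).trans (hC 3 le_rfl)
  refine ⟨2 * C, by linarith, fun y z hy hyz => ?_⟩
  rw [sum_SP hyz]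
  have h1 := abs_le.1 (hC y hy)
  have h2 := abs_le.1 (hC z (hy.trans hyz))
  rw [abs_le]
  constructor <;> linarith [h1.1, h1.2, h2.1, h2.2]

/-- the tail of the exponential series -/
lemma tail_bound {σ τ : ℝ} (hσ : 0 ≤ σ) (hτ : 0 < τ) (n : ℕ) :
    σ ^ n / n.factorial ≤ (σ / τ) ^ n * Real.exp τ := by
  have h1 := Real.pow_div_factorial_le_exp τ hτ.le n
  have h2 : σ ^ n / n.factorial = (σ / τ) ^ n * (τ ^ n / n.factorial) := by
    rw [div_pow]
    field_simp
  rw [h2]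
  exact mul_le_mul_of_nonneg_left h1 (by positivity)

/-- the sieve bound for `r` forms, `r` up to a power of `N = log X` -/
theorem sieve_bound : ∃ C : ℝ, 1 ≤ C ∧ ∃ N₀ : ℕ, ∀ N : ℕ, N₀ ≤ N →
    ∀ {ι : Type} [DecidableEq ι] (Θ : Finset ι) (A B : ι → ℕ) (V : ℕ), Θ.Nonempty →
    128 * #Θ * Lam N ^ 2 ≤ N → 2 ^ N ≤ V ^ 4 →
    (∀ p : ℕ, p.Prime → N ^ 3 < p → ∀ s ∈ Θ, ¬ p ∣ A s) →
    (∀ p : ℕ, p.Prime → N ^ 3 < p → ∀ s ∈ Θ, ∀ s' ∈ Θ, s ≠ s' →
      ∀ v, ¬ (p ∣ A s * v + B s ∧ p ∣ A s' * v + B s')) →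
    ((#{v ∈ range V | ∀ s ∈ Θ, (A s * v + B s).Prime ∧ 2 ^ (N / 2) ≤ A s * v + B s} : ℕ) : ℝ) ≤
      V * (C * (#Θ * (Lam N : ℝ) ^ 2) / N) ^ #Θ := by
  obtain ⟨CM, hCM0, hCM⟩ := mertens_SP
  -- N₀ such that `3 log N ≥ exp CM` and `N ^ 3 ≤ 2 ^ (N / 128 ...)`
  obtain ⟨N₁, hN₁⟩ : ∃ N₁ : ℕ, ∀ N : ℕ, N₁ ≤ N → Real.exp CM ≤ 3 * Real.log N := by
    have h1 : Filter.Tendsto (fun N : ℕ => 3 * Real.log (N : ℝ)) Filter.atTop Filter.atTop :=
      Filter.Tendsto.const_mul_atTop (by norm_num)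
        (Real.tendsto_log_atTop.comp tendsto_natCast_atTop_atTop)
    exact Filter.eventually_atTop.1 (h1.eventually_ge_atTop _)
  refine ⟨3 * (384 * Real.exp CM), ?_, max N₁ 3, ?_⟩
  · have := Real.one_le_exp hCM0
    linarith
  intro N hN ι _ Θ A B V hΘ hr hV hA hd
  have hN1 : N₁ ≤ N := (le_max_left _ _).trans hN
  have hN3 : 3 ≤ N := (le_max_right _ _).trans hN
  have hNr : (0 : ℝ) < N := by exact_mod_cast (by omega : 0 < N)
  set r := #Θ with hrd
  have hr1 : 1 ≤ r := hΘ.card_pos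
  set L := Lam N with hL
  have hL1 : 1 ≤ L := Lam_pos N
  have hNL : N < 2 ^ L := lt_two_pow_Lam N
  set z0 := N / (64 * r * L) with hz0
  have hrL : 1 ≤ r * L := Nat.mul_pos hr1 hL1
  have hrLN : 128 * (r * L) ≤ N := by
    calc 128 * (r * L) ≤ 128 * (r * L) * L := Nat.le_mul_of_pos_right _ hL1
      _ = 128 * r * L ^ 2 := by ring
      _ ≤ N := hr
  have hz0up : 64 * r * L * z0 ≤ N := by rw [hz0]; exact Nat.mul_div_le N _
  have hz0lo : N < 64 * r * L * (z0 + 1) := by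
    rw [hz0]; exact Nat.lt_mul_div_succ N (by positivity)
  have hz01 : 1 ≤ z0 := by
    rw [hz0, Nat.one_le_div_iff (by positivity)]
    calc 64 * r * L = 64 * (r * L) := by ring
      _ ≤ N := by omega
  have hz0r : (N : ℝ) / (128 * (r * L)) ≤ z0 := by
    rw [div_le_iff₀ (by positivity)]
    have h1 : (N : ℝ) < 64 * r * L * (z0 + 1) := by exact_mod_cast hz0lo
    have h2 : (64 * r * L * (z0 + 1) : ℝ) ≤ z0 * (128 * (r * L)) := by
      have : (1 : ℝ) ≤ z0 := by exact_mod_cast hz01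
      have h3 : (0 : ℝ) ≤ r * L := by positivity
      nlinarith
    linarith
  have hz0N : z0 < N / 2 := by
    have h1 : 64 * z0 ≤ 64 * r * L * z0 := by
      calc 64 * z0 = 64 * 1 * z0 := by ring
        _ ≤ 64 * (r * L) * z0 := by gcongr
        _ = _ := by ring
    have h2 : 64 * z0 ≤ N := h1.trans hz0up
    omega
  -- the primes
  rcases lt_or_ge (2 ^ z0) (N ^ 3) with hcase | hcase
  · -- trivial bound: then the right hand side is at least `V`
    have h1 : (z0 : ℝ) * Real.log 2 ≤ 3 * Real.log N := by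
      have h2 : ((2 : ℝ) ^ z0) ≤ (N : ℝ) ^ 3 := by exact_mod_cast hcase.le
      have h3 := Real.log_le_log (by positivity) h2
      rw [Real.log_pow, Real.log_pow] at h3
      push_cast at h3
      exact h3
    have h2 : (z0 : ℝ) ≤ 3 * L := by
      have h3 := log_le_Lam (N := N) (by omega)
      have h4 : (0 : ℝ) < Real.log 2 := Real.log_pos (by norm_num)
      have h5 : (z0 : ℝ) * Real.log 2 ≤ 3 * L * Real.log 2 := by
        rw [← hL] at h3
        linarith
      exact le_of_mul_le_mul_right h5 h4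
    have h3 : (1 : ℝ) ≤ 3 * (384 * Real.exp CM) * (r * (L : ℝ) ^ 2) / N := by
      rw [le_div_iff₀ hNr, one_mul]
      have h4 : (N : ℝ) ≤ 3 * L * (128 * (r * L)) := by
        have := hz0r.trans h2
        rwa [div_le_iff₀ (by positivity)] at this
      have h5 := Real.one_le_exp hCM0
      have h6 : (0 : ℝ) ≤ r * (L : ℝ) ^ 2 := by positivity
      nlinarith
    have h4 : ((#{v ∈ range V | ∀ s ∈ Θ, (A s * v + B s).Prime ∧ 2 ^ (N / 2) ≤ A s * v + B s} : ℕ) : ℝ)
        ≤ V := by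
      have := card_filter_le (range V) (fun v => ∀ s ∈ Θ, (A s * v + B s).Prime ∧
        2 ^ (N / 2) ≤ A s * v + B s)
      rw [card_range] at this
      exact_mod_cast this
    refine h4.trans ?_
    have h5 := one_le_pow₀ h3 (n := r)
    have h6 : (0 : ℝ) ≤ V := Nat.cast_nonneg _
    nlinarith
  set y := N ^ 3 with hy
  set z := 2 ^ z0 with hz
  have hy3 : 3 ≤ y := by
    rw [hy]
    calc 3 ≤ N := hN3
      _ ≤ N ^ 3 := Nat.le_self_pow (by norm_num) N
  have hM := abs_le.1 (hCM y z hy3 hcase)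
  set P := SP y z with hP
  have hPp : ∀ p ∈ P, p.Prime ∧ y < p ∧ p ≤ z := by
    intro p hp
    rw [hP, SP, mem_filter, mem_Ioc] at hp
    exact ⟨hp.2, hp.1.1, hp.1.2⟩
  have hlogz : Real.log z = z0 * Real.log 2 := by
    rw [hz]; push_cast; exact Real.log_pow _ _
  have hlogy : Real.log y = 3 * Real.log N := by
    rw [hy]; push_cast; rw [Real.log_pow]; norm_num
  have hlog2 : (0 : ℝ) < Real.log 2 := Real.log_pos (by norm_num)
  have hlogN : (0 : ℝ) < Real.log N := Real.log_pos (by exact_mod_cast (by omega : 1 < N))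
  have hz0pos : (0 : ℝ) < z0 := by exact_mod_cast hz01
  rw [hlogz, hlogy] at hM
  -- reduction to the sieve
  have hcard : #P + 1 ≤ z := by
    have h1 : P ⊆ Ioc 1 z := by
      intro p hp
      rw [mem_Ioc]
      exact ⟨(hPp p hp).1.one_lt, (hPp p hp).2.2⟩
    have h2 := card_le_card h1
    rw [Nat.card_Ioc] at h2
    have : 1 ≤ z := Nat.one_le_two_pow
    omega
  have hrP : ∀ p ∈ P, #Θ ≤ p := by
    intro p hp
    have h1 := (hPp p hp).2.1
    have h2 : r ≤ N := by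
      calc r ≤ 128 * (r * L) := by nlinarith
        _ ≤ N := hrLN
    have h3 : N ≤ N ^ 3 := Nat.le_self_pow (by norm_num) N
    rw [← hrd]
    omega
  set m := 4 * (r * L) with hm
  have hB := brun_forms Θ A B P (fun p hp => (hPp p hp).1)
    (fun p hp => hA p (hPp p hp).1 (hPp p hp).2.1) (fun p hp => hd p (hPp p hp).1 (hPp p hp).2.1)
    hΘ hrP V m
  rw [← hrd] at hB
  have hsub : ((#{v ∈ range V | ∀ s ∈ Θ, (A s * v + B s).Prime ∧ 2 ^ (N / 2) ≤ A s * v + B s} : ℕ) : ℝ)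
      ≤ ((#{v ∈ range V | ∀ s ∈ Θ, ∀ p ∈ P, ¬ p ∣ A s * v + B s} : ℕ) : ℝ) := by
    have : ({v ∈ range V | ∀ s ∈ Θ, (A s * v + B s).Prime ∧ 2 ^ (N / 2) ≤ A s * v + B s} : Finset ℕ)
        ⊆ {v ∈ range V | ∀ s ∈ Θ, ∀ p ∈ P, ¬ p ∣ A s * v + B s} := by
      intro v hv
      rw [mem_filter] at hv ⊢
      refine ⟨hv.1, fun s hs p hp hdv => ?_⟩
      obtain ⟨h1, h2⟩ := hv.2 s hs
      have h3 : p = A s * v + B s := (Nat.prime_dvd_prime_iff_eq (hPp p hp).1 h1).1 hdv
      have h4 := (hPp p hp).2.2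
      have h5 : 2 ^ z0 < 2 ^ (N / 2) := Nat.pow_lt_pow_right (by norm_num) hz0N
      omega
    exact_mod_cast card_le_card this
  refine hsub.trans (hB.trans ?_)
  -- the three terms
  set σ := ∑ p ∈ P, (r : ℝ) / p with hσ
  have hσe : σ = r * ∑ p ∈ P, (1 : ℝ) / p := by
    rw [hσ, mul_sum]
    apply sum_congr rfl
    intro p _
    ring
  have hr0 : (0 : ℝ) < r := by exact_mod_cast hr1
  have hL0 : (0 : ℝ) < L := by exact_mod_cast hL1
  have hσ0 : 0 ≤ σ := sum_nonneg fun p _ => by positivity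
  have hVr : (0 : ℝ) ≤ V := Nat.cast_nonneg _
  have hNrpos : (0 : ℝ) < (N : ℝ) ^ r := by positivity
  -- main term
  have hmain : ∏ p ∈ P, (1 - (r : ℝ) / p) ≤ (384 * Real.exp CM * (r * (L : ℝ) ^ 2) / N) ^ r := by
    have h1 : ∏ p ∈ P, (1 - (r : ℝ) / p) ≤ Real.exp (-σ) := by
      rw [hσ, ← sum_neg_distrib, Real.exp_sum]
      apply prod_le_prod
      · intro p hp
        have h2 : (r : ℝ) ≤ p := by exact_mod_cast hrP p hp
        have h3 : (0 : ℝ) < p := by exact_mod_cast (hPp p hp).1.pos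
        rw [sub_nonneg, div_le_one h3]
        exact h2
      · intro p _
        have := Real.add_one_le_exp (-((r : ℝ) / p))
        linarith
    refine h1.trans ?_
    have h2 : -σ ≤ r * (CM + Real.log (3 * Real.log N) - Real.log (z0 * Real.log 2)) := by
      rw [hσe]
      have := hM.1
      nlinarith
    have h3 : Real.exp (-σ) ≤ (Real.exp (CM + Real.log (3 * Real.log N) -
        Real.log (z0 * Real.log 2))) ^ r := by
      rw [← Real.exp_nat_mul]
      exact Real.exp_le_exp.2 h2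
    refine h3.trans ?_
    apply pow_le_pow_left₀ (Real.exp_pos _).le
    rw [Real.exp_sub, Real.exp_add, Real.exp_log (by positivity), Real.exp_log (by positivity)]
    rw [div_le_div_iff₀ (by positivity) hNr]
    have h4 := log_le_Lam (N := N) (by omega)
    rw [← hL] at h4
    have h5 : (N : ℝ) ≤ z0 * (128 * (r * L)) := by
      rwa [div_le_iff₀ (by positivity)] at hz0r
    have h6 : (0 : ℝ) < Real.exp CM := Real.exp_pos _
    calc Real.exp CM * (3 * Real.log N) * N ≤ Real.exp CM * (3 * (L * Real.log 2)) *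
          (z0 * (128 * (r * L))) := by
          apply mul_le_mul _ h5 hNr.le (by positivity)
          apply mul_le_mul_of_nonneg_left _ h6.le
          linarith
      _ = 384 * Real.exp CM * (r * (L : ℝ) ^ 2) * (z0 * Real.log 2) := by ring
  -- tail
  have htail : σ ^ (2 * m + 1) / (2 * m + 1).factorial ≤ 1 / (N : ℝ) ^ r := by
    have hσL : σ ≤ r * L := by
      rw [hσe]
      apply mul_le_mul_of_nonneg_left _ hr0.le
      have h1 := hM.2
      have h2 : Real.log (z0 * Real.log 2) ≤ Real.log N := by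
        apply Real.log_le_log (by positivity)
        have h3 : (z0 : ℝ) ≤ N := by exact_mod_cast (by omega : z0 ≤ N)
        have h4 : Real.log 2 ≤ 1 := by have := Real.log_two_lt_d9; linarith
        nlinarith
      have h3 : CM ≤ Real.log (3 * Real.log N) := by
        rw [Real.le_log_iff_exp_le (by positivity)]
        exact hN₁ N hN1
      have h4 := log_le_Lam (N := N) (by omega)
      rw [← hL] at h4
      have h5 : Real.log 2 ≤ 1 := by have := Real.log_two_lt_d9; linarith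
      nlinarith
    have h1 := tail_bound hσ0 (τ := 8 * (r * L)) (by positivity) (2 * m + 1)
    refine h1.trans ?_
    have h2 : σ / (8 * (r * L)) ≤ 1 / 8 := by
      rw [div_le_div_iff₀ (by positivity) (by norm_num)]
      nlinarith
    have h3 : (σ / (8 * (r * L))) ^ (2 * m + 1) ≤ (1 / 8) ^ (2 * m + 1) :=
      pow_le_pow_left₀ (by positivity) h2 _
    have h4 : Real.exp (8 * (r * L)) = Real.exp 1 ^ (2 * m) := by
      rw [← Real.exp_nat_mul, hm]
      congr 1
      push_cast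
      ring
    rw [h4]
    have h5 : Real.exp 1 ≤ 3 := by have := Real.exp_one_lt_d9; linarith
    have h6 : (0 : ℝ) ≤ Real.exp 1 := (Real.exp_pos 1).le
    have h7 : (N : ℝ) ^ r ≤ 2 ^ (2 * m) := by
      calc (N : ℝ) ^ r ≤ (2 ^ L) ^ r := by
            apply pow_le_pow_left₀ hNr.le
            exact_mod_cast hNL.le
        _ = 2 ^ (L * r) := by rw [← pow_mul]
        _ ≤ 2 ^ (2 * m) := by
            apply pow_le_pow_right₀ (by norm_num)
            rw [hm]; nlinarith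
    calc (σ / (8 * (r * L))) ^ (2 * m + 1) * Real.exp 1 ^ (2 * m)
        ≤ (1 / 8) ^ (2 * m + 1) * 3 ^ (2 * m) := by
          apply mul_le_mul h3 (pow_le_pow_left₀ h6 h5 _) (by positivity) (by positivity)
      _ ≤ (1 / 8) ^ (2 * m) * 3 ^ (2 * m) := by
          apply mul_le_mul_of_nonneg_right _ (by positivity)
          apply pow_le_pow_of_le_one (by norm_num) (by norm_num) (by omega)
      _ = (3 / 8) ^ (2 * m) := by rw [← mul_pow]; norm_num
      _ ≤ (1 / 2) ^ (2 * m) := pow_le_pow_left₀ (by norm_num) (by norm_num) _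
      _ = 1 / 2 ^ (2 * m) := by rw [div_pow, one_pow]
      _ ≤ 1 / (N : ℝ) ^ r := one_div_le_one_div_of_le hNrpos h7
  -- error term
  have herr : ((#P : ℝ) + 1) ^ (2 * m) * (r : ℝ) ^ (2 * m) ≤ V * (1 / (N : ℝ) ^ r) := by
    rw [mul_one_div, le_div_iff₀ hNrpos]
    have h1 : ((#P + 1) ^ (2 * m) * r ^ (2 * m)) * N ^ r ≤ V := by
      have h2 : ((#P + 1) ^ (2 * m) * r ^ (2 * m)) * N ^ r ≤ 2 ^ (z0 * (2 * m) + L * (2 * m) + L * r) := by
        have h3 : (#P + 1) ^ (2 * m) ≤ 2 ^ (z0 * (2 * m)) := by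
          rw [pow_mul 2 z0 (2 * m)]
          exact Nat.pow_le_pow_left hcard _
        have h4 : r ^ (2 * m) ≤ 2 ^ (L * (2 * m)) := by
          rw [pow_mul 2 L (2 * m)]
          apply Nat.pow_le_pow_left
          have : r ≤ N := by nlinarith
          omega
        have h5 : N ^ r ≤ 2 ^ (L * r) := by
          rw [pow_mul 2 L r]
          exact Nat.pow_le_pow_left hNL.le _
        rw [pow_add, pow_add]
        exact Nat.mul_le_mul (Nat.mul_le_mul h3 h4) h5
      refine h2.trans ?_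
      have h3 : 4 * (z0 * (2 * m) + L * (2 * m) + L * r) ≤ N := by
        have e1 : 4 * (z0 * (2 * m)) * 2 = 64 * r * L * z0 := by rw [hm]; ring
        have e2 : 4 * (L * (2 * m)) * 4 = 128 * r * L ^ 2 := by rw [hm]; ring
        have e3 : 4 * (L * r) * 32 = 128 * (r * L) := by ring
        omega
      have h4 : (2 ^ (z0 * (2 * m) + L * (2 * m) + L * r)) ^ 4 ≤ V ^ 4 := by
        rw [← pow_mul]
        refine le_trans (Nat.pow_le_pow_right (by norm_num) ?_) hV
        omega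
      exact (Nat.pow_le_pow_iff_left (by norm_num)).1 h4
    exact_mod_cast h1
  -- conclusion
  set K := 384 * Real.exp CM * (r * (L : ℝ) ^ 2) / N with hK
  have hK1 : 1 / (N : ℝ) ≤ K := by
    rw [hK]
    apply div_le_div_of_nonneg_right _ hNr.le
    have h1 := Real.one_le_exp hCM0
    have h2 : (1 : ℝ) ≤ r * (L : ℝ) ^ 2 := by
      have : (1 : ℝ) ≤ r := by exact_mod_cast hr1
      have h3 : (1 : ℝ) ≤ (L : ℝ) ^ 2 := one_le_pow₀ (by exact_mod_cast hL1)
      nlinarith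
    nlinarith
  have hK0 : 0 ≤ K := by positivity
  have hKr : 1 / (N : ℝ) ^ r ≤ K ^ r := by
    rw [← one_div_pow]
    exact pow_le_pow_left₀ (by positivity) hK1 _
  have h3r : (3 : ℝ) ≤ 3 ^ r := by
    calc (3 : ℝ) = 3 ^ 1 := (pow_one _).symm
      _ ≤ 3 ^ r := pow_le_pow_right₀ (by norm_num) hr1
  have e : (3 * (384 * Real.exp CM) * (r * (L : ℝ) ^ 2) / N) ^ r = 3 ^ r * K ^ r := by
    rw [← mul_pow, hK]
    congr 1
    ring
  rw [e]
  have h1 : V * (∏ p ∈ P, (1 - (r : ℝ) / p) + σ ^ (2 * m + 1) / (2 * m + 1).factorial) ≤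
      V * (K ^ r + K ^ r) := by
    apply mul_le_mul_of_nonneg_left _ hVr
    linarith
  have h2 : ((#P : ℝ) + 1) ^ (2 * m) * (r : ℝ) ^ (2 * m) ≤ V * K ^ r :=
    herr.trans (mul_le_mul_of_nonneg_left hKr hVr)
  have h4 : (0 : ℝ) ≤ V * K ^ r := by positivity
  calc _ ≤ V * (K ^ r + K ^ r) + V * K ^ r := add_le_add h1 h2
    _ = 3 * (V * K ^ r) := by ring
    _ ≤ 3 ^ r * (V * K ^ r) := mul_le_mul_of_nonneg_right h3r h4
    _ = _ := by ring

end Pool.Agent.helper306_moser
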