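import Pool.Agent.helper306_moser.Repeat
import Pool.Agent.helper306_moser.SieveBound

/-!
Configurations of primes in cells, for one residue class of cells.
-/

open Finset

namespace Pool.Agent.helper306_moser

/-- The number attached to row `s.1` and offset `s.2` in the cell `u`. -/
def av (H G u : ℕ) (s : ℕ × ℕ) : ℕ := H * u / s.1 - G + s.2

/-- The configuration of primes in the cell `u`. -/
def cfg (H G M W N u : ℕ) : Finset (ℕ × ℕ) :=
  {s ∈ Icc 1 M ×ˢ range W | s.2 < H / s.1 + 2 * G + 2 ∧ (av H G u s).Prime ∧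
    2 ^ (N / 2) ≤ av H G u s}

structure CellHyp (N H G Q M W u₀ V : ℕ) : Prop where
  hM : 1 ≤ M
  hdiv : ∀ l ∈ Icc 1 M, l ∣ H * Q
  hG : ∀ l ∈ Icc 1 M, G ≤ H * u₀ / l
  hp : ∀ p : ℕ, p.Prime → p ∣ H * Q → p ≤ N ^ 3
  hsz : M * (1 + G + W) ≤ N ^ 3
  hM2 : M < 2 ^ (N / 2)
  hV : 2 ^ N ≤ V ^ 4

lemma av_shift {N H G Q M W u₀ V : ℕ} (h : CellHyp N H G Q M W u₀ V) {s : ℕ × ℕ}
    (hs : s.1 ∈ Icc 1 M) (v : ℕ) :
    av H G (Q * v + u₀) s = H * Q / s.1 * v + av H G u₀ s := by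
  unfold av
  have h1 := h.hdiv s.1 hs
  have h2 := h.hG s.1 hs
  have hpos : 0 < s.1 := by
    have := (mem_Icc.1 hs).1
    omega
  have e : H * (Q * v + u₀) / s.1 = H * Q / s.1 * v + H * u₀ / s.1 := by
    obtain ⟨c, hc⟩ := h1
    have e1 : H * (Q * v + u₀) = s.1 * (c * v) + H * u₀ := by
      rw [mul_add, ← mul_assoc, hc]; ring
    rw [e1, Nat.mul_add_div hpos, hc, Nat.mul_div_cancel_left _ hpos]
  rw [e]
  omega

lemma row_mul {N H G Q M W u₀ V : ℕ} (h : CellHyp N H G Q M W u₀ V) {s : ℕ × ℕ}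
    (hs : s.1 ∈ Icc 1 M) (v : ℕ) :
    s.1 * (H * Q / s.1 * v + av H G u₀ s) = H * Q * v + s.1 * av H G u₀ s := by
  rw [mul_add, ← mul_assoc, Nat.mul_div_cancel' (h.hdiv s.1 hs)]

lemma row_upper {H G u₀ M W : ℕ} {s : ℕ × ℕ} (hs : s.1 ∈ Icc 1 M) (hW : s.2 < W) :
    s.1 * av H G u₀ s ≤ H * u₀ + M * W := by
  unfold av
  rw [mul_add]
  apply add_le_add
  · calc s.1 * (H * u₀ / s.1 - G) ≤ s.1 * (H * u₀ / s.1) := Nat.mul_le_mul_left _ (Nat.sub_le _ _)
      _ ≤ H * u₀ := Nat.mul_div_le _ _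
  · exact Nat.mul_le_mul (mem_Icc.1 hs).2 hW.le

lemma row_lower {H G u₀ M : ℕ} {s : ℕ × ℕ} (hs : s.1 ∈ Icc 1 M) :
    H * u₀ < s.1 * av H G u₀ s + M * (1 + G) := by
  unfold av
  have hpos : 0 < s.1 := by
    have := (mem_Icc.1 hs).1
    omega
  have h1 : H * u₀ < s.1 * (H * u₀ / s.1) + s.1 := by
    have := Nat.mod_lt (H * u₀) hpos
    have h2 := Nat.div_add_mod (H * u₀) s.1
    omega
  have h2 : s.1 * (H * u₀ / s.1) ≤ s.1 * (H * u₀ / s.1 - G) + s.1 * G := by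
    rw [← mul_add]
    apply Nat.mul_le_mul_left
    omega
  have h3 : s.1 * (1 + G) ≤ M * (1 + G) := Nat.mul_le_mul_right _ (mem_Icc.1 hs).2
  have h4 : s.1 * (H * u₀ / s.1 - G) ≤ s.1 * (H * u₀ / s.1 - G + s.2) := by
    apply Nat.mul_le_mul_left
    omega
  rw [mul_add] at h3
  omega

/-- Two distinct members of the box with proportional numbers cannot both be large primes. -/
lemma not_both {N H G Q M W u₀ V : ℕ} (h : CellHyp N H G Q M W u₀ V) {s s' : ℕ × ℕ}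
    (hs : s.1 ∈ Icc 1 M) (hs' : s'.1 ∈ Icc 1 M) (hne : s ≠ s')
    (heq : s.1 * av H G u₀ s = s'.1 * av H G u₀ s') (v : ℕ) :
    ¬ ((H * Q / s.1 * v + av H G u₀ s).Prime ∧ 2 ^ (N / 2) ≤ H * Q / s.1 * v + av H G u₀ s ∧
      (H * Q / s'.1 * v + av H G u₀ s').Prime ∧
        2 ^ (N / 2) ≤ H * Q / s'.1 * v + av H G u₀ s') := by
  rintro ⟨h1, h2, h3, h4⟩
  set a := H * Q / s.1 * v + av H G u₀ s with ha
  set a' := H * Q / s'.1 * v + av H G u₀ s' with ha'
  have e1 := row_mul h hs v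
  have e2 := row_mul h hs' v
  rw [← ha] at e1
  rw [← ha'] at e2
  have e : s.1 * a = s'.1 * a' := by rw [e1, e2, heq]
  have hl := (mem_Icc.1 hs)
  have hl' := (mem_Icc.1 hs')
  have hM2 := h.hM2
  have hd : a ∣ s'.1 * a' := ⟨s.1, by rw [← e, mul_comm]⟩
  have haa : a = a' := by
    rcases h1.dvd_mul.1 hd with h5 | h5
    · have := Nat.le_of_dvd (by omega) h5
      omega
    · exact (Nat.prime_dvd_prime_iff_eq h1 h3).1 h5
  have hll : s.1 = s'.1 := by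
    rw [haa] at e
    exact Nat.eq_of_mul_eq_mul_right h3.pos e
  apply hne
  refine Prod.ext hll ?_
  rw [ha, ha', hll] at haa
  unfold av at haa
  rw [hll] at haa
  omega

/-- The probability that a given set is contained in the configuration. -/
theorem prob_bound : ∃ C : ℝ, 1 ≤ C ∧ ∃ N₀ : ℕ, ∀ N : ℕ, N₀ ≤ N →
    ∀ (H G Q M W u₀ V : ℕ), CellHyp N H G Q M W u₀ V →
    ∀ Θ ⊆ Icc 1 M ×ˢ range W, Θ.Nonempty → 128 * #Θ * Lam N ^ 2 ≤ N →
    (#{v ∈ range V | Θ ⊆ cfg H G M W N (Q * v + u₀)} : ℝ) ≤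
      V * (C * (#Θ * (Lam N : ℝ) ^ 2) / N) ^ #Θ := by
  obtain ⟨C, hC, N₀, hN₀⟩ := sieve_bound
  refine ⟨C, hC, N₀, ?_⟩
  intro N hN H G Q M W u₀ V h Θ hΘ hne hcard
  have hrow : ∀ s ∈ Θ, s.1 ∈ Icc 1 M ∧ s.2 < W := by
    intro s hs
    have := hΘ hs
    rw [mem_product, mem_range] at this
    exact this
  have hsub : {v ∈ range V | Θ ⊆ cfg H G M W N (Q * v + u₀)} ⊆
      {v ∈ range V | ∀ s ∈ Θ, (H * Q / s.1 * v + av H G u₀ s).Prime ∧
        2 ^ (N / 2) ≤ H * Q / s.1 * v + av H G u₀ s} := by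
    intro v hv
    rw [mem_filter] at hv ⊢
    refine ⟨hv.1, fun s hs => ?_⟩
    have h1 := hv.2 hs
    unfold cfg at h1
    rw [mem_filter] at h1
    rw [← av_shift h (hrow s hs).1 v]
    exact ⟨h1.2.2.1, h1.2.2.2⟩
  have hpos : (0 : ℝ) ≤ V * (C * (#Θ * (Lam N : ℝ) ^ 2) / N) ^ #Θ := by
    have : (0 : ℝ) ≤ C := by linarith
    positivity
  by_cases hdeg : ∃ s ∈ Θ, ∃ s' ∈ Θ, s ≠ s' ∧ s.1 * av H G u₀ s = s'.1 * av H G u₀ s'
  · obtain ⟨s, hs, s', hs', hne', heq⟩ := hdeg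
    have hempty : {v ∈ range V | Θ ⊆ cfg H G M W N (Q * v + u₀)} = ∅ := by
      rw [← subset_empty]
      intro v hv
      exfalso
      have h1 := (mem_filter.1 (hsub hv)).2
      exact not_both h (hrow s hs).1 (hrow s' hs').1 hne' heq v
        ⟨(h1 s hs).1, (h1 s hs).2, (h1 s' hs').1, (h1 s' hs').2⟩
    rw [hempty]
    simpa using hpos
  · push Not at hdeg
    refine le_trans ?_ (hN₀ N hN Θ (fun s => H * Q / s.1) (fun s => av H G u₀ s) V hne hcard h.hV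
      ?_ ?_)
    · exact_mod_cast card_le_card hsub
    · intro p hp hpN s hs hdvd
      have h1 : H * Q / s.1 ∣ H * Q := Nat.div_dvd_of_dvd (h.hdiv s.1 (hrow s hs).1)
      have := h.hp p hp (hdvd.trans h1)
      omega
    · rintro p hp hpN s hs s' hs' hss v ⟨hd1, hd2⟩
      have h1 : p ∣ H * Q * v + s.1 * av H G u₀ s := by
        rw [← row_mul h (hrow s hs).1 v]
        exact Dvd.dvd.mul_left hd1 _
      have h2 : p ∣ H * Q * v + s'.1 * av H G u₀ s' := by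
        rw [← row_mul h (hrow s' hs').1 v]
        exact Dvd.dvd.mul_left hd2 _
      have u1 := row_upper (H := H) (G := G) (u₀ := u₀) (hrow s hs).1 (hrow s hs).2
      have u2 := row_upper (H := H) (G := G) (u₀ := u₀) (hrow s' hs').1 (hrow s' hs').2
      have l1 := row_lower (H := H) (G := G) (u₀ := u₀) (hrow s hs).1
      have l2 := row_lower (H := H) (G := G) (u₀ := u₀) (hrow s' hs').1
      have hsz := h.hsz
      have hexp : M * (1 + G + W) = M * (1 + G) + M * W := by ring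
      have hne2 := hdeg s hs s' hs' hss
      rcases lt_or_gt_of_ne hne2 with hlt | hlt
      · have h3 := Nat.dvd_sub h2 h1
        have h4 := Nat.le_of_dvd (by omega) h3
        omega
      · have h3 := Nat.dvd_sub h1 h2
        have h4 := Nat.le_of_dvd (by omega) h3
        omega

end Pool.Agent.helper306_moser
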