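import Pool.Agent.helper306_moser.Cell

/-!
Repeated block sums in one residue class of cells.
-/

open Finset

namespace Pool.Agent.helper306_moser

lemma cfg_sub (H G M W N u : ℕ) : cfg H G M W N u ⊆ Icc 1 M ×ˢ range W :=
  filter_subset _ _

lemma reps_le_card {α : Type} (rp : Finset α → α → Prop) (Θ : Finset α) :
    reps rp Θ ≤ #Θ := by
  classical
  unfold reps
  exact card_le_card (filter_subset _ _)

open scoped Classical in
theorem class_bound : ∃ C : ℝ, 1 ≤ C ∧ ∃ N₀ : ℕ, ∀ N : ℕ, N₀ ≤ N →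
    ∀ (H G Q M W u₀ V : ℕ), CellHyp N H G Q M W u₀ V →
    ∀ (B s k₀ : ℕ), 1 ≤ B → 1 ≤ s → 2 ≤ k₀ → 128 * k₀ * Lam N ^ 2 ≤ N → k₀ * s ^ B ≤ M * W →
    ∀ β : ℝ, 2 * (M * W) / s * (C * (k₀ * (Lam N : ℝ) ^ 2) / N) ≤ β → β ≤ 1 →
    (∑ v ∈ range V, (reps (IsRep (av H G u₀)) (cfg H G M W N (Q * v + u₀)) : ℝ)) ≤
      (1 / B + 1 / k₀) * (∑ v ∈ range V, (#(cfg H G M W N (Q * v + u₀)) : ℝ)) +
        V * (k₀ ^ 2 * β + (M * W) ^ 2 * (C * (2 * (Lam N : ℝ) ^ 2) / N) ^ 2 / k₀) := by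
  classical
  obtain ⟨C, hC, N₀, hN₀⟩ := prob_bound
  refine ⟨C, hC, max N₀ 1, ?_⟩
  intro N hN' H G Q M W u₀ V h B s k₀ hB hs hk₀ hkN hks β hβ hβ1
  have hN : N₀ ≤ N := (le_max_left _ _).trans hN'
  have hN1 : 1 ≤ N := (le_max_right _ _).trans hN'
  set Box := Icc 1 M ×ˢ range W with hBox
  set L := Lam N with hL
  have hCpos : (0 : ℝ) < C := by linarith
  have hβ0 : 0 ≤ β := le_trans (by positivity) hβ
  set X : ℕ → Finset (ℕ × ℕ) := fun v => cfg H G M W N (Q * v + u₀) with hX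
  have hXsub : ∀ v, X v ⊆ Box := fun v => cfg_sub _ _ _ _ _ _
  set rp := IsRep (av H G u₀) with hrp
  have hk0r : (0 : ℝ) < k₀ := by
    have : 0 < k₀ := by omega
    exact_mod_cast this
  have hBr : (0 : ℝ) < B := by exact_mod_cast hB
  -- heavy sets
  set Hv : ℕ → Finset (Finset (ℕ × ℕ)) := fun k =>
    {Θ ∈ powersetCard k Box | k ≤ B * reps rp Θ} with hHv
  have hHvcard : ∀ k ∈ Icc 1 k₀, (#(Hv k) : ℝ) ≤ (2 * (M * W) / s) ^ k := by
    intro k hk
    rw [mem_Icc] at hk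
    refine heavy_rep M W s B k (av H G u₀) ?_ hs ?_
    · intro l h1 h2 h3
      unfold av at h3
      simp only at h3
      omega
    · exact le_trans (Nat.mul_le_mul_right _ hk.2) hks
  -- pointwise bound
  have hpt : ∀ v, (reps rp (X v) : ℝ) ≤ (1 / B + 1 / k₀) * #(X v) +
      (k₀ * ∑ k ∈ Icc 1 k₀, ∑ Θ ∈ Hv k, (if Θ ⊆ X v then (1 : ℝ) else 0)) +
      (∑ q ∈ Box.offDiag, (if ({q.1, q.2} : Finset (ℕ × ℕ)) ⊆ X v then (1 : ℝ) else 0)) / k₀ := by
    intro v
    have hle : (reps rp (X v) : ℝ) ≤ #(X v) := by exact_mod_cast reps_le_card rp (X v)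
    have hA : (0 : ℝ) ≤ (1 / B + 1 / k₀) * #(X v) := by positivity
    have hBn : (0 : ℝ) ≤ k₀ * ∑ k ∈ Icc 1 k₀, ∑ Θ ∈ Hv k, (if Θ ⊆ X v then (1 : ℝ) else 0) := by
      apply mul_nonneg hk0r.le
      apply sum_nonneg
      intro k _
      apply sum_nonneg
      intro Θ _
      split_ifs <;> norm_num
    have hoff : (∑ q ∈ Box.offDiag, (if ({q.1, q.2} : Finset (ℕ × ℕ)) ⊆ X v then (1 : ℝ) else 0))
        = #(X v) * #(X v) - #(X v) := by
      rw [← sum_filter, sum_const, nsmul_eq_mul, mul_one]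
      have : {q ∈ Box.offDiag | ({q.1, q.2} : Finset (ℕ × ℕ)) ⊆ X v} = (X v).offDiag := by
        ext q
        rw [mem_filter, mem_offDiag, mem_offDiag, insert_subset_iff, singleton_subset_iff]
        constructor
        · rintro ⟨⟨_, _, h3⟩, h4, h5⟩
          exact ⟨h4, h5, h3⟩
        · rintro ⟨h4, h5, h3⟩
          exact ⟨⟨hXsub v h4, hXsub v h5, h3⟩, h4, h5⟩
      rw [this, offDiag_card]
      rw [Nat.cast_sub (Nat.le_mul_self _)]
      push_cast
      ring
    have hCn : (0 : ℝ) ≤ (#(X v) : ℝ) * #(X v) - #(X v) := by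
      rw [← hoff]
      apply sum_nonneg
      intro q _
      split_ifs <;> norm_num
    rw [hoff]
    by_cases h1 : #(X v) ≤ B * reps rp (X v)
    · rcases Nat.eq_zero_or_pos (#(X v)) with h0 | h0
      · have : (reps rp (X v) : ℝ) ≤ 0 := by
          rw [h0] at hle
          simpa using hle
        have : (0 : ℝ) ≤ ((#(X v) : ℝ) * #(X v) - #(X v)) / k₀ := by positivity
        linarith
      · by_cases h2 : #(X v) ≤ k₀
        · have hmem : X v ∈ Hv (#(X v)) := by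
            rw [hHv]
            simp only
            rw [mem_filter, mem_powersetCard]
            exact ⟨⟨hXsub v, rfl⟩, h1⟩
          have h3 : (1 : ℝ) ≤ ∑ k ∈ Icc 1 k₀, ∑ Θ ∈ Hv k, (if Θ ⊆ X v then (1 : ℝ) else 0) := by
            calc (1 : ℝ) = (if X v ⊆ X v then (1 : ℝ) else 0) := by simp
              _ ≤ ∑ Θ ∈ Hv (#(X v)), (if Θ ⊆ X v then (1 : ℝ) else 0) :=
                  single_le_sum (f := fun Θ => (if Θ ⊆ X v then (1 : ℝ) else 0))
                    (fun Θ _ => by split_ifs <;> norm_num) hmem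
              _ ≤ ∑ k ∈ Icc 1 k₀, ∑ Θ ∈ Hv k, (if Θ ⊆ X v then (1 : ℝ) else 0) :=
                  single_le_sum (f := fun k => ∑ Θ ∈ Hv k, (if Θ ⊆ X v then (1 : ℝ) else 0))
                    (fun k _ => sum_nonneg (fun Θ _ => by split_ifs <;> norm_num))
                    (mem_Icc.2 ⟨h0, h2⟩)
          have h4 : (#(X v) : ℝ) ≤ k₀ := by exact_mod_cast h2
          have h5 : (k₀ : ℝ) * 1 ≤ k₀ * ∑ k ∈ Icc 1 k₀, ∑ Θ ∈ Hv k,
              (if Θ ⊆ X v then (1 : ℝ) else 0) := mul_le_mul_of_nonneg_left h3 hk0r.le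
          have : (0 : ℝ) ≤ ((#(X v) : ℝ) * #(X v) - #(X v)) / k₀ := by positivity
          linarith
        · push Not at h2
          have h3 : (k₀ : ℝ) ≤ #(X v) := by exact_mod_cast h2.le
          have h4 : (#(X v) : ℝ) ≤ #(X v) * #(X v) / k₀ := by
            rw [le_div_iff₀ hk0r]
            exact mul_le_mul_of_nonneg_left h3 (Nat.cast_nonneg _)
          have h5 : (1 / B + 1 / k₀) * (#(X v) : ℝ) + ((#(X v) : ℝ) * #(X v) - #(X v)) / k₀ =
              1 / B * #(X v) + #(X v) * #(X v) / k₀ := by ring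
          have h6 : (0 : ℝ) ≤ 1 / B * #(X v) := by positivity
          linarith
    · push Not at h1
      have h2 : ((B * reps rp (X v) : ℕ) : ℝ) ≤ #(X v) := by exact_mod_cast h1.le
      push_cast at h2
      have h3 : (reps rp (X v) : ℝ) ≤ 1 / B * #(X v) := by
        rw [one_div, inv_mul_eq_div, le_div_iff₀ hBr]
        linarith
      have h4 : (0 : ℝ) ≤ 1 / k₀ * #(X v) := by positivity
      have h5 : (0 : ℝ) ≤ ((#(X v) : ℝ) * #(X v) - #(X v)) / k₀ := by positivity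
      have h6 : (1 / B + 1 / k₀) * (#(X v) : ℝ) = 1 / B * #(X v) + 1 / k₀ * #(X v) := by ring
      linarith
  -- sum up
  have hsum : (∑ v ∈ range V, (reps rp (X v) : ℝ)) ≤
      (1 / B + 1 / k₀) * (∑ v ∈ range V, (#(X v) : ℝ)) +
      k₀ * ∑ k ∈ Icc 1 k₀, ∑ Θ ∈ Hv k, (#{v ∈ range V | Θ ⊆ X v} : ℝ) +
      (∑ q ∈ Box.offDiag, (#{v ∈ range V | ({q.1, q.2} : Finset (ℕ × ℕ)) ⊆ X v} : ℝ)) / k₀ := by
    refine (sum_le_sum (fun v _ => hpt v)).trans ?_
    rw [sum_add_distrib, sum_add_distrib, ← mul_sum, ← mul_sum, ← sum_div]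
    apply le_of_eq
    congr 1
    · congr 1
      congr 1
      rw [sum_comm]
      apply sum_congr rfl
      intro k _
      rw [sum_comm]
      apply sum_congr rfl
      intro Θ _
      rw [← sum_filter, sum_const, nsmul_eq_mul, mul_one]
    · congr 1
      rw [sum_comm]
      apply sum_congr rfl
      intro q _
      rw [← sum_filter, sum_const, nsmul_eq_mul, mul_one]
  refine hsum.trans ?_
  rw [mul_add, add_assoc]
  apply add_le_add le_rfl
  have hNr : (0 : ℝ) < N := by exact_mod_cast hN1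
  apply add_le_add
  · -- heavy part
    have h1 : ∀ k ∈ Icc 1 k₀, ∑ Θ ∈ Hv k, (#{v ∈ range V | Θ ⊆ X v} : ℝ) ≤ V * β := by
      intro k hk
      have hk' := mem_Icc.1 hk
      have h2 : ∀ Θ ∈ Hv k, (#{v ∈ range V | Θ ⊆ X v} : ℝ) ≤
          V * (C * (k₀ * (L : ℝ) ^ 2) / N) ^ k := by
        intro Θ hΘ
        rw [hHv] at hΘ
        simp only at hΘ
        rw [mem_filter, mem_powersetCard] at hΘ
        have hne : Θ.Nonempty := by
          rw [← card_pos, hΘ.1.2]
          omega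
        have h3 := hN₀ N hN H G Q M W u₀ V h Θ hΘ.1.1 hne (by
          rw [hΘ.1.2]
          refine le_trans ?_ hkN
          apply Nat.mul_le_mul_right
          exact Nat.mul_le_mul_left _ hk'.2)
        rw [hΘ.1.2] at h3
        refine h3.trans ?_
        apply mul_le_mul_of_nonneg_left _ (Nat.cast_nonneg _)
        apply pow_le_pow_left₀ (by positivity)
        apply div_le_div_of_nonneg_right _ hNr.le
        apply mul_le_mul_of_nonneg_left _ hCpos.le
        apply mul_le_mul_of_nonneg_right _ (by positivity)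
        exact_mod_cast hk'.2
      calc ∑ Θ ∈ Hv k, (#{v ∈ range V | Θ ⊆ X v} : ℝ)
          ≤ ∑ Θ ∈ Hv k, V * (C * (k₀ * (L : ℝ) ^ 2) / N) ^ k := sum_le_sum h2
        _ = #(Hv k) * (V * (C * (k₀ * (L : ℝ) ^ 2) / N) ^ k) := by
            rw [sum_const, nsmul_eq_mul]
        _ ≤ (2 * (M * W) / s) ^ k * (V * (C * (k₀ * (L : ℝ) ^ 2) / N) ^ k) :=
            mul_le_mul_of_nonneg_right (hHvcard k hk) (by positivity)
        _ = V * (2 * (M * W) / s * (C * (k₀ * (L : ℝ) ^ 2) / N)) ^ k := by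
            rw [mul_pow]; ring
        _ ≤ V * β ^ k := by
            apply mul_le_mul_of_nonneg_left _ (Nat.cast_nonneg _)
            exact pow_le_pow_left₀ (by positivity) hβ _
        _ ≤ V * β := by
            apply mul_le_mul_of_nonneg_left _ (Nat.cast_nonneg _)
            exact pow_le_of_le_one hβ0 hβ1 (by omega)
    calc (k₀ : ℝ) * ∑ k ∈ Icc 1 k₀, ∑ Θ ∈ Hv k, (#{v ∈ range V | Θ ⊆ X v} : ℝ)
        ≤ k₀ * ∑ k ∈ Icc 1 k₀, V * β := mul_le_mul_of_nonneg_left (sum_le_sum h1) hk0r.le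
      _ = V * (k₀ ^ 2 * β) := by
          rw [sum_const, nsmul_eq_mul, Nat.card_Icc]
          simp only [Nat.add_sub_cancel]
          ring
  · -- pairs
    have h1 : ∀ q ∈ Box.offDiag, (#{v ∈ range V | ({q.1, q.2} : Finset (ℕ × ℕ)) ⊆ X v} : ℝ) ≤
        V * (C * (2 * (L : ℝ) ^ 2) / N) ^ 2 := by
      intro q hq
      rw [mem_offDiag] at hq
      have hc : #({q.1, q.2} : Finset (ℕ × ℕ)) = 2 := card_pair hq.2.2
      have h3 := hN₀ N hN H G Q M W u₀ V h {q.1, q.2} (by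
        rw [insert_subset_iff, singleton_subset_iff]
        exact ⟨hq.1, hq.2.1⟩) (insert_nonempty _ _) (by
        rw [hc]
        refine le_trans ?_ hkN
        apply Nat.mul_le_mul_right
        exact Nat.mul_le_mul_left _ hk₀)
      rw [hc] at h3
      exact_mod_cast h3
    have hcard : (#Box.offDiag : ℝ) ≤ (M * W) ^ 2 := by
      have h2 : #Box = M * W := by rw [hBox]; simp
      have h3 : #Box.offDiag ≤ (M * W) ^ 2 := by
        rw [offDiag_card, h2, sq]
        exact Nat.sub_le _ _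
      exact_mod_cast h3
    calc (∑ q ∈ Box.offDiag, (#{v ∈ range V | ({q.1, q.2} : Finset (ℕ × ℕ)) ⊆ X v} : ℝ)) / k₀
        ≤ (∑ q ∈ Box.offDiag, V * (C * (2 * (L : ℝ) ^ 2) / N) ^ 2) / k₀ :=
          div_le_div_of_nonneg_right (sum_le_sum h1) hk0r.le
      _ = #Box.offDiag * (V * (C * (2 * (L : ℝ) ^ 2) / N) ^ 2) / k₀ := by
          rw [sum_const, nsmul_eq_mul]
      _ ≤ (M * W) ^ 2 * (V * (C * (2 * (L : ℝ) ^ 2) / N) ^ 2) / k₀ := by
          apply div_le_div_of_nonneg_right _ hk0r.le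
          exact mul_le_mul_of_nonneg_right hcard (by positivity)
      _ = _ := by ring

end Pool.Agent.helper306_moser
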