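import Pool.Agent.helper306_moser.Distinct

/-!
Translation between blocks given by (length, first index) and by (first index, last index).
-/

open Finset

namespace Pool.Agent.helper306_moser

lemma sum_Icc_nth {i j : ℕ} (hi : 1 ≤ i) (_ : i ≤ j) :
    ∑ k ∈ Icc i j, Nat.nth Nat.Prime (k - 1) = S (j + 1 - i) (i - 1) := by
  have h1 : Icc i j = Ico i (j + 1) := by
    ext k
    simp only [mem_Icc, mem_Ico]
    omega
  rw [h1, sum_Ico_eq_sum_range]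
  unfold S P
  apply sum_congr rfl
  intro r _
  congr 1
  omega

lemma le_S (l i : ℕ) : l ≤ S l i := by
  calc l = l * 1 := (mul_one _).symm
    _ ≤ l * P i := Nat.mul_le_mul_left _ (P_prime i).pos
    _ ≤ _ := mul_P_le_S _ _

lemma idx_lt_S {l : ℕ} (hl : 1 ≤ l) (i : ℕ) : i < S l i := by
  have h7 : P i ≤ S l i := by
    calc P i = 1 * P i := (one_mul _).symm
      _ ≤ l * P i := Nat.mul_le_mul_right _ hl
      _ ≤ _ := mul_P_le_S _ _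
  have := lt_P i
  omega

/-- The blocks with at most `M` terms and sum `n`. -/
noncomputable def Fb (M n : ℕ) : Finset (ℕ × ℕ) :=
  {w ∈ Icc 1 M ×ˢ range (n + 1) | S w.1 w.2 = n}

lemma set_eq (M n : ℕ) :
    {ij : ℕ × ℕ | 1 ≤ ij.1 ∧ ij.1 ≤ ij.2 ∧ ij.2 < ij.1 + M ∧
      ∑ k ∈ Icc ij.1 ij.2, Nat.nth Nat.Prime (k - 1) = n} =
    (((Fb M n).image (fun w => (w.2 + 1, w.2 + w.1)) : Finset (ℕ × ℕ)) : Set (ℕ × ℕ)) := by
  ext ⟨i, j⟩
  rw [mem_coe, mem_image]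
  simp only [Set.mem_ofPred_eq]
  constructor
  · rintro ⟨h1, h2, h3, h4⟩
    rw [sum_Icc_nth h1 h2] at h4
    refine ⟨(j + 1 - i, i - 1), ?_, ?_⟩
    · unfold Fb
      rw [mem_filter, mem_product, mem_Icc, mem_range]
      have := idx_lt_S (show 1 ≤ j + 1 - i by omega) (i - 1)
      exact ⟨⟨⟨by omega, by omega⟩, by omega⟩, h4⟩
    · simp only [Prod.mk.injEq]
      omega
  · rintro ⟨w, hw, he⟩
    unfold Fb at hw
    rw [mem_filter, mem_product, mem_Icc, mem_range] at hw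
    simp only [Prod.mk.injEq] at he
    obtain ⟨he1, he2⟩ := he
    have h1 : 1 ≤ i := by omega
    have h2 : i ≤ j := by omega
    refine ⟨h1, h2, by omega, ?_⟩
    rw [sum_Icc_nth h1 h2]
    have e1 : j + 1 - i = w.1 := by omega
    have e2 : i - 1 = w.2 := by omega
    rw [e1, e2]
    exact hw.2

lemma ncard_eq (M n : ℕ) :
    {ij : ℕ × ℕ | 1 ≤ ij.1 ∧ ij.1 ≤ ij.2 ∧ ij.2 < ij.1 + M ∧
      ∑ k ∈ Icc ij.1 ij.2, Nat.nth Nat.Prime (k - 1) = n}.ncard = #(Fb M n) := by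
  rw [set_eq, Set.ncard_coe_finset, card_image_of_injOn]
  intro w _ w' _ he
  simp only [Prod.mk.injEq] at he
  exact Prod.ext (by omega) (by omega)

lemma set_eq' (n : ℕ) :
    {ij : ℕ × ℕ | 1 ≤ ij.1 ∧ ij.1 ≤ ij.2 ∧
      ∑ k ∈ Icc ij.1 ij.2, Nat.nth Nat.Prime (k - 1) = n} =
    {ij : ℕ × ℕ | 1 ≤ ij.1 ∧ ij.1 ≤ ij.2 ∧ ij.2 < ij.1 + n ∧
      ∑ k ∈ Icc ij.1 ij.2, Nat.nth Nat.Prime (k - 1) = n} := by
  ext ⟨i, j⟩
  simp only [Set.mem_ofPred_eq]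
  constructor
  · rintro ⟨h1, h2, h3⟩
    refine ⟨h1, h2, ?_, h3⟩
    rw [sum_Icc_nth h1 h2] at h3
    have := le_S (j + 1 - i) (i - 1)
    omega
  · rintro ⟨h1, h2, _, h3⟩
    exact ⟨h1, h2, h3⟩

lemma ncard_eq' (n : ℕ) :
    {ij : ℕ × ℕ | 1 ≤ ij.1 ∧ ij.1 ≤ ij.2 ∧
      ∑ k ∈ Icc ij.1 ij.2, Nat.nth Nat.Prime (k - 1) = n}.ncard = #(Fb n n) := by
  rw [set_eq', ncard_eq]

lemma rep_iff (n : ℕ) : Rep n ↔ 1 ≤ #(Fb n n) := by
  rw [Nat.one_le_iff_ne_zero, ← Nat.pos_iff_ne_zero, card_pos]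
  unfold Fb
  constructor
  · rintro ⟨l, i, hl, hS⟩
    refine ⟨(l, i), ?_⟩
    rw [mem_filter, mem_product, mem_Icc, mem_range]
    have h1 := le_S l i
    have h2 := idx_lt_S hl i
    exact ⟨⟨⟨hl, by omega⟩, by omega⟩, hS⟩
  · rintro ⟨w, hw⟩
    rw [mem_filter, mem_product, mem_Icc, mem_range] at hw
    exact ⟨w.1, w.2, hw.1.1.1, hw.2⟩

lemma Fb_eq {M n x : ℕ} (hn : n ≤ x) : Fb M n = {w ∈ Bx x M | S w.1 w.2 = n} := by
  ext w
  unfold Fb Bx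
  rw [mem_filter, mem_filter, mem_filter, mem_product, mem_product, mem_range, mem_range, mem_Icc]
  constructor
  · rintro ⟨⟨h1, h2⟩, h3⟩
    exact ⟨⟨⟨h1, by omega⟩, by omega⟩, h3⟩
  · rintro ⟨⟨⟨h1, h2⟩, h3⟩, h4⟩
    have := idx_lt_S h1.1 w.2
    exact ⟨⟨h1, by omega⟩, h4⟩

lemma sum_Fb (x M : ℕ) : ∑ n ∈ Icc 1 x, #(Fb M n) = #(Bx x M) := by
  have hmap : ∀ w ∈ Bx x M, S w.1 w.2 ∈ Icc 1 x := by
    intro w hw
    unfold Bx at hw
    rw [mem_filter, mem_product, mem_Icc] at hw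
    rw [mem_Icc]
    have := le_S w.1 w.2
    exact ⟨by omega, hw.2⟩
  rw [card_eq_sum_card_fiberwise hmap]
  apply sum_congr rfl
  intro n hn
  rw [Fb_eq (mem_Icc.1 hn).2]

lemma card_Fb (x M : ℕ) : #{n ∈ Icc 1 x | 1 ≤ #(Fb M n)} =
    #((Bx x M).image (fun w => S w.1 w.2)) := by
  congr 1
  ext n
  rw [mem_filter, mem_image]
  constructor
  · rintro ⟨h1, h2⟩
    rw [Fb_eq (mem_Icc.1 h1).2, Nat.one_le_iff_ne_zero, ← Nat.pos_iff_ne_zero, card_pos] at h2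
    obtain ⟨w, hw⟩ := h2
    rw [mem_filter] at hw
    exact ⟨w, hw.1, hw.2⟩
  · rintro ⟨w, hw, rfl⟩
    have hw' := hw
    unfold Bx at hw'
    rw [mem_filter, mem_product, mem_Icc] at hw'
    have := le_S w.1 w.2
    refine ⟨mem_Icc.2 ⟨by omega, hw'.2⟩, ?_⟩
    rw [Fb_eq hw'.2, Nat.one_le_iff_ne_zero, ← Nat.pos_iff_ne_zero, card_pos]
    exact ⟨w, mem_filter.2 ⟨hw, rfl⟩⟩

end Pool.Agent.helper306_moser
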