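import Pool.Agent.helper306_moser.Link

/-!
The number of coincidences among block sums, in terms of configurations in cells, and the first
moment of the number of primes in the configurations.
-/

open Finset

namespace Pool.Agent.helper306_moser

structure FullHyp (N C₁ H G Q M W V D : ℕ) : Prop extends LinkHyp N C₁ H G Q M W V where
  hp : ∀ p : ℕ, p.Prime → p ∣ H * Q → p ≤ N ^ 3
  hsz : M * (1 + G + W) ≤ N ^ 3
  hM2 : M < 2 ^ (N / 2)
  hV4 : 2 ^ N ≤ V ^ 4
  hD : 2 * M * (G + 1) ≤ D * H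
  hVle : H * Q * V ≤ 2 ^ N
  hbig : H * Q + H + M * (G + 1) ≤ 2 ^ N

lemma FullHyp.cell {N C₁ H G Q M W V D : ℕ} (h : FullHyp N C₁ H G Q M W V D) {u₀ : ℕ}
    (hu : Q ≤ u₀) : CellHyp N H G Q M W u₀ V where
  hM := h.hM
  hdiv := h.hdiv
  hG := fun l hl => (h.hGQ l hl).trans (Nat.div_le_div_right (Nat.mul_le_mul_left _ hu))
  hp := h.hp
  hsz := h.hsz
  hM2 := h.hM2
  hV := h.hV4

lemma sum_av_shift {N H G Q M W u₀ V : ℕ} (h : CellHyp N H G Q M W u₀ V) {l : ℕ}
    (hl : l ∈ Icc 1 M) (v : ℕ) (R : Finset (ℕ × ℕ)) (hR : ∀ x ∈ R, x.1 = l) (hc : #R = l) :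
    ∑ x ∈ R, av H G (Q * v + u₀) x = H * Q * v + ∑ x ∈ R, av H G u₀ x := by
  have h1 : ∑ x ∈ R, av H G (Q * v + u₀) x = ∑ x ∈ R, (H * Q / l * v + av H G u₀ x) := by
    apply sum_congr rfl
    intro x hx
    have hx1 := hR x hx
    rw [av_shift h (by rw [hx1]; exact hl) v, hx1]
  rw [h1, sum_add_distrib, sum_const, hc, smul_eq_mul, ← mul_assoc,
    Nat.mul_div_cancel' (h.hdiv l hl)]

lemma blk_fst (H G : ℕ) (w : ℕ × ℕ) : ∀ x ∈ blk H G w, x.1 = w.1 := by
  intro x hx
  unfold blk at hx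
  rw [mem_image] at hx
  obtain ⟨r, _, rfl⟩ := hx
  rfl

open scoped Classical in
theorem rep_count {N C₁ H G Q M W V D : ℕ} (h : FullHyp N C₁ H G Q M W V D) :
    #(Rp N C₁ M) ≤ ∑ u₀ ∈ Ico Q (2 * Q), ∑ v ∈ range V,
      reps (IsRep (av H G u₀)) (cfg H G M W N (Q * v + u₀)) := by
  classical
  have hL := h.toLinkHyp
  have hH0 : 0 < H := by have := h.hH; omega
  have hQ0 : 0 < Q := by have := h.hQ; omega
  rw [← sum_product' (f := fun u₀ v => reps (IsRep (av H G u₀)) (cfg H G M W N (Q * v + u₀)))]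
  unfold reps
  rw [← card_sigma]
  -- the map
  apply card_le_card_of_injOn (fun w : ℕ × ℕ =>
    (⟨((S w.1 w.2 / H) % Q + Q, (S w.1 w.2 / H) / Q - 1),
      (w.1, off H G (S w.1 w.2 / H) w.1 (w.2 + (w.1 - 1)))⟩ : (_ : ℕ × ℕ) × (ℕ × ℕ)))
  · intro w hw
    have hw := mem_filter.1 (mem_coe.1 hw)
    obtain ⟨hg, w', hg', hlt, hS⟩ := hw
    have hwd := mem_filter.1 (mem_filter.1 hg).1
    rw [mem_product, mem_Icc] at hwd
    have hwd' := mem_filter.1 (mem_filter.1 hg').1
    rw [mem_product, mem_Icc] at hwd'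
    have hX := (mem_filter.1 hg).2.1
    set u := S w.1 w.2 / H with hu
    have hu' : S w'.1 w'.2 / H = u := by rw [hS]
    have huQ : Q ≤ u := by
      rw [hu, Nat.le_div_iff_mul_le hH0, mul_comm]
      exact hL.hHQ.trans hX
    have huQ1 : 1 ≤ u / Q := by
      rw [Nat.le_div_iff_mul_le hQ0]
      omega
    have huV : u / Q ≤ V := by
      rw [hu, Nat.div_div_eq_div_mul]
      have : S w.1 w.2 < H * Q * (V + 1) := hwd.2.trans hL.hV
      have := Nat.div_lt_of_lt_mul this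
      omega
    have hdec : Q * (u / Q - 1) + (u % Q + Q) = u := by
      have e1 := Nat.div_add_mod u Q
      have e2 : Q * (u / Q - 1) + Q = Q * (u / Q) := by
        obtain ⟨c, hc⟩ : ∃ c, u / Q = c + 1 := ⟨u / Q - 1, by omega⟩
        rw [hc]
        simp only [Nat.add_sub_cancel]
        ring
      omega
    have hmod : u % Q < Q := Nat.mod_lt _ hQ0
    simp only [coe_sigma, Set.mem_sigma_iff, mem_coe, mem_product, mem_Ico, mem_range,
      mem_filter, ← hu]
    refine ⟨⟨⟨by omega, by omega⟩, by omega⟩, ?_, ?_⟩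
    · rw [hdec]
      exact (blk_isWin hL hg).sub (blk_isWin hL hg).mem
    · rw [hdec]
      have hcell := h.cell (show Q ≤ u % Q + Q by omega)
      have hwin := blk_isWin hL hg
      have hwin' := blk_isWin hL hg'
      rw [hu'] at hwin'
      refine ⟨blk H G w, blk H G w', _, hwin, hwin', hlt, ?_⟩
      have s1 := sum_blk hL hg
      have s2 := sum_blk hL hg'
      rw [hu'] at s2
      rw [← hu] at s1
      have e1 := sum_av_shift hcell (mem_Icc.2 hwd.1.1) (u / Q - 1) (blk H G w)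
        (blk_fst H G w) hwin.card
      have e2 := sum_av_shift hcell (mem_Icc.2 hwd'.1.1) (u / Q - 1) (blk H G w')
        (blk_fst H G w') hwin'.card
      rw [hdec] at e1 e2
      omega
  · intro w hw w₂ hw₂ he
    have hg := (mem_filter.1 (mem_coe.1 hw)).1
    have hg₂ := (mem_filter.1 (mem_coe.1 hw₂)).1
    have hwd := mem_filter.1 (mem_filter.1 hg).1
    rw [mem_product, mem_Icc] at hwd
    simp only [Sigma.mk.injEq, heq_eq_eq, Prod.mk.injEq] at he
    obtain ⟨⟨he1, he2⟩, he3, he4⟩ := he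
    have hX := (mem_filter.1 hg).2.1
    have hX₂ := (mem_filter.1 hg₂).2.1
    have key : ∀ w : ℕ × ℕ, N ^ 2 * 2 ^ (N / 2) ≤ S w.1 w.2 → 1 ≤ S w.1 w.2 / H / Q := by
      intro w hX
      rw [Nat.div_div_eq_div_mul, Nat.le_div_iff_mul_le (Nat.mul_pos hH0 hQ0), one_mul]
      exact hL.hHQ.trans hX
    have k1 := key w hX
    have k2 := key w₂ hX₂
    have hueq : S w.1 w.2 / H = S w₂.1 w₂.2 / H := by
      rw [← Nat.div_add_mod (S w.1 w.2 / H) Q, ← Nat.div_add_mod (S w₂.1 w₂.2 / H) Q]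
      have : S w.1 w.2 / H / Q = S w₂.1 w₂.2 / H / Q := by omega
      rw [this]
      omega
    have a1 := av_off hL hg (show w.1 - 1 < w.1 by have := hwd.1.1.1; omega)
    have a2 := av_off hL hg₂ (show w₂.1 - 1 < w₂.1 by have := hwd.1.1.1; omega)
    rw [← hueq] at a2 he4
    rw [← he3] at a2 he4
    rw [he4] at a1
    rw [a1] at a2
    have a3 := P_strictMono.injective a2
    refine Prod.ext he3 ?_
    omega

open scoped Classical in
theorem first_moment {N C₁ H G Q M W V D : ℕ} (h : FullHyp N C₁ H G Q M W V D) :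
    ∑ u₀ ∈ Ico Q (2 * Q), ∑ v ∈ range V, #(cfg H G M W N (Q * v + u₀)) ≤
      (D + 2) * ∑ l ∈ Icc 1 M, #{q ∈ range (2 ^ (N + 1) / l + 1) | q.Prime} := by
  classical
  have hL := h.toLinkHyp
  have hH0 : 0 < H := by have := h.hH; omega
  have hQ0 : 0 < Q := by have := h.hQ; omega
  rw [← sum_product' (f := fun u₀ v => #(cfg H G M W N (Q * v + u₀))), ← card_sigma]
  have e : (D + 2) * ∑ l ∈ Icc 1 M, #{q ∈ range (2 ^ (N + 1) / l + 1) | q.Prime} =
      #((Icc 1 M).sigma fun l => {q ∈ range (2 ^ (N + 1) / l + 1) | q.Prime} ×ˢ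
        range (D + 2)) := by
    rw [card_sigma, mul_sum]
    apply sum_congr rfl
    intro l _
    rw [card_product, card_range]
    ring
  rw [e]
  -- basic facts
  have facts : ∀ x : (_ : ℕ × ℕ) × (ℕ × ℕ),
      x ∈ (Ico Q (2 * Q) ×ˢ range V).sigma (fun x => cfg H G M W N (Q * x.2 + x.1)) →
      x.2.1 ∈ Icc 1 M ∧ x.2.1 * av H G (Q * x.1.2 + x.1.1) x.2 ≤
        H * (Q * x.1.2 + x.1.1) + H + x.2.1 * (G + 1) ∧
      H * (Q * x.1.2 + x.1.1) < x.2.1 * av H G (Q * x.1.2 + x.1.1) x.2 + x.2.1 * (G + 1) ∧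
      (av H G (Q * x.1.2 + x.1.1) x.2).Prime ∧ Q * x.1.2 + x.1.1 < Q * V + Q ∧
      G ≤ H * (Q * x.1.2 + x.1.1) / x.2.1 := by
    intro x hx
    rw [mem_sigma, mem_product, mem_Ico, mem_range] at hx
    obtain ⟨⟨⟨hx1, hx2⟩, hx3⟩, hx4⟩ := hx
    unfold cfg at hx4
    rw [mem_filter, mem_product] at hx4
    obtain ⟨⟨hx5, _⟩, hx6, hx7, _⟩ := hx4
    set u := Q * x.1.2 + x.1.1 with hu
    have huQ : Q ≤ u := by omega
    have hl := mem_Icc.1 hx5
    have hGu : G ≤ H * u / x.2.1 :=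
      (hL.hGQ _ hx5).trans (Nat.div_le_div_right (Nat.mul_le_mul_left _ huQ))
    have hl0 : 0 < x.2.1 := by omega
    refine ⟨hx5, ?_, ?_, hx7, ?_, hGu⟩
    · have e1 : av H G u x.2 ≤ H * u / x.2.1 + H / x.2.1 + G + 1 := by
        unfold av
        omega
      calc x.2.1 * av H G u x.2 ≤ x.2.1 * (H * u / x.2.1 + H / x.2.1 + G + 1) :=
            Nat.mul_le_mul_left _ e1
        _ = x.2.1 * (H * u / x.2.1) + x.2.1 * (H / x.2.1) + x.2.1 * (G + 1) := by ring
        _ ≤ H * u + H + x.2.1 * (G + 1) := by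
            apply Nat.add_le_add_right
            exact add_le_add (Nat.mul_div_le _ _) (Nat.mul_div_le _ _)
    · have e1 : H * u / x.2.1 + 1 ≤ av H G u x.2 + (G + 1) := by
        unfold av
        omega
      calc H * u < x.2.1 * (H * u / x.2.1 + 1) := Nat.lt_mul_div_succ _ hl0
        _ ≤ x.2.1 * (av H G u x.2 + (G + 1)) := Nat.mul_le_mul_left _ e1
        _ = _ := by ring
    · have e1 : Q * x.1.2 + Q ≤ Q * V := by
        calc Q * x.1.2 + Q = Q * (x.1.2 + 1) := by ring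
          _ ≤ Q * V := Nat.mul_le_mul_left _ hx3
      omega
  apply card_le_card_of_injOn (fun x : (_ : ℕ × ℕ) × (ℕ × ℕ) =>
    (⟨x.2.1, (av H G (Q * x.1.2 + x.1.1) x.2, (Q * x.1.2 + x.1.1) -
      (x.2.1 * av H G (Q * x.1.2 + x.1.1) x.2 - (H + x.2.1 * (G + 1))) / H)⟩ :
        (_ : ℕ) × (ℕ × ℕ)))
  · intro x hx
    obtain ⟨f1, f2, f3, f4, f5, f6⟩ := facts x (mem_coe.1 hx)
    set u := Q * x.1.2 + x.1.1 with hu
    set q := av H G u x.2 with hq
    have hl := mem_Icc.1 f1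
    simp only [coe_sigma, Set.mem_sigma_iff, mem_coe, mem_product, mem_filter, mem_range]
    refine ⟨f1, ⟨?_, f4⟩, ?_⟩
    · have e1 : H * u ≤ H * Q * V + H * Q := by
        calc H * u ≤ H * (Q * V + Q) := Nat.mul_le_mul_left _ f5.le
          _ = _ := by ring
      have e2 : x.2.1 * (G + 1) ≤ M * (G + 1) := Nat.mul_le_mul_right _ hl.2
      have e3 := h.hVle
      have e4 := h.hbig
      have e5 : x.2.1 * q ≤ 2 ^ (N + 1) := by
        rw [pow_succ]
        omega
      rw [Nat.lt_succ_iff, Nat.le_div_iff_mul_le (by omega), mul_comm]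
      exact e5
    · set a := x.2.1 * q - (H + x.2.1 * (G + 1)) with ha
      have e2 : 2 * (x.2.1 * (G + 1)) ≤ 2 * M * (G + 1) := by
        rw [mul_assoc]
        exact Nat.mul_le_mul_left _ (Nat.mul_le_mul_right _ hl.2)
      have e3 := h.hD
      have e4 : H * u < a + (D + 1) * H := by
        have e5 : (D + 1) * H = D * H + H := by ring
        rw [e5]
        omega
      have e6 : a < H * (a / H) + H := by
        have := Nat.mod_lt a hH0
        have h2 := Nat.div_add_mod a H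
        omega
      have e7 : H * u < H * (a / H + (D + 2)) := by
        calc H * u < a + (D + 1) * H := e4
          _ ≤ H * (a / H) + H + (D + 1) * H := by omega
          _ = _ := by ring
      have e8 := Nat.lt_of_mul_lt_mul_left e7
      omega
  · intro x hx y hy he
    obtain ⟨f1, f2, f3, f4, f5, f6⟩ := facts x (mem_coe.1 hx)
    obtain ⟨g1, g2, g3, g4, g5, g6⟩ := facts y (mem_coe.1 hy)
    have hx' := mem_sigma.1 (mem_coe.1 hx)
    have hy' := mem_sigma.1 (mem_coe.1 hy)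
    rw [mem_product, mem_Ico, mem_range] at hx' hy'
    simp only [Sigma.mk.injEq, heq_eq_eq, Prod.mk.injEq] at he
    obtain ⟨he1, he2, he3⟩ := he
    have hux : ∀ u q l : ℕ, l * q ≤ H * u + H + l * (G + 1) →
        (l * q - (H + l * (G + 1))) / H ≤ u := by
      intro u q l hh
      apply Nat.div_le_of_le_mul
      omega
    have b1 := hux _ _ _ f2
    have b2 := hux _ _ _ g2
    rw [he2, he1] at he3
    rw [he2, he1] at b1
    have hu : Q * x.1.2 + x.1.1 = Q * y.1.2 + y.1.1 := by omega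
    have hv : x.1.2 = y.1.2 := by
      have c1 : (Q * x.1.2 + x.1.1) / Q = x.1.2 + 1 := by
        rw [Nat.mul_add_div hQ0]
        congr 1
        apply Nat.div_eq_of_lt_le <;> omega
      have c2 : (Q * y.1.2 + y.1.1) / Q = y.1.2 + 1 := by
        rw [Nat.mul_add_div hQ0]
        congr 1
        apply Nat.div_eq_of_lt_le <;> omega
      rw [hu] at c1
      omega
    have hu0 : x.1.1 = y.1.1 := by
      rw [hv] at hu
      omega
    have hs2 : x.2.2 = y.2.2 := by
      rw [← hu] at he2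
      unfold av at he2
      rw [he1] at he2
      omega
    obtain ⟨⟨x1, x2⟩, ⟨x3, x4⟩⟩ := x
    obtain ⟨⟨y1, y2⟩, ⟨y3, y4⟩⟩ := y
    simp only at hv hu0 he1 hs2
    subst hv hu0 he1 hs2
    rfl

end Pool.Agent.helper306_moser
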