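import Pool.Agent.helper306_moser.FinalA

/-!
Almost all sums of few consecutive primes are distinct.
-/

open Finset

namespace Pool.Agent.helper306_moser

/-- Blocks lost by the two restrictions, for an arbitrary family of blocks. -/
lemma loss (N C₁ m : ℕ) (hC : 1 ≤ C₁) (hN : 1 ≤ N) (T : Finset (ℕ × ℕ)) (hT : T ⊆ Wd N m) :
    (#T : ℝ) ≤ #(T ∩ Gd N C₁ m) +
      m * (N ^ 2 * 2 ^ (N / 2)) + 1 / C₁ * (2 ^ N / N) * (1 + Real.log m) := by
  classical
  set Sm : Finset (ℕ × ℕ) := Icc 1 m ×ˢ range (N ^ 2 * 2 ^ (N / 2)) with hSm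
  set Bd : ℕ → Finset ℕ := fun l =>
    {i ∈ range (2 ^ N) | S l i < 2 ^ N ∧ ¬ P (i + l - 1) ≤ P i + C₁ * l * N} with hBd
  have hsub : T ⊆ ((T ∩ Gd N C₁ m) ∪ Sm) ∪
      ((Icc 1 m).sigma Bd).image (fun x => (x.1, x.2)) := by
    intro w hwT
    have hw := hT hwT
    have hwd := hw
    unfold Wd at hw
    rw [mem_filter, mem_product] at hw
    obtain ⟨⟨h1, h2⟩, h3⟩ := hw
    rw [mem_union, mem_union]
    by_cases h5 : N ^ 2 * 2 ^ (N / 2) ≤ S w.1 w.2
    · by_cases h6 : P (w.2 + w.1 - 1) ≤ P w.2 + C₁ * w.1 * N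
      · left; left
        rw [mem_inter]
        refine ⟨hwT, ?_⟩
        unfold Gd
        rw [mem_filter]
        exact ⟨hwd, h5, h6⟩
      · right
        rw [mem_image]
        refine ⟨⟨w.1, w.2⟩, ?_, rfl⟩
        rw [mem_sigma]
        refine ⟨h1, ?_⟩
        rw [hBd]
        simp only
        rw [mem_filter]
        exact ⟨h2, h3, h6⟩
    · left; right
      rw [hSm, mem_product, mem_range]
      refine ⟨h1, ?_⟩
      have h7 : P w.2 ≤ S w.1 w.2 := by
        calc P w.2 = 1 * P w.2 := (one_mul _).symm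
          _ ≤ w.1 * P w.2 := Nat.mul_le_mul_right _ (mem_Icc.1 h1).1
          _ ≤ _ := mul_P_le_S _ _
      have := lt_P w.2
      omega
  have hcard := card_le_card hsub
  have hc1 := card_union_le ((T ∩ Gd N C₁ m) ∪ Sm)
    (((Icc 1 m).sigma Bd).image (fun x => (x.1, x.2)))
  have hc2 := card_union_le (T ∩ Gd N C₁ m) Sm
  have hc3 : #(((Icc 1 m).sigma Bd).image (fun x => (x.1, x.2))) ≤ ∑ l ∈ Icc 1 m, #(Bd l) := by
    rw [← card_sigma]
    exact card_image_le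
  have hc4 : #Sm = m * (N ^ 2 * 2 ^ (N / 2)) := by
    rw [hSm, card_product, Nat.card_Icc, card_range, Nat.add_sub_cancel]
  have htot : #T ≤ #(T ∩ Gd N C₁ m) +
      m * (N ^ 2 * 2 ^ (N / 2)) + ∑ l ∈ Icc 1 m, #(Bd l) := by omega
  have htot' : (#T : ℝ) ≤ #(T ∩ Gd N C₁ m) +
      m * (N ^ 2 * 2 ^ (N / 2)) + ∑ l ∈ Icc 1 m, (#(Bd l) : ℝ) := by exact_mod_cast htot
  refine htot'.trans ?_
  apply add_le_add le_rfl
  have hCr : (0 : ℝ) < C₁ := by exact_mod_cast hC
  have hNr : (0 : ℝ) < N := by exact_mod_cast hN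
  have h1 : ∀ l ∈ Icc 1 m, (#(Bd l) : ℝ) ≤ 1 / C₁ * (2 ^ N / N) * (1 / l) := by
    intro l hl
    have hl1 := (mem_Icc.1 hl).1
    have hlr : (0 : ℝ) < l := by exact_mod_cast hl1
    have h2 := span_bad N C₁ l hl1
    have h3 : (#(Bd l) : ℝ) * (C₁ * l * N) ≤ 2 ^ N := by exact_mod_cast h2
    have e : 1 / C₁ * (2 ^ N / N) * (1 / (l : ℝ)) = 2 ^ N / (C₁ * l * N) := by
      field_simp
    rw [e, le_div_iff₀ (by positivity)]
    exact h3
  calc ∑ l ∈ Icc 1 m, (#(Bd l) : ℝ) ≤ ∑ l ∈ Icc 1 m, 1 / C₁ * (2 ^ N / N) * (1 / (l : ℝ)) :=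
        sum_le_sum h1
    _ = 1 / C₁ * (2 ^ N / N) * ∑ l ∈ Icc 1 m, (1 / (l : ℝ)) := by rw [mul_sum]
    _ ≤ _ := mul_le_mul_of_nonneg_left (sum_inv_le m) (by positivity)

/-- All blocks with at most `m` terms and sum at most `x`. -/
noncomputable def Bx (x m : ℕ) : Finset (ℕ × ℕ) :=
  {w ∈ Icc 1 m ×ˢ range (x + 1) | S w.1 w.2 ≤ x}

lemma small_term (c : ℝ) (hc : 0 < c) : ∃ N₂ : ℕ, ∀ N m : ℕ, N₂ ≤ N → m ≤ N →
    (m : ℝ) * (N ^ 2 * 2 ^ (N / 2)) ≤ c * (2 ^ N / N) := by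
  have htend : Filter.Tendsto (fun n : ℕ => (n : ℝ) ^ 4 / (2 : ℝ) ^ n) Filter.atTop (nhds 0) :=
    tendsto_pow_const_div_const_pow_of_one_lt 4 (by norm_num)
  obtain ⟨N₂, hN₂⟩ := Filter.eventually_atTop.1 (htend.eventually (gt_mem_nhds
    (show (0 : ℝ) < c / 81 by positivity)))
  refine ⟨2 * N₂ + 2, fun N m hN hmN => ?_⟩
  have hNr : (0 : ℝ) < N := by
    have : 0 < N := by omega
    exact_mod_cast this
  set n := N / 2 with hn
  have h10 := hN₂ n (by omega)
  have h11 : (0 : ℝ) < 2 ^ n := by positivity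
  rw [div_lt_iff₀ h11] at h10
  have h12 : (N : ℝ) ≤ 2 * n + 1 := by
    have : N ≤ 2 * n + 1 := by omega
    exact_mod_cast this
  have h13 : (1 : ℝ) ≤ n := by
    have : 1 ≤ n := by omega
    exact_mod_cast this
  have h14 : (N : ℝ) ^ 4 ≤ c * 2 ^ n := by
    have h15 : (N : ℝ) ^ 4 ≤ (3 * n) ^ 4 := pow_le_pow_left₀ (by positivity) (by linarith) 4
    have h16 : (3 * (n : ℝ)) ^ 4 = 81 * (n : ℝ) ^ 4 := by ring
    linarith
  have h18 : (2 : ℝ) ^ n * 2 ^ n ≤ 2 ^ N := by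
    rw [← pow_add]
    exact pow_le_pow_right₀ (by norm_num) (by omega)
  have h19 : (m : ℝ) ≤ N := by exact_mod_cast hmN
  have h20 : (m : ℝ) * (N ^ 2 * 2 ^ n) * N ≤ c * 2 ^ N := by
    calc (m : ℝ) * (N ^ 2 * 2 ^ n) * N ≤ N * (N ^ 2 * 2 ^ n) * N := by
          apply mul_le_mul_of_nonneg_right _ hNr.le
          exact mul_le_mul_of_nonneg_right h19 (by positivity)
      _ = (N : ℝ) ^ 4 * 2 ^ n := by ring
      _ ≤ c * 2 ^ n * 2 ^ n := mul_le_mul_of_nonneg_right h14 h11.le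
      _ = c * (2 ^ n * 2 ^ n) := by ring
      _ ≤ c * 2 ^ N := mul_le_mul_of_nonneg_left h18 (by positivity)
  rw [← mul_div_assoc, le_div_iff₀ hNr]
  exact h20

/-- The number of terms used. -/
noncomputable def mm (δ : ℝ) (x : ℕ) : ℕ := ⌊Real.log x ^ δ⌋₊

lemma mm_facts {δ : ℝ} (hδ : 0 < δ) (A K M₀ : ℕ) (hδA : δ * A ≤ 1) : ∃ x₀ : ℕ,
    ∀ x : ℕ, x₀ ≤ x → mm δ x ^ A ≤ Nat.log 2 x + 1 ∧ K * Lam (Nat.log 2 x + 1) ≤ mm δ x ∧
      M₀ ≤ mm δ x := by
  obtain ⟨A', hA'⟩ := exists_nat_ge (2 / δ)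
  obtain ⟨N₁, hN₁⟩ := lam_small (A' + 1) (K + M₀ + 2)
  refine ⟨2 ^ (N₁ + 10), fun x hx => ?_⟩
  have hx0 : x ≠ 0 := by
    have : 0 < 2 ^ (N₁ + 10) := by positivity
    omega
  set N := Nat.log 2 x with hN
  have hNN : N₁ + 10 ≤ N := Nat.le_log_of_pow_le (by norm_num) hx
  have h2N : 2 ^ N ≤ x := Nat.pow_log_le_self 2 hx0
  have h2N' : x < 2 ^ (N + 1) := Nat.lt_pow_succ_log_self (by norm_num) x
  have h2Nr : ((2 : ℝ) ^ N) ≤ x := by exact_mod_cast h2N
  have hlog2 := Real.log_two_gt_d9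
  have hlog2' := Real.log_two_lt_d9
  have hN10 : (10 : ℝ) ≤ N := by
    have : 10 ≤ N := by omega
    exact_mod_cast this
  have hlogx1 : N * Real.log 2 ≤ Real.log x := by
    have := Real.log_le_log (by positivity) h2Nr
    rwa [Real.log_pow] at this
  have hx1 : (1 : ℝ) < x := by
    refine lt_of_lt_of_le ?_ h2Nr
    exact one_lt_pow₀ (by norm_num) (by omega)
  have hlogx2 : Real.log x ≤ N := by
    have h3 : (x : ℝ) ≤ 2 ^ (N + 1) := by exact_mod_cast h2N'.le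
    have := Real.log_le_log (by linarith) h3
    rw [Real.log_pow] at this
    push_cast at this
    nlinarith
  have hlogx5 : 5 ≤ Real.log x := by nlinarith
  have hl0 : 0 < Real.log x := by linarith
  -- upper bound
  have hup : mm δ x ^ A ≤ N + 1 := by
    have h1 : (mm δ x : ℝ) ≤ Real.log x ^ δ := Nat.floor_le (by positivity)
    have h2 : (mm δ x : ℝ) ^ A ≤ N + 1 := by
      calc (mm δ x : ℝ) ^ A ≤ (Real.log x ^ δ) ^ A :=
            pow_le_pow_left₀ (Nat.cast_nonneg _) h1 A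
        _ = Real.log x ^ (δ * A) := by rw [Real.rpow_mul hl0.le, Real.rpow_natCast]
        _ ≤ Real.log x ^ (1 : ℝ) := Real.rpow_le_rpow_of_exponent_le (by linarith) hδA
        _ = Real.log x := Real.rpow_one _
        _ ≤ N + 1 := by linarith
    exact_mod_cast h2
  -- lower bound
  have hlow : (K + M₀ + 1) * Lam (N + 1) ≤ mm δ x := by
    have h1 := hN₁ (N + 1) (by omega)
    have hLp := Lam_pos (N + 1)
    set T := (K + M₀ + 2) * Lam (N + 1) with hT
    have hTpos : 1 ≤ T := Nat.mul_pos (by omega) hLp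
    have h2 : (T : ℝ) ≤ Real.log x ^ δ := by
      have h3 : ((T : ℝ)) ^ (A' + 1) ≤ (Real.log x) ^ 2 := by
        have h4 : ((T : ℝ)) ^ (A' + 1) ≤ ((N + 1 : ℕ) : ℝ) := by exact_mod_cast h1
        refine h4.trans ?_
        push_cast
        have h5 : (N : ℝ) ≤ 2 * Real.log x := by nlinarith
        nlinarith
      have h6 : (T : ℝ) ^ (2 / δ) ≤ (Real.log x) ^ 2 := by
        refine le_trans ?_ h3
        rw [← Real.rpow_natCast (T : ℝ) (A' + 1)]
        apply Real.rpow_le_rpow_of_exponent_le (by exact_mod_cast hTpos)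
        push_cast
        linarith
      have h7 : ((T : ℝ) ^ (2 / δ)) ^ (δ / 2) ≤ ((Real.log x) ^ 2) ^ (δ / 2) :=
        Real.rpow_le_rpow (by positivity) h6 (by positivity)
      rw [← Real.rpow_mul (Nat.cast_nonneg _)] at h7
      have e1 : 2 / δ * (δ / 2) = 1 := by field_simp
      rw [e1, Real.rpow_one] at h7
      refine h7.trans (le_of_eq ?_)
      rw [← Real.rpow_natCast (Real.log x) 2, ← Real.rpow_mul hl0.le]
      congr 1
      push_cast
      ring
    have h8 : T ≤ mm δ x := Nat.le_floor h2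
    refine le_trans ?_ h8
    rw [hT]
    apply Nat.mul_le_mul_right
    omega
  have hLp := Lam_pos (N + 1)
  refine ⟨hup, ?_, ?_⟩
  · exact le_trans (Nat.mul_le_mul_right _ (by omega)) hlow
  · have h9 : K + M₀ + 1 ≤ (K + M₀ + 1) * Lam (N + 1) := Nat.le_mul_of_pos_right _ hLp
    omega

theorem distinct_blocks (ε : ℝ) (hε : 0 < ε) : ∃ δ₀ : ℝ, 0 < δ₀ ∧ ∀ δ : ℝ, 0 < δ → δ ≤ δ₀ →
    ∃ x₀ : ℕ, ∀ x : ℕ, x₀ ≤ x →
      (#(Bx x (mm δ x)) : ℝ) ≤ #((Bx x (mm δ x)).image (fun w => S w.1 w.2)) +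
        ε * #(Bx x (mm δ x)) := by
  classical
  obtain ⟨c, hc, M₀, x₁, hmany⟩ := many_blocks 1 0 le_rfl (star 1 1 le_rfl le_rfl)
  set ε' := ε * c with hε'
  have hε'0 : 0 < ε' := by positivity
  obtain ⟨C₁, hC₁⟩ := exists_nat_ge (12 / ε')
  have hC₁0 : (0 : ℝ) < C₁ := lt_of_lt_of_le (by positivity) hC₁
  have hC₁1 : 1 ≤ C₁ := by exact_mod_cast hC₁0
  obtain ⟨A, K, N₁, hK, hA, hrep⟩ := rep_bound C₁ (ε' / 6) (by positivity)
  obtain ⟨N₂, hN₂⟩ := small_term (ε' / 6) (by positivity)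
  have hAr : (0 : ℝ) < A := by
    have : 0 < A := by omega
    exact_mod_cast this
  refine ⟨1 / A, by positivity, fun δ hδ hδ' => ?_⟩
  have hδA : δ * A ≤ 1 := by
    rw [le_div_iff₀ hAr] at hδ'
    exact hδ'
  obtain ⟨x₂, hx₂⟩ := mm_facts hδ A K (M₀ + 3) hδA
  refine ⟨max (max x₁ x₂) (2 ^ (N₁ + N₂ + 10)), fun x hx => ?_⟩
  have hxx1 : x₁ ≤ x := (le_max_left _ _).trans ((le_max_left _ _).trans hx)
  have hxx2 : x₂ ≤ x := (le_max_right _ _).trans ((le_max_left _ _).trans hx)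
  have hxx3 : 2 ^ (N₁ + N₂ + 10) ≤ x := (le_max_right _ _).trans hx
  obtain ⟨hmA, hKm, hM₀m⟩ := hx₂ x hxx2
  set m := mm δ x with hm
  have hx0 : x ≠ 0 := by
    have : 0 < 2 ^ (N₁ + N₂ + 10) := by positivity
    omega
  set N := Nat.log 2 x + 1 with hN
  have hNN : N₁ + N₂ + 10 ≤ N := by
    have := Nat.le_log_of_pow_le (by norm_num) hxx3
    omega
  have h2N : 2 ^ (Nat.log 2 x) ≤ x := Nat.pow_log_le_self 2 hx0
  have h2N' : x < 2 ^ N := Nat.lt_pow_succ_log_self (by norm_num) x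
  have hm3 : 3 ≤ m := by omega
  have hmr : (3 : ℝ) ≤ m := by exact_mod_cast hm3
  have hlogm : 1 ≤ Real.log m := by
    have h1 : Real.exp 1 ≤ m := by
      have := Real.exp_one_lt_d9
      linarith
    rw [← Real.log_exp 1]
    exact Real.log_le_log (Real.exp_pos 1) h1
  have hmN : m ≤ N := by
    refine le_trans ?_ hmA
    calc m = m ^ 1 := (pow_one _).symm
      _ ≤ m ^ A := Nat.pow_le_pow_right (by omega) (by omega)
  -- the blocks
  set T := Bx x m with hT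
  have hTW : T ⊆ Wd N m := by
    intro w hw
    rw [hT] at hw
    unfold Bx at hw
    rw [mem_filter, mem_product, mem_range] at hw
    unfold Wd
    rw [mem_filter, mem_product, mem_range]
    exact ⟨⟨hw.1.1, by omega⟩, by omega⟩
  have hloss := loss N C₁ m hC₁1 (by omega) T hTW
  have himg := card_le_image N C₁ m (T ∩ Gd N C₁ m) inter_subset_right
  have himg2 : #((T ∩ Gd N C₁ m).image (fun w => S w.1 w.2)) ≤
      #(T.image (fun w => S w.1 w.2)) := card_le_card (image_subset_image inter_subset_left)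
  have hR := hrep N (by omega) m hmA hKm
  have hsm := hN₂ N m (by omega) hmN
  have himg' : (#(T ∩ Gd N C₁ m) : ℝ) ≤ #(T.image (fun w => S w.1 w.2)) + #(Rp N C₁ m) := by
    have : #(T ∩ Gd N C₁ m) ≤ #(T.image (fun w => S w.1 w.2)) + #(Rp N C₁ m) := by omega
    exact_mod_cast this
  -- the total number of blocks
  have hm4 : m ^ 4 ≤ x := by
    have h1 : m ^ 4 ≤ N := by
      refine le_trans ?_ hmA
      exact Nat.pow_le_pow_right (by omega) (by omega)
    have h2 : N ≤ 2 ^ (Nat.log 2 x) := by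
      rw [hN]
      exact Nat.lt_two_pow_self
    omega
  have hlow := hmany x hxx1 m (by omega) hm4
  have hsub : Bl 1 0 x m ⊆ T := by
    intro w hw
    unfold Bl at hw
    rw [mem_filter, mem_product, mem_range] at hw
    rw [hT]
    unfold Bx
    rw [mem_filter, mem_product, mem_range]
    exact ⟨⟨hw.1.1, by omega⟩, by omega⟩
  have hlow' : c * (x / Real.log x * Real.log m) ≤ #T := by
    refine hlow.trans ?_
    exact_mod_cast card_le_card hsub
  -- numerical comparison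
  have hNr : (10 : ℝ) ≤ N := by
    have : 10 ≤ N := by omega
    exact_mod_cast this
  have hN0 : (0 : ℝ) < N := by linarith
  have h2x : (2 : ℝ) ^ N ≤ 2 * x := by
    have : 2 ^ N ≤ 2 * x := by
      rw [hN, pow_succ]
      omega
    exact_mod_cast this
  have hx1 : (1 : ℝ) < x := by
    have h2 : (2 : ℝ) ^ 10 ≤ 2 ^ N := pow_le_pow_right₀ (by norm_num) (by omega)
    norm_num at h2
    linarith
  have hlogx : 0 < Real.log x := Real.log_pos hx1
  have hlogN : Real.log x ≤ N := by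
    have h3 : (x : ℝ) ≤ 2 ^ N := by exact_mod_cast h2N'.le
    have := Real.log_le_log (by linarith) h3
    rw [Real.log_pow] at this
    have := Real.log_two_lt_d9
    nlinarith
  have hX : (2 : ℝ) ^ N / N ≤ 2 * (x / Real.log x) := by
    rw [← mul_div_assoc]
    exact div_le_div₀ (by linarith) h2x hlogx hlogN
  have hX0 : (0 : ℝ) < 2 ^ N / N := by positivity
  set Y := (2 : ℝ) ^ N / N * Real.log m with hY
  have hY0 : 0 < Y := by positivity
  have hYT : ε' * Y ≤ 2 * (ε * #T) := by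
    calc ε' * Y = ε * (c * ((2 : ℝ) ^ N / N * Real.log m)) := by rw [hε', hY]; ring
      _ ≤ ε * (c * (2 * (x / Real.log x) * Real.log m)) := by
          apply mul_le_mul_of_nonneg_left _ hε.le
          apply mul_le_mul_of_nonneg_left _ hc.le
          exact mul_le_mul_of_nonneg_right hX (by linarith)
      _ = 2 * (ε * (c * (x / Real.log x * Real.log m))) := by ring
      _ ≤ 2 * (ε * #T) := by
          apply mul_le_mul_of_nonneg_left _ (by norm_num)
          exact mul_le_mul_of_nonneg_left hlow' hε.le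
  have e1 : (#(Rp N C₁ m) : ℝ) ≤ ε' / 6 * Y := by
    refine hR.trans (le_of_eq ?_)
    rw [hY]
    ring
  have e2 : (m : ℝ) * (N ^ 2 * 2 ^ (N / 2)) ≤ ε' / 6 * Y := by
    refine hsm.trans ?_
    apply mul_le_mul_of_nonneg_left _ (by positivity)
    rw [hY]
    nlinarith
  have e3 : 1 / C₁ * (2 ^ N / N) * (1 + Real.log m) ≤ ε' / 6 * Y := by
    have h9 : 1 / (C₁ : ℝ) ≤ ε' / 12 := by
      rw [div_le_iff₀ hC₁0]
      rw [div_le_iff₀ hε'0] at hC₁
      linarith
    calc 1 / C₁ * (2 ^ N / N) * (1 + Real.log m) ≤ ε' / 12 * (2 ^ N / N) * (2 * Real.log m) := by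
          apply mul_le_mul _ (by linarith) (by linarith) (by positivity)
          exact mul_le_mul_of_nonneg_right h9 hX0.le
      _ = _ := by rw [hY]; ring
  linarith

end Pool.Agent.helper306_moser
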