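import Mathlib

/-!
Counting finite sets by the number of their elements that are determined by smaller elements.
-/

open Finset

namespace Pool.Agent.helper306_moser

open scoped Classical in
/-- The number of elements of `Θ` marked by `rp`. -/
noncomputable def reps {α : Type} (rp : Finset α → α → Prop) (Θ : Finset α) : ℕ :=
  #{s ∈ Θ | rp Θ s}

open scoped Classical in
lemma sum_succ_le {α : Type} [Nonempty α] [DecidableEq α] (key : α → ℕ) (Box : Finset α)
    (hkey : Set.InjOn key (Box : Set α)) (k : ℕ) (g : Finset α → ℝ) (hg : ∀ Θ, 0 ≤ g Θ) :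
    ∑ Θ ∈ powersetCard (k + 1) Box, g Θ ≤
      ∑ T ∈ powersetCard k Box, ∑ s ∈ Box with ∀ t ∈ T, key t < key s, g (insert s T) := by
  classical
  -- choose the largest element
  have hmax : ∀ Θ ∈ powersetCard (k + 1) Box, ∃ s ∈ Θ, ∀ t ∈ Θ, key t ≤ key s := by
    intro Θ hΘ
    rw [mem_powersetCard] at hΘ
    have hne : Θ.Nonempty := by
      rw [← card_pos]
      omega
    exact exists_max_image Θ key hne
  choose! mx hmx hle using hmax
  have h0 : ∀ Θ ∈ powersetCard (k + 1) Box, insert (mx Θ) (Θ.erase (mx Θ)) = Θ := by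
    intro Θ hΘ
    exact insert_erase (hmx Θ hΘ)
  have h1 : ∑ Θ ∈ powersetCard (k + 1) Box, g Θ =
      ∑ Θ ∈ powersetCard (k + 1) Box,
        (fun x : (_ : Finset α) × α => g (insert x.2 x.1)) ⟨Θ.erase (mx Θ), mx Θ⟩ := by
    apply sum_congr rfl
    intro Θ hΘ
    simp only
    rw [h0 Θ hΘ]
  rw [h1, sum_sigma']
  have hinj : Set.InjOn (fun Θ : Finset α => (⟨Θ.erase (mx Θ), mx Θ⟩ : (_ : Finset α) × α))
      (powersetCard (k + 1) Box : Set (Finset α)) := by
    intro Θ hΘ Θ' hΘ' h
    have hΘ := mem_coe.1 hΘ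
    have hΘ' := mem_coe.1 hΘ'
    simp only [Sigma.mk.injEq, heq_eq_eq] at h
    rw [← h0 Θ hΘ, ← h0 Θ' hΘ', h.1, h.2]
  rw [← sum_image (f := fun x : (_ : Finset α) × α => g (insert x.2 x.1)) hinj]
  apply sum_le_sum_of_subset_of_nonneg
  · intro x hx
    rw [mem_image] at hx
    obtain ⟨Θ, hΘ, rfl⟩ := hx
    have hΘ' := mem_powersetCard.1 hΘ
    have hm := hmx Θ hΘ
    rw [mem_sigma]
    refine ⟨?_, ?_⟩
    · rw [mem_powersetCard]
      refine ⟨(erase_subset _ _).trans hΘ'.1, ?_⟩
      rw [card_erase_of_mem hm]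
      omega
    · rw [mem_filter]
      refine ⟨hΘ'.1 hm, ?_⟩
      intro t ht
      have ht' := mem_erase.1 ht
      have h2 := hle Θ hΘ t ht'.2
      refine lt_of_le_of_ne h2 ?_
      intro he
      exact ht'.1 (hkey (hΘ'.1 ht'.2) (hΘ'.1 hm) he)
  · intro x _ _
    exact hg _

open scoped Classical in
/-- The weighted count of subsets of size `k` of a box. -/
theorem encode_bound {α : Type} [Nonempty α] [DecidableEq α] (key : α → ℕ) (Box : Finset α)
    (hkey : Set.InjOn key (Box : Set α)) (rp : Finset α → α → Prop)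
    (h1 : ∀ T s, T ⊆ Box → s ∈ Box → (∀ t ∈ T, key t < key s) →
      ∀ t ∈ T, rp (insert s T) t → rp T t)
    (h2 : ∀ T, T ⊆ Box → #{s ∈ Box | (∀ t ∈ T, key t < key s) ∧ rp (insert s T) s} ≤ #T)
    (t : ℝ) (ht : 1 ≤ t) (k : ℕ) :
    ∑ Θ ∈ powersetCard k Box, t ^ reps rp Θ ≤ (#Box + k * t) ^ k := by
  classical
  have ht0 : 0 ≤ t := by linarith
  -- product form
  have key1 : ∀ j : ℕ, ∑ Θ ∈ powersetCard (j + 1) Box, t ^ reps rp Θ ≤
      (#Box + j * t) * ∑ Θ ∈ powersetCard j Box, t ^ reps rp Θ := by
    intro j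
    refine (sum_succ_le key Box hkey j (fun Θ => t ^ reps rp Θ)
      (fun Θ => by positivity)).trans ?_
    rw [mul_sum]
    apply sum_le_sum
    intro T hT
    have hT' := mem_powersetCard.1 hT
    -- bound on each extension
    have hext : ∀ s ∈ Box, (∀ t' ∈ T, key t' < key s) →
        t ^ reps rp (insert s T) ≤ t ^ reps rp T * (if rp (insert s T) s then t else 1) := by
      intro s hs hlt
      have hsT : s ∉ T := fun h => lt_irrefl _ (hlt s h)
      have hle : reps rp (insert s T) ≤ reps rp T + (if rp (insert s T) s then 1 else 0) := by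
        unfold reps
        rw [filter_insert]
        have hsub : {x ∈ T | rp (insert s T) x} ⊆ {x ∈ T | rp T x} := by
          intro x hx
          rw [mem_filter] at hx ⊢
          exact ⟨hx.1, h1 T s hT'.1 hs hlt x hx.1 hx.2⟩
        split_ifs with hr
        · refine (card_insert_le _ _).trans ?_
          exact Nat.add_le_add_right (card_le_card hsub) 1
        · simpa using card_le_card hsub
      calc t ^ reps rp (insert s T)
          ≤ t ^ (reps rp T + (if rp (insert s T) s then 1 else 0)) :=
            pow_le_pow_right₀ ht hle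
        _ = _ := by
            rw [pow_add]
            split_ifs <;> simp
    calc ∑ s ∈ Box with ∀ t' ∈ T, key t' < key s, t ^ reps rp (insert s T)
        ≤ ∑ s ∈ Box with ∀ t' ∈ T, key t' < key s,
            t ^ reps rp T * (if rp (insert s T) s then t else 1) := by
          apply sum_le_sum
          intro s hs
          rw [mem_filter] at hs
          exact hext s hs.1 hs.2
      _ = t ^ reps rp T * ∑ s ∈ Box with ∀ t' ∈ T, key t' < key s,
            (if rp (insert s T) s then t else 1) := by rw [mul_sum]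
      _ ≤ t ^ reps rp T * (#Box + j * t) := by
          apply mul_le_mul_of_nonneg_left _ (by positivity)
          have e1 : ∑ s ∈ Box with ∀ t' ∈ T, key t' < key s,
              (if rp (insert s T) s then t else 1) ≤
              ∑ s ∈ Box with ∀ t' ∈ T, key t' < key s,
              (1 + if rp (insert s T) s then t else 0) := by
            apply sum_le_sum
            intro s _
            split_ifs
            · linarith
            · linarith
          refine e1.trans ?_
          rw [sum_add_distrib]
          apply add_le_add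
          · simp only [sum_const, nsmul_eq_mul, mul_one]
            exact_mod_cast card_le_card (filter_subset _ _)
          · rw [← sum_filter, filter_filter]
            simp only [sum_const, nsmul_eq_mul]
            apply mul_le_mul_of_nonneg_right _ ht0
            have h3 := h2 T hT'.1
            rw [hT'.2] at h3
            exact_mod_cast h3
      _ = (#Box + j * t) * t ^ reps rp T := by ring
  -- iterate
  have hprod : ∀ j : ℕ, j ≤ k → ∑ Θ ∈ powersetCard j Box, t ^ reps rp Θ ≤
      (#Box + k * t) ^ j := by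
    intro j
    induction j with
    | zero =>
      intro _
      simp [reps]
    | succ j ih =>
      intro hj
      refine (key1 j).trans ?_
      rw [pow_succ, mul_comm]
      have hjk : (j : ℝ) ≤ k := by
        have : j ≤ k := by omega
        exact_mod_cast this
      apply mul_le_mul (ih (by omega))
      · have := mul_le_mul_of_nonneg_right hjk ht0
        linarith
      · positivity
      · positivity
  exact hprod k le_rfl

open scoped Classical in
/-- Few sets have many marked elements. -/
theorem heavy_bound {α : Type} [Nonempty α] [DecidableEq α] (key : α → ℕ) (Box : Finset α)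
    (hkey : Set.InjOn key (Box : Set α)) (rp : Finset α → α → Prop)
    (h1 : ∀ T s, T ⊆ Box → s ∈ Box → (∀ t ∈ T, key t < key s) →
      ∀ t ∈ T, rp (insert s T) t → rp T t)
    (h2 : ∀ T, T ⊆ Box → #{s ∈ Box | (∀ t ∈ T, key t < key s) ∧ rp (insert s T) s} ≤ #T)
    (s B k : ℕ) (hs : 1 ≤ s) (hk : k * s ^ B ≤ #Box) :
    (#{Θ ∈ powersetCard k Box | k ≤ B * reps rp Θ} : ℝ) ≤ (2 * #Box / s) ^ k := by
  classical
  have hs1 : (1 : ℝ) ≤ s := by exact_mod_cast hs
  have hs0 : (0 : ℝ) < s := by linarith
  have h3 := encode_bound key Box hkey rp h1 h2 ((s : ℝ) ^ B) (one_le_pow₀ hs1) k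
  have h4 : (#{Θ ∈ powersetCard k Box | k ≤ B * reps rp Θ} : ℝ) * (s : ℝ) ^ k ≤
      ∑ Θ ∈ powersetCard k Box, ((s : ℝ) ^ B) ^ reps rp Θ := by
    calc (#{Θ ∈ powersetCard k Box | k ≤ B * reps rp Θ} : ℝ) * (s : ℝ) ^ k
        = ∑ Θ ∈ powersetCard k Box with k ≤ B * reps rp Θ, (s : ℝ) ^ k := by
          rw [sum_const, nsmul_eq_mul]
      _ ≤ ∑ Θ ∈ powersetCard k Box with k ≤ B * reps rp Θ, ((s : ℝ) ^ B) ^ reps rp Θ := by
          apply sum_le_sum
          intro Θ hΘ
          rw [mem_filter] at hΘ
          rw [← pow_mul]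
          exact pow_le_pow_right₀ hs1 hΘ.2
      _ ≤ _ := by
          apply sum_le_sum_of_subset_of_nonneg (filter_subset _ _)
          intro _ _ _
          positivity
  have h5 : ((#Box : ℝ) + k * (s : ℝ) ^ B) ^ k ≤ (2 * #Box) ^ k := by
    apply pow_le_pow_left₀ (by positivity)
    have : ((k * s ^ B : ℕ) : ℝ) ≤ #Box := by exact_mod_cast hk
    push_cast at this
    linarith
  rw [div_pow, le_div_iff₀ (by positivity)]
  exact h4.trans (h3.trans h5)

end Pool.Agent.helper306_moser
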