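import Pool.Agent.helper306_moser.Total

/-!
The number of sums of consecutive primes up to `x` in a residue class.
-/

open Finset

namespace Pool.Agent.helper306_moser

lemma lam_small (A K : ℕ) : ∃ N₁ : ℕ, ∀ N : ℕ, N₁ ≤ N → (K * Lam N) ^ A ≤ N := by
  have htend : Filter.Tendsto (fun n : ℕ => (n : ℝ) ^ A / (2 : ℝ) ^ n) Filter.atTop (nhds 0) :=
    tendsto_pow_const_div_const_pow_of_one_lt A (by norm_num)
  obtain ⟨t₀, ht₀⟩ := Filter.eventually_atTop.1 (htend.eventually (gt_mem_nhds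
    (show (0 : ℝ) < 1 / (2 * (K : ℝ) ^ A + 1) by positivity)))
  refine ⟨2 ^ t₀, fun N hN => ?_⟩
  set t := Nat.log 2 N with ht
  have hN0 : N ≠ 0 := by
    have : 0 < 2 ^ t₀ := by positivity
    omega
  have htt : t₀ ≤ t := by
    rw [ht]
    exact Nat.le_log_of_pow_le (by norm_num) hN
  have h1 := ht₀ (t + 1) (by omega)
  have h2 : (2 : ℕ) ^ t ≤ N := Nat.pow_log_le_self 2 hN0
  have h3 : Lam N = t + 1 := rfl
  rw [h3]
  have h4 : (0 : ℝ) < 2 ^ (t + 1) := by positivity
  have h5 : (0 : ℝ) < 2 * (K : ℝ) ^ A + 1 := by positivity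
  rw [div_lt_div_iff₀ h4 h5] at h1
  have h6 : ((K : ℝ) * (t + 1)) ^ A ≤ 2 ^ t := by
    have h7 : ((t + 1 : ℕ) : ℝ) ^ A * (2 * (K : ℝ) ^ A) ≤ 2 ^ (t + 1) := by
      have h8 : (0 : ℝ) ≤ ((t + 1 : ℕ) : ℝ) ^ A := by positivity
      nlinarith
    rw [pow_succ] at h7
    push_cast at h7
    rw [mul_pow]
    nlinarith
  have h9 : ((K * (t + 1)) ^ A : ℕ) ≤ (2 ^ t : ℕ) := by exact_mod_cast h6
  exact h9.trans h2

open scoped Classical in
theorem final_A (q a : ℕ) (hq : 1 ≤ q) : ∃ c : ℝ, 0 < c ∧ ∃ x₀ : ℕ, ∀ x : ℕ, x₀ ≤ x →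
    c * (x * Real.log (Real.log x) / Real.log x) ≤ #{n ∈ Icc 1 x | n ≡ a [MOD q] ∧ Rep n} := by
  classical
  obtain ⟨c, hc, A, K, N₀, hK, hA, hdy⟩ := dyadic q a hq
  obtain ⟨N₁, hN₁⟩ := lam_small A (K + 3)
  have hAr : (0 : ℝ) < A := by
    have : 0 < A := by omega
    exact_mod_cast this
  refine ⟨c / (8 * A), by positivity, 2 ^ (N₀ + N₁ + 10), ?_⟩
  intro x hx
  have hx0 : x ≠ 0 := by
    have : 0 < 2 ^ (N₀ + N₁ + 10) := by positivity
    omega
  set N := Nat.log 2 x with hN
  have hNN : N₀ + N₁ + 10 ≤ N := Nat.le_log_of_pow_le (by norm_num) hx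
  have h2N : 2 ^ N ≤ x := Nat.pow_log_le_self 2 hx0
  have h2N' : x < 2 ^ (N + 1) := Nat.lt_pow_succ_log_self (by norm_num) x
  -- the choice of m
  have hex0 : (0 : ℕ) ^ A ≤ N := by
    rw [zero_pow (by omega)]
    omega
  set m := Nat.findGreatest (fun m => m ^ A ≤ N) N with hm
  have hmA : m ^ A ≤ N := Nat.findGreatest_spec (P := fun m => m ^ A ≤ N) (Nat.zero_le N) hex0
  have hLam := hN₁ N (by omega)
  have hLpos := Lam_pos N
  have hKm : (K + 3) * Lam N ≤ m := by
    refine Nat.le_findGreatest (P := fun m => m ^ A ≤ N) ?_ hLam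
    refine le_trans ?_ hLam
    calc (K + 3) * Lam N = ((K + 3) * Lam N) ^ 1 := (pow_one _).symm
      _ ≤ ((K + 3) * Lam N) ^ A :=
          Nat.pow_le_pow_right (Nat.mul_pos (by omega) hLpos) (by omega)
  have hm3 : 3 ≤ m := by
    have : K + 3 ≤ (K + 3) * Lam N := Nat.le_mul_of_pos_right _ hLpos
    omega
  have hmN : m < N := by
    calc m < m ^ 2 := by nlinarith
      _ ≤ m ^ A := Nat.pow_le_pow_right (by omega) (by omega)
      _ ≤ N := hmA
  have hgt : N < (m + 1) ^ A := by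
    have h1 := Nat.findGreatest_is_greatest (P := fun m => m ^ A ≤ N) (n := N) (k := m + 1)
      (by omega) (by omega)
    omega
  have hmr : (3 : ℝ) ≤ m := by exact_mod_cast hm3
  have hN10 : (10 : ℝ) ≤ N := by
    have : 10 ≤ N := by omega
    exact_mod_cast this
  have hlogm : Real.log N ≤ 2 * A * Real.log m := by
    have h1 : (N : ℝ) ≤ ((m : ℝ) ^ 2) ^ A := by
      have h2 : N ≤ (m ^ 2) ^ A := by
        refine hgt.le.trans (Nat.pow_le_pow_left ?_ A)
        nlinarith
      exact_mod_cast h2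
    have h3 := Real.log_le_log (by linarith) h1
    rw [← pow_mul, Real.log_pow] at h3
    push_cast at h3
    linarith
  have h1 := hdy N (by omega) m hmA (le_trans (Nat.mul_le_mul_right _ (by omega)) hKm)
  -- compare the sets
  have h2 : #{n ∈ range (2 ^ N) | n ≡ a [MOD q] ∧ Rep n} ≤
      #{n ∈ Icc 1 x | n ≡ a [MOD q] ∧ Rep n} := by
    apply card_le_card
    intro n hn
    rw [mem_filter, mem_range] at hn
    rw [mem_filter, mem_Icc]
    refine ⟨⟨?_, by omega⟩, hn.2⟩
    obtain ⟨l, i, hl, hS⟩ := hn.2.2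
    rw [← hS]
    calc 1 ≤ P i := (P_prime i).pos
      _ = 1 * P i := (one_mul _).symm
      _ ≤ l * P i := Nat.mul_le_mul_right _ hl
      _ ≤ S l i := mul_P_le_S _ _
  have h2' : (#{n ∈ range (2 ^ N) | n ≡ a [MOD q] ∧ Rep n} : ℝ) ≤
      #{n ∈ Icc 1 x | n ≡ a [MOD q] ∧ Rep n} := by exact_mod_cast h2
  refine le_trans ?_ (h1.trans h2')
  -- numerical comparison
  have hxr : (x : ℝ) ≤ 2 * 2 ^ N := by
    have : x ≤ 2 * 2 ^ N := by
      rw [pow_succ] at h2N'
      omega
    exact_mod_cast this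
  have h2Nr : ((2 : ℝ) ^ N) ≤ x := by exact_mod_cast h2N
  have hx1 : (1 : ℝ) < x := by
    refine lt_of_lt_of_le ?_ h2Nr
    exact one_lt_pow₀ (by norm_num) (by omega)
  have hlog2 := Real.log_two_gt_d9
  have hlog2' := Real.log_two_lt_d9
  have hlogx1 : N * Real.log 2 ≤ Real.log x := by
    have := Real.log_le_log (by positivity) h2Nr
    rwa [Real.log_pow] at this
  have hlogx2 : Real.log x ≤ N := by
    have h3 : (x : ℝ) ≤ 2 ^ (N + 1) := by exact_mod_cast h2N'.le
    have := Real.log_le_log (by linarith) h3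
    rw [Real.log_pow] at this
    push_cast at this
    nlinarith
  have hNlog : (N : ℝ) ≤ 2 * Real.log x := by nlinarith
  have hlogx0 : 0 < Real.log x := by nlinarith
  have hloglog : Real.log (Real.log x) ≤ Real.log N := Real.log_le_log hlogx0 hlogx2
  have hll : Real.log (Real.log x) ≤ 2 * A * Real.log m := hloglog.trans hlogm
  have hlm : 0 ≤ Real.log m := Real.log_nonneg (by linarith)
  have hN0 : (0 : ℝ) < N := by linarith
  calc c / (8 * A) * (x * Real.log (Real.log x) / Real.log x)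
      ≤ c / (8 * A) * (x * (2 * A * Real.log m) / Real.log x) := by
        apply mul_le_mul_of_nonneg_left _ (by positivity)
        apply div_le_div_of_nonneg_right _ hlogx0.le
        exact mul_le_mul_of_nonneg_left hll (by linarith)
    _ = c / 4 * Real.log m * (x / Real.log x) := by
        field_simp
        ring
    _ ≤ c / 4 * Real.log m * (2 * 2 ^ N / (N / 2)) := by
        apply mul_le_mul_of_nonneg_left _ (by positivity)
        apply div_le_div₀ (by positivity) hxr (by positivity)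
        linarith
    _ = c * (2 ^ N / N * Real.log m) := by
        field_simp
        ring

end Pool.Agent.helper306_moser
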