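import Pool.Agent.helper306_moser.Thin
import Pool.Agent.helper306_moser.Conv

/-!
No residue class to a large modulus contains a positive proportion of the representations.
-/

open Finset

namespace Pool.Agent.helper306_moser

/-- The block starting at `i` has a hit at bounded distances. -/
def BadIdx (q K i : ℕ) : Prop := ∃ z ∈ Ico 1 K ×ˢ Ico 1 K, Hit q z.1 z.2 i

open scoped Classical in
lemma bad_few (K : ℕ) (η : ℝ) (hη : 0 < η) : ∃ q₀ : ℕ, ∀ q : ℕ, q₀ ≤ q → ∃ x₀ : ℕ,
    ∀ x : ℕ, x₀ ≤ x →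
      (#{m ∈ range (Nat.primeCounting x) | BadIdx q K m} : ℝ) ≤ η * (x / Real.log x) := by
  classical
  set T := Ico 1 K ×ˢ Ico 1 K with hT
  set η' := η / (#T + 1) with hη'
  have hη'0 : 0 < η' := by positivity
  have h1 : ∀ᶠ q : ℕ in Filter.atTop, ∀ z ∈ T, ∀ᶠ x : ℕ in Filter.atTop,
      (#{m ∈ range (Nat.primeCounting x) | Hit q z.1 z.2 m} : ℝ) ≤ η' * (x / Real.log x) := by
    rw [Filter.eventually_all_finset]
    intro z hz
    rw [hT, mem_product, mem_Ico, mem_Ico] at hz
    obtain ⟨q₀, hq₀⟩ := thin z.1 z.2 hz.1.1 hz.2.1 η' hη'0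
    filter_upwards [Filter.eventually_ge_atTop q₀] with q hq
    obtain ⟨x₀, hx₀⟩ := hq₀ q hq
    filter_upwards [Filter.eventually_ge_atTop x₀] with x hx
    exact hx₀ x hx
  obtain ⟨q₀, hq₀⟩ := Filter.eventually_atTop.1 h1
  refine ⟨q₀, fun q hq => ?_⟩
  have h2 := hq₀ q hq
  have h3 : ∀ᶠ x : ℕ in Filter.atTop, ∀ z ∈ T,
      (#{m ∈ range (Nat.primeCounting x) | Hit q z.1 z.2 m} : ℝ) ≤ η' * (x / Real.log x) := by
    rw [Filter.eventually_all_finset]
    exact h2
  obtain ⟨x₀, hx₀⟩ := Filter.eventually_atTop.1 h3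
  refine ⟨max x₀ 3, fun x hx => ?_⟩
  have h4 := hx₀ x ((le_max_left _ _).trans hx)
  have hx3 : (3 : ℝ) ≤ x := by exact_mod_cast (le_max_right _ _).trans hx
  have hl : 0 < Real.log x := Real.log_pos (by linarith)
  have hsub : {m ∈ range (Nat.primeCounting x) | BadIdx q K m} ⊆
      T.biUnion (fun z => {m ∈ range (Nat.primeCounting x) | Hit q z.1 z.2 m}) := by
    intro m hm
    rw [mem_filter] at hm
    obtain ⟨hm1, z, hz, hzh⟩ := hm
    rw [mem_biUnion]
    exact ⟨z, hz, mem_filter.2 ⟨hm1, hzh⟩⟩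
  have h5 := (card_le_card hsub).trans card_biUnion_le
  have h6 : (#{m ∈ range (Nat.primeCounting x) | BadIdx q K m} : ℝ) ≤
      ∑ z ∈ T, (#{m ∈ range (Nat.primeCounting x) | Hit q z.1 z.2 m} : ℝ) := by exact_mod_cast h5
  refine h6.trans ((sum_le_sum h4).trans ?_)
  rw [sum_const, nsmul_eq_mul, hη']
  have h7 : (0 : ℝ) ≤ #T := Nat.cast_nonneg _
  have h8 : 0 < (x : ℝ) / Real.log x := by positivity
  calc (#T : ℝ) * (η / (#T + 1) * (x / Real.log x)) = η * (x / Real.log x) * (#T / (#T + 1)) := by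
        field_simp
    _ ≤ η * (x / Real.log x) * 1 := by
        apply mul_le_mul_of_nonneg_left _ (by positivity)
        rw [div_le_one (by positivity)]
        linarith
    _ = _ := mul_one _

/-- A large set of indices in a block with congruent prefix sums gives a hit. -/
lemma block_bad (q t R : ℕ) (hR : 1 ≤ R) (I : Finset ℕ)
    (hI : I ⊆ Ico (t * (2 * R ^ 2)) ((t + 1) * (2 * R ^ 2)))
    (hcong : ∀ i ∈ I, ∀ j ∈ I, S i 0 ≡ S j 0 [MOD q]) (hcard : 2 * R < #I) :
    ∃ i ∈ Ico (t * (2 * R ^ 2)) ((t + 1) * (2 * R ^ 2)), BadIdx q (2 * R ^ 2) i := by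
  classical
  set K := 2 * R ^ 2 with hK
  have e0 : (t + 1) * K = t * K + K := by ring
  rw [e0] at hI ⊢
  set U := {z ∈ I ×ˢ I | z.1 < z.2 ∧ (fun _ : ℕ => (0 : ℕ)) z.1 = (fun _ : ℕ => (0 : ℕ)) z.2} with hU
  have h1 := pairs_lt I ℕ (fun _ => 0)
  rw [← hU] at h1
  have h2 : {z ∈ I ×ˢ I | (fun _ : ℕ => (0 : ℕ)) z.1 = (fun _ : ℕ => (0 : ℕ)) z.2} = I ×ˢ I := by
    apply filter_true_of_mem
    intro _ _
    rfl
  rw [h2, card_product] at h1
  have hUcard : K - 1 < #U := by
    obtain ⟨r, hr⟩ : ∃ r, #I = 2 * R + 1 + r := ⟨#I - (2 * R + 1), by omega⟩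
    rw [hr] at h1
    have h3 : 4 * R ^ 2 + (2 * R) + (2 * R + 1 + r) ≤ (2 * R + 1 + r) * (2 * R + 1 + r) := by
      nlinarith
    have h4 : 4 * R ^ 2 + (2 * R) ≤ 2 * #U := by omega
    rw [hK]
    omega
  have hmem : ∀ z ∈ U, z.1 ∈ I ∧ z.2 ∈ I ∧ z.1 < z.2 := by
    intro z hz
    rw [hU, mem_filter, mem_product] at hz
    exact ⟨hz.1.1, hz.1.2, hz.2.1⟩
  have hmaps : ∀ z ∈ U, z.2 - z.1 ∈ Ico 1 K := by
    intro z hz
    obtain ⟨a1, a2, a3⟩ := hmem z hz
    have b1 := mem_Ico.1 (hI a1)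
    have b2 := mem_Ico.1 (hI a2)
    rw [mem_Ico]
    omega
  obtain ⟨z, hz, z', hz', hne, heq⟩ := exists_ne_map_eq_of_card_lt_of_maps_to
    (s := U) (t := Ico 1 K) (f := fun z => z.2 - z.1) (by rw [Nat.card_Ico]; exact hUcard) hmaps
  -- the key implication
  have key : ∀ z ∈ U, ∀ z' ∈ U, z.2 - z.1 = z'.2 - z'.1 → z.1 < z'.1 →
      ∃ i ∈ Ico (t * K) (t * K + K), BadIdx q K i := by
    intro z hz z' hz' heq hlt
    obtain ⟨a1, a2, a3⟩ := hmem z hz
    obtain ⟨a1', a2', a3'⟩ := hmem z' hz'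
    have b1 := mem_Ico.1 (hI a1)
    have b2 := mem_Ico.1 (hI a2)
    have b1' := mem_Ico.1 (hI a1')
    refine ⟨z.1, mem_Ico.2 b1, (z'.1 - z.1, z.2 - z.1), ?_, ?_⟩
    · rw [mem_product, mem_Ico, mem_Ico]
      simp only
      omega
    · unfold Hit
      simp only
      have c1 : ∀ u v : ℕ, u < v → S u 0 ≡ S v 0 [MOD q] → S (v - u) u ≡ 0 [MOD q] := by
        intro u v huv hc
        have e : S v 0 = S u 0 + S (v - u) u := by
          have e1 : v = u + (v - u) := by omega
          conv_lhs => rw [e1]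
          rw [S_add, zero_add]
        rw [e] at hc
        have h3 : S u 0 + S (v - u) u ≡ S u 0 + 0 [MOD q] := by
          rw [add_zero]
          exact hc.symm
        exact Nat.ModEq.add_left_cancel' _ h3
      have d1 := c1 z.1 z.2 a3 (hcong _ a1 _ a2)
      have d2 := c1 z'.1 z'.2 a3' (hcong _ a1' _ a2')
      have e2 : z.1 + (z'.1 - z.1) = z'.1 := by omega
      rw [e2, heq]
      rw [heq] at d1
      exact d2.trans d1.symm
  rcases lt_trichotomy z.1 z'.1 with h | h | h
  · exact key z hz z' hz' heq h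
  · exfalso
    apply hne
    obtain ⟨a1, a2, a3⟩ := hmem z hz
    obtain ⟨a1', a2', a3'⟩ := hmem z' hz'
    exact Prod.ext h (by omega)
  · exact key z' hz' z hz heq.symm h

/-- The number of lengths of blocks from `j` on with sum at most `x`. -/
noncomputable def Jn (x j : ℕ) : Finset ℕ := {l ∈ Icc 1 x | S l j ≤ x}

open scoped Classical in
/-- All blocks with sum at most `x` in the class. -/
noncomputable def Aq (q a x : ℕ) : Finset (ℕ × ℕ) :=
  {w ∈ Icc 1 x ×ˢ range x | S w.1 w.2 ≤ x ∧ S w.1 w.2 ≡ a [MOD q]}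

/-- The block `t` contains a bad index. -/
def BadT (q K t : ℕ) : Prop := ∃ i ∈ Ico (t * K) ((t + 1) * K), BadIdx q K i

open scoped Classical in
lemma main_count (q a x R : ℕ) (hR : 1 ≤ R) :
    #(Aq q a x) ≤ 2 * R ^ 2 * Nat.primeCounting x +
      (2 * R * ∑ t ∈ range x, #(Jn x ((t + 1) * (2 * R ^ 2) - 1)) +
      2 * R ^ 2 * ∑ t ∈ range x with BadT q (2 * R ^ 2) t,
        #(Jn x ((t + 1) * (2 * R ^ 2) - 1))) := by
  classical
  set K := 2 * R ^ 2 with hK
  have hK1 : 1 ≤ K := by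
    have : 1 ≤ R ^ 2 := Nat.one_le_pow _ _ hR
    omega
  -- inner and outer blocks
  set In := {w ∈ Aq q a x | w.2 + w.1 < (w.2 / K + 1) * K} with hIn
  set Out := {w ∈ Aq q a x | ¬ w.2 + w.1 < (w.2 / K + 1) * K} with hOut
  have hsplit : #(Aq q a x) = #In + #Out :=
    (card_filter_add_card_filter_not (fun w : ℕ × ℕ => w.2 + w.1 < (w.2 / K + 1) * K)).symm
  have hAq : ∀ w ∈ Aq q a x, 1 ≤ w.1 ∧ w.1 ≤ x ∧ w.2 < x ∧ S w.1 w.2 ≤ x ∧
      S w.1 w.2 ≡ a [MOD q] := by
    intro w hw
    unfold Aq at hw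
    rw [mem_filter, mem_product, mem_Icc, mem_range] at hw
    exact ⟨hw.1.1.1, hw.1.1.2, hw.1.2, hw.2.1, hw.2.2⟩
  have hblock : ∀ i : ℕ, i / K * K ≤ i ∧ i < (i / K + 1) * K := by
    intro i
    have h1 := Nat.div_add_mod i K
    have h2 := Nat.mod_lt i hK1
    have h3 : i / K * K = K * (i / K) := mul_comm _ _
    have h4 : (i / K + 1) * K = K * (i / K) + K := by ring
    omega
  have hInc : #In ≤ K * Nat.primeCounting x := by
    have h1 : In ⊆ range K ×ˢ range (Nat.primeCounting x) := by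
      intro w hw
      rw [hIn, mem_filter] at hw
      obtain ⟨b1, b2, b3, b4, b5⟩ := hAq w hw.1
      rw [mem_product, mem_range, mem_range]
      have h4 : (w.2 / K + 1) * K = w.2 / K * K + K := by ring
      refine ⟨by have := hblock w.2; omega, ?_⟩
      rw [← Pool.Agent.H312R2.P_le_iff]
      calc P w.2 = 1 * P w.2 := (one_mul _).symm
        _ ≤ w.1 * P w.2 := Nat.mul_le_mul_right _ b1
        _ ≤ S w.1 w.2 := mul_P_le_S _ _
        _ ≤ x := b4
    have := card_le_card h1
    rwa [card_product, card_range, card_range] at this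
  -- the outer blocks
  have hOutc : #Out ≤ ∑ t ∈ range x, (if BadT q K t then K else 2 * R) *
      #(Jn x ((t + 1) * K - 1)) := by
    have hmap : ∀ w ∈ Out, w.2 / K ∈ range x := by
      intro w hw
      rw [hOut, mem_filter] at hw
      obtain ⟨b1, b2, b3, b4, b5⟩ := hAq w hw.1
      rw [mem_range]
      exact lt_of_le_of_lt (Nat.div_le_self _ _) b3
    rw [card_eq_sum_card_fiberwise hmap]
    apply sum_le_sum
    intro t ht
    apply card_le_mul_card_image_of_maps_to (f := fun w : ℕ × ℕ => w.2 + w.1 - ((t + 1) * K - 1))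
    · intro w hw
      rw [mem_filter, hOut, mem_filter] at hw
      obtain ⟨⟨hw1, hw2⟩, hw3⟩ := hw
      obtain ⟨b1, b2, b3, b4, b5⟩ := hAq w hw1
      have hb := hblock w.2
      rw [hw3] at hw2 hb
      push Not at hw2
      set e := (t + 1) * K - 1 with he
      have he1 : 1 ≤ (t + 1) * K := Nat.mul_pos (by omega) hK1
      have hle : S (w.2 + w.1 - e) e ≤ S w.1 w.2 := by
        have e1 : w.1 = (e - w.2) + (w.2 + w.1 - e) := by omega
        have e2 : w.2 + (e - w.2) = e := by omega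
        conv_rhs => rw [e1]
        rw [S_add, e2]
        omega
      unfold Jn
      rw [mem_filter, mem_Icc]
      have h5 := le_S (w.2 + w.1 - e) e
      exact ⟨⟨by omega, by omega⟩, by omega⟩
    · intro l hl
      set Fi := {w ∈ {w ∈ Out | w.2 / K = t} | w.2 + w.1 - ((t + 1) * K - 1) = l} with hFi
      set I := Fi.image Prod.snd with hI
      have hl1 : 1 ≤ l := by
        unfold Jn at hl
        rw [mem_filter, mem_Icc] at hl
        exact hl.1.1
      have hFimem : ∀ w ∈ Fi, w ∈ Aq q a x ∧ w.2 / K = t ∧ w.2 + w.1 = (t + 1) * K - 1 + l := by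
        intro w hw
        rw [hFi, mem_filter, mem_filter, hOut, mem_filter] at hw
        exact ⟨hw.1.1.1, hw.1.2, by omega⟩
      have hFI : #Fi = #I := by
        rw [hI, card_image_of_injOn]
        intro w hw w' hw' he
        have h1 := hFimem w (mem_coe.1 hw)
        have h2 := hFimem w' (mem_coe.1 hw')
        have he : w.2 = w'.2 := he
        exact Prod.ext (by omega) he
      have hIblock : I ⊆ Ico (t * K) ((t + 1) * K) := by
        intro i hi
        rw [hI, mem_image] at hi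
        obtain ⟨w, hw, rfl⟩ := hi
        obtain ⟨_, h2, _⟩ := hFimem w hw
        have := hblock w.2
        rw [h2] at this
        exact mem_Ico.2 this
      have hcong : ∀ i ∈ I, ∀ j ∈ I, S i 0 ≡ S j 0 [MOD q] := by
        intro i hi j hj
        rw [hI, mem_image] at hi hj
        obtain ⟨w, hw, rfl⟩ := hi
        obtain ⟨w', hw', rfl⟩ := hj
        obtain ⟨h1, _, h3⟩ := hFimem w hw
        obtain ⟨h1', _, h3'⟩ := hFimem w' hw'
        have c1 := (hAq w h1).2.2.2.2
        have c2 := (hAq w' h1').2.2.2.2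
        have e1 : S (w.2 + w.1) 0 = S w.2 0 + S w.1 w.2 := by rw [S_add, zero_add]
        have e2 : S (w'.2 + w'.1) 0 = S w'.2 0 + S w'.1 w'.2 := by rw [S_add, zero_add]
        rw [h3] at e1
        rw [h3', e1] at e2
        have c3 : S w.2 0 + a ≡ S w'.2 0 + a [MOD q] := by
          calc S w.2 0 + a ≡ S w.2 0 + S w.1 w.2 [MOD q] := Nat.ModEq.add_left _ c1.symm
            _ = S w'.2 0 + S w'.1 w'.2 := e2
            _ ≡ S w'.2 0 + a [MOD q] := Nat.ModEq.add_left _ c2
        exact Nat.ModEq.add_right_cancel' _ c3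
      change #Fi ≤ _
      rw [hFI]
      split_ifs with hbad
      · have := card_le_card hIblock
        rw [Nat.card_Ico] at this
        have e1 : (t + 1) * K - t * K = K := by
          have : (t + 1) * K = t * K + K := by ring
          omega
        omega
      · by_contra hcon
        push Not at hcon
        exact hbad (block_bad q t R hR I hIblock hcong hcon)
  -- combine
  have hsum : ∑ t ∈ range x, (if BadT q K t then K else 2 * R) * #(Jn x ((t + 1) * K - 1)) ≤
      2 * R * ∑ t ∈ range x, #(Jn x ((t + 1) * K - 1)) +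
      K * ∑ t ∈ range x with BadT q K t, #(Jn x ((t + 1) * K - 1)) := by
    rw [mul_sum, mul_sum, sum_filter, ← sum_add_distrib]
    apply sum_le_sum
    intro t _
    split_ifs with h
    · omega
    · omega
  omega

end Pool.Agent.helper306_moser
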