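import Pool.Agent.helper306_moser.Pairs
import Pool.Agent.W70.HRC.Fin
import Pool.Agent.H387R2.U2

/-!
A positive proportion of the primes start a string of `k + 1` consecutive primes which are
congruent modulo `q`.
-/

open Finset

namespace Pool.Agent.helper306_moser

open Pool.Agent.H387R2.Uni Pool.Agent.W70.HRC

/-- The singular series is bounded below on sets which lie in one class modulo the small primes. -/
lemma CT_lower (r : ℕ) (hr : 1 ≤ r) : ∃ c : ℝ, 0 < c ∧ ∀ T : Finset ℕ, #T = r →
    (∀ p : ℕ, p.Prime → p ≤ r → ∀ s ∈ T, ∀ t ∈ T, s % p = t % p) → c ≤ CT T := by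
  classical
  set T₀ : Finset ℕ := (range r).image (fun j => j * r.factorial) with hT₀
  have hf : 0 < r.factorial := Nat.factorial_pos r
  have hcard : #T₀ = r := by
    rw [hT₀, card_image_of_injective _ (fun a b h => Nat.eq_of_mul_eq_mul_right hf h),
      card_range]
  -- residues of `T₀`
  have hbig : ∀ p : ℕ, p.Prime → r < p → nuT T₀ p = r := by
    intro p hp hrp
    unfold nuT
    rw [hT₀, image_image, card_image_of_injOn, card_range]
    intro i hi j hj hij
    have hi := mem_range.1 (mem_coe.1 hi)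
    have hj := mem_range.1 (mem_coe.1 hj)
    simp only [Function.comp] at hij
    have hcop : Nat.Coprime p r.factorial := by
      rw [hp.coprime_iff_not_dvd, hp.dvd_factorial]
      omega
    have h1 : i ≡ j [MOD p] := by
      apply Nat.ModEq.cancel_right_of_coprime (c := r.factorial) hcop
      exact hij
    have h2 : i % p = j % p := h1
    rwa [Nat.mod_eq_of_lt (by omega), Nat.mod_eq_of_lt (by omega)] at h2
  have hsmall : ∀ p : ℕ, p.Prime → p ≤ r → nuT T₀ p = 1 := by
    intro p hp hpr
    unfold nuT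
    have : T₀.image (· % p) = {0} := by
      ext x
      rw [mem_image, mem_singleton]
      constructor
      · rintro ⟨t, ht, rfl⟩
        rw [hT₀, mem_image] at ht
        obtain ⟨j, _, rfl⟩ := ht
        apply Nat.mod_eq_zero_of_dvd
        exact Dvd.dvd.mul_left (Nat.dvd_factorial hp.pos hpr) _
      · rintro rfl
        refine ⟨0, ?_, Nat.zero_mod _⟩
        rw [hT₀, mem_image]
        exact ⟨0, mem_range.2 hr, zero_mul _⟩
    rw [this, card_singleton]
  have hadm : ∀ p : ℕ, p.Prime → nuT T₀ p < p := by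
    intro p hp
    rcases Nat.lt_or_ge r p with h | h
    · rw [hbig p hp h]; exact h
    · rw [hsmall p hp h]; exact hp.one_lt
  have hpos : 0 < CT T₀ := by
    rw [← CT_en]
    apply Pool.Agent.H386R2.HL.singularSeries_pos (en_inj T₀)
    intro p hp
    rw [nu_en]
    exact hadm p hp
  refine ⟨CT T₀, hpos, ?_⟩
  intro T hT hclass
  have hne : T.Nonempty := by
    rw [← card_pos, hT]; exact hr
  have hle : ∀ p : Nat.Primes, locT T₀ p ≤ locT T p := by
    intro p
    have hp := p.2
    have hnu : nuT T p ≤ nuT T₀ p := by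
      rcases Nat.lt_or_ge r p with h | h
      · rw [hbig p hp h]
        unfold nuT
        exact card_image_le.trans hT.le
      · rw [hsmall p hp h]
        unfold nuT
        rw [card_le_one]
        intro a ha b hb
        rw [mem_image] at ha hb
        obtain ⟨s, hs, rfl⟩ := ha
        obtain ⟨t, ht, rfl⟩ := hb
        exact hclass p hp h s hs t ht
    unfold locT
    rw [hT, hcard]
    have hp1 : (1 : ℝ) < (p : ℕ) := by exact_mod_cast hp.one_lt
    have h1 : 0 ≤ 1 - 1 / ((p : ℕ) : ℝ) := by
      rw [sub_nonneg, div_le_one (by linarith)]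
      exact hp1.le
    apply div_le_div_of_nonneg_right _ (pow_nonneg h1 _)
    have h2 : (nuT T p : ℝ) ≤ nuT T₀ p := by exact_mod_cast hnu
    have h3 : (nuT T p : ℝ) / ((p : ℕ) : ℝ) ≤ (nuT T₀ p : ℝ) / ((p : ℕ) : ℝ) :=
      div_le_div_of_nonneg_right h2 (by linarith)
    linarith
  have hnn : ∀ p : Nat.Primes, 0 ≤ locT T₀ p := by
    intro p
    have hp := p.2
    unfold locT
    have hp1 : (1 : ℝ) < (p : ℕ) := by exact_mod_cast hp.one_lt
    have h1 : 0 ≤ 1 - 1 / ((p : ℕ) : ℝ) := by
      rw [sub_nonneg, div_le_one (by linarith)]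
      exact hp1.le
    apply div_nonneg _ (pow_nonneg h1 _)
    rw [sub_nonneg, div_le_one (by linarith)]
    exact_mod_cast (hadm p hp).le
  have t1 := CT_hasProd T₀
  have t2 := CT_hasProd T
  refine le_of_tendsto_of_tendsto' t1 t2 ?_
  intro s
  exact prod_le_prod (fun p _ => hnn p) (fun p _ => hle p)

/-- The elements of a set of shifts giving consecutive primes are consecutive primes. -/
lemma cns_string {n : ℕ} {T : Finset ℕ} {k : ℕ} (hT : #T = k + 1) (h : Cns n T) :
    ∃ j, (∀ i ≤ k, ∃ t ∈ T, P (j + i) = n + t) ∧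
      T = (range (k + 1)).image (fun i => P (j + i) - n) := by
  classical
  obtain ⟨hp, hc⟩ := h
  have hne : T.Nonempty := by
    rw [← card_pos, hT]; omega
  set t₀ := T.min' hne with ht₀
  have ht₀T : t₀ ∈ T := min'_mem _ _
  obtain ⟨j, hj⟩ := exists_P (hp t₀ ht₀T)
  have key : ∀ i ≤ k, ∃ t ∈ T, P (j + i) = n + t := by
    intro i
    induction i using Nat.strong_induction_on with
    | _ i ih =>
      intro hi
      rcases Nat.eq_zero_or_pos i with h0 | h0
      · subst h0
        exact ⟨t₀, ht₀T, by rw [add_zero, hj]⟩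
      · -- some element is larger than the previous ones
        have hex : ∃ x ∈ T, P (j + (i - 1)) < n + x := by
          by_contra hcon
          push Not at hcon
          have hsub : T ⊆ (range i).image (fun i' => P (j + i') - n) := by
            intro x hx
            have h1 := hcon x hx
            obtain ⟨y, hy⟩ := exists_P (hp x hx)
            have h2 : j ≤ y := by
              rw [← P_strictMono.le_iff_le, hy, hj]
              have := min'_le T x hx
              omega
            have h3 : y ≤ j + (i - 1) := by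
              rw [← P_strictMono.le_iff_le, hy]
              exact h1
            rw [mem_image]
            refine ⟨y - j, mem_range.2 (by omega), ?_⟩
            have : j + (y - j) = y := by omega
            rw [this, hy]
            omega
          have := (card_le_card hsub).trans card_image_le
          rw [card_range, hT] at this
          omega
        obtain ⟨x, hx, hlt⟩ := hex
        obtain ⟨y, hy⟩ := exists_P (hp x hx)
        have h1 : j + (i - 1) < y := by
          rw [← P_strictMono.lt_iff_lt, hy]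
          exact hlt
        have h2 : P (j + i) ≤ n + x := by
          rw [← hy]
          exact P_mono (by omega)
        have h3 : n + t₀ < P (j + i) := by
          rw [← hj]
          exact P_strictMono (by omega)
        have h4 := hc (P (j + i) - n) ⟨t₀, ht₀T, by omega⟩ ⟨x, hx, by omega⟩ (by
          have : n + (P (j + i) - n) = P (j + i) := by omega
          rw [this]
          exact P_prime _)
        exact ⟨_, h4, by omega⟩
  refine ⟨j, key, ?_⟩
  symm
  apply eq_of_subset_of_card_le
  · intro x hx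
    rw [mem_image] at hx
    obtain ⟨i, hi, rfl⟩ := hx
    rw [mem_range] at hi
    obtain ⟨t, ht, he⟩ := key i (by omega)
    have : P (j + i) - n = t := by omega
    rw [this]
    exact ht
  · rw [card_image_of_injOn, card_range, hT]
    intro i hi i' hi' he
    have hi := mem_range.1 (mem_coe.1 hi)
    have hi' := mem_range.1 (mem_coe.1 hi')
    simp only at he
    obtain ⟨t, ht, h1⟩ := key i (by omega)
    obtain ⟨t', ht', h2⟩ := key i' (by omega)
    have : P (j + i) = P (j + i') := by omega
    have := P_strictMono.injective this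
    omega

/-- Chebyshev's bound for the index of a prime. -/
lemma index_le (Z : ℕ) (hZ : 2 ≤ Z) : (Z : ℝ) ≤ 5 * (P Z / Real.log (P Z)) := by
  set y := P Z with hy
  have hyZ : Z < y := lt_P Z
  have hyr : (2 : ℝ) < y := by
    have : 2 < y := by omega
    exact_mod_cast this
  have hlog : 0 < Real.log y := Real.log_pos (by linarith)
  have h1 := Chebyshev.pi_le_log4_mul_div (x := (y : ℝ)) (by linarith)
  rw [Nat.floor_natCast] at h1
  have h2 : Z ≤ Nat.primeCounting y := by
    have : Nat.primeCounting' y = Z := Nat.primeCounting'_nth_eq Z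
    rw [← this]
    exact Nat.monotone_primeCounting' (Nat.le_succ y)
  have h2' : (Z : ℝ) ≤ Nat.primeCounting y := by exact_mod_cast h2
  refine h2'.trans (h1.trans ?_)
  rw [Real.log_sqrt (by linarith)]
  have hlog4 : Real.log 4 = 2 * Real.log 2 := by
    rw [show (4 : ℝ) = 2 ^ 2 by norm_num, Real.log_pow]; norm_num
  have hlog2 : Real.log 2 < 0.7 := by
    have := Real.log_two_lt_d9
    linarith
  have hsq : √(y : ℝ) ≤ 2 * (y / Real.log y) := by
    have h3 : Real.log y ≤ 2 * √(y : ℝ) := by
      have h4 : Real.log (√(y : ℝ)) ≤ √(y : ℝ) - 1 :=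
        Real.log_le_sub_one_of_pos (Real.sqrt_pos.2 (by linarith))
      rw [Real.log_sqrt (by linarith)] at h4
      linarith
    rw [← mul_div_assoc, le_div_iff₀ hlog]
    calc √(y : ℝ) * Real.log y ≤ √(y : ℝ) * (2 * √(y : ℝ)) :=
          mul_le_mul_of_nonneg_left h3 (Real.sqrt_nonneg _)
      _ = 2 * (√(y : ℝ) * √(y : ℝ)) := by ring
      _ = 2 * y := by rw [Real.mul_self_sqrt (by linarith)]
  have h5 : Real.log 4 * y / (Real.log y / 2) = 4 * Real.log 2 * (y / Real.log y) := by
    rw [hlog4]
    field_simp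
    ring
  rw [h5]
  have h6 : 0 < (y : ℝ) / Real.log y := by positivity
  nlinarith

lemma log_div_tendsto {Λ : ℝ} (hΛ : 0 < Λ) (K : ℝ) : ∃ X₀ : ℕ, ∀ X : ℕ, X₀ ≤ X →
    K ≤ Λ * Real.log X := by
  have h1 : Filter.Tendsto (fun X : ℕ => Λ * Real.log (X : ℝ)) Filter.atTop Filter.atTop :=
    Filter.Tendsto.const_mul_atTop hΛ (Real.tendsto_log_atTop.comp tendsto_natCast_atTop_atTop)
  exact Filter.eventually_atTop.1 (h1.eventually_ge_atTop K)

/-- The form of the statement in terms of the size of the primes. -/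
theorem star_X (q k : ℕ) (hq : 1 ≤ q) (hk : 1 ≤ k) : ∃ c : ℝ, 0 < c ∧ ∃ X₀ : ℕ, ∀ X : ℕ, X₀ ≤ X →
    ∀ Z : ℕ, (∀ j, P j < 3 * X → j < Z) → c * (X / Real.log X) ≤ #(Jst q k Z) := by
  classical
  obtain ⟨Λ, hΛ, hΛ1, hF⟩ := fin_k k hk
  set r := k + 1 with hr
  set κ : ℝ := 1 / ((8 * k ^ 2 + 1).choose (k + 1) : ℝ) with hκ
  have hκ0 : 0 < κ := by
    rw [hκ]
    have : 0 < (8 * k ^ 2 + 1).choose (k + 1) := by
      apply Nat.choose_pos
      nlinarith
    positivity
  set q' := q * r.factorial with hq'
  have hq'0 : 0 < q' := Nat.mul_pos hq (Nat.factorial_pos r)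
  have hq'r : (0 : ℝ) < q' := by exact_mod_cast hq'0
  set η : ℝ := Λ / (2 * q') with hη
  have hη0 : 0 < η := by positivity
  obtain ⟨δ, hδ, X₁, hX₁⟩ := hF η (κ / 2) hη0 (by positivity)
  obtain ⟨c₀, hc₀, hCT⟩ := CT_lower r (by omega)
  obtain ⟨X₂, hX₂⟩ := log_div_tendsto hΛ (2 * q' * (2 * r + 2))
  set c₁ : ℝ := δ * (κ / 2) * c₀ * ((η / 2) ^ r / r.factorial) with hc₁
  have hc₁0 : 0 < c₁ := by positivity
  refine ⟨c₁ / Λ, by positivity, max (max X₁ X₂) 3, ?_⟩
  intro X hX Z hZ
  have hXX₁ : X₁ ≤ X := (le_max_left _ _).trans ((le_max_left _ _).trans hX)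
  have hXX₂ : X₂ ≤ X := (le_max_right _ _).trans ((le_max_left _ _).trans hX)
  have hX3 : 3 ≤ X := (le_max_right _ _).trans hX
  have hXr : (3 : ℝ) ≤ X := by exact_mod_cast hX3
  have hL : 0 < Real.log X := Real.log_pos (by linarith)
  have hLX : Real.log X ≤ X := by
    have := Real.log_le_sub_one_of_pos (show (0 : ℝ) < X by linarith)
    linarith
  have hbig := hX₂ X hXX₂
  set m := ⌊Λ * Real.log X / q'⌋₊ with hm
  set A : Finset ℕ := (Icc 1 m).image (fun j => j * q') with hA
  have hAcard : #A = m := by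
    rw [hA, card_image_of_injective _ (fun a b h => Nat.eq_of_mul_eq_mul_right hq'0 h),
      Nat.card_Icc, Nat.add_sub_cancel]
  have hmle : (m : ℝ) ≤ Λ * Real.log X / q' := Nat.floor_le (by positivity)
  have hmlt : Λ * Real.log X / q' < m + 1 := Nat.lt_floor_add_one _
  have hAmem : ∀ a ∈ A, 1 ≤ a ∧ (a : ℝ) ≤ Λ * Real.log X ∧ q' ∣ a := by
    intro a ha
    rw [hA, mem_image] at ha
    obtain ⟨j, hj, rfl⟩ := ha
    rw [mem_Icc] at hj
    refine ⟨Nat.mul_pos hj.1 hq'0, ?_, Dvd.intro_left j rfl⟩
    have h1 : (j : ℝ) ≤ m := by exact_mod_cast hj.2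
    push_cast
    rw [le_div_iff₀ hq'r] at hmle
    nlinarith
  have hmη : η * Real.log X ≤ m := by
    have h1 : 2 * (2 * r + 2 : ℝ) ≤ Λ * Real.log X / q' := by
      rw [le_div_iff₀ hq'r]
      linarith
    have h2 : η * Real.log X = (Λ * Real.log X / q') / 2 := by
      rw [hη]
      field_simp
    have h3 : (0 : ℝ) ≤ r := Nat.cast_nonneg r
    rw [h2]
    linarith
  have hm2r : 2 * r ≤ m := by
    have h1 : 2 * (2 * r + 2 : ℝ) ≤ Λ * Real.log X / q' := by
      rw [le_div_iff₀ hq'r]
      linarith
    have h2 : (2 * r : ℝ) ≤ m := by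
      have h3 : (0 : ℝ) ≤ r := Nat.cast_nonneg r
      linarith
    exact_mod_cast h2
  have hfin := hX₁ X hXX₁ A (fun a ha => ⟨(hAmem a ha).1, (hAmem a ha).2.1⟩) (by
    rw [hAcard]
    exact hmη)
  -- lower bound for the number of pairs
  have hCTA : ∀ T ∈ A.powersetCard r, c₀ ≤ CT T := by
    intro T hT
    rw [mem_powersetCard] at hT
    apply hCT T hT.2
    intro p hp hpr s hs t ht
    have h1 : p ∣ q' := Dvd.dvd.mul_left (Nat.dvd_factorial hp.pos hpr) _
    rw [Nat.mod_eq_zero_of_dvd (h1.trans (hAmem s (hT.1 hs)).2.2),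
      Nat.mod_eq_zero_of_dvd (h1.trans (hAmem t (hT.1 ht)).2.2)]
  have hchoose : (η / 2) ^ r / r.factorial * Real.log X ^ r ≤ (m.choose r : ℝ) := by
    have h1 : ((m + 1 - r : ℕ) : ℝ) ^ r / r.factorial ≤ m.choose r := by
      have := Nat.pow_le_choose (α := ℝ) r m
      exact this
    refine le_trans ?_ h1
    rw [div_mul_eq_mul_div, ← mul_pow]
    apply div_le_div_of_nonneg_right _ (by positivity)
    apply pow_le_pow_left₀ (by positivity)
    have h2 : (m : ℝ) / 2 ≤ ((m + 1 - r : ℕ) : ℝ) := by
      have : m ≤ 2 * (m + 1 - r) := by omega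
      have : (m : ℝ) ≤ 2 * ((m + 1 - r : ℕ) : ℝ) := by exact_mod_cast this
      linarith
    linarith
  have hlow : c₁ * X ≤ ∑ T ∈ A.powersetCard r, (cnT X T : ℝ) := by
    have hXL : (0 : ℝ) < X / Real.log X ^ r := by positivity
    calc c₁ * X = δ * (κ / 2) * c₀ * ((η / 2) ^ r / r.factorial * Real.log X ^ r) *
          (X / Real.log X ^ r) := by
          rw [hc₁]
          field_simp
      _ ≤ δ * (κ / 2) * c₀ * (m.choose r : ℝ) * (X / Real.log X ^ r) := by
          apply mul_le_mul_of_nonneg_right _ hXL.le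
          apply mul_le_mul_of_nonneg_left hchoose (by positivity)
      _ = δ * (X / Real.log X ^ r) * ((κ - κ / 2) * ∑ T ∈ A.powersetCard r, c₀) := by
          rw [sum_const, card_powersetCard, hAcard, nsmul_eq_mul]
          ring
      _ ≤ δ * (X / Real.log X ^ r) * ((κ - κ / 2) * ∑ T ∈ A.powersetCard r, CT T) := by
          apply mul_le_mul_of_nonneg_left _ (by positivity)
          apply mul_le_mul_of_nonneg_left _ (by linarith)
          exact sum_le_sum hCTA
      _ ≤ δ * (X / Real.log X ^ r) * ∑ T ∈ (A.powersetCard (k + 1)).filter (fun T =>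
          δ * (CT T * (X / Real.log X ^ (k + 1))) ≤ (cnT X T : ℝ)), CT T :=
          mul_le_mul_of_nonneg_left hfin (by positivity)
      _ = ∑ T ∈ (A.powersetCard (k + 1)).filter (fun T =>
          δ * (CT T * (X / Real.log X ^ (k + 1))) ≤ (cnT X T : ℝ)),
            δ * (CT T * (X / Real.log X ^ (k + 1))) := by
          rw [mul_sum]
          apply sum_congr rfl
          intro T _
          ring
      _ ≤ ∑ T ∈ (A.powersetCard (k + 1)).filter (fun T =>
          δ * (CT T * (X / Real.log X ^ (k + 1))) ≤ (cnT X T : ℝ)), (cnT X T : ℝ) := by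
          apply sum_le_sum
          intro T hT
          exact (mem_filter.1 hT).2
      _ ≤ ∑ T ∈ A.powersetCard r, (cnT X T : ℝ) := by
          apply sum_le_sum_of_subset_of_nonneg (filter_subset _ _)
          intro _ _ _
          positivity
  -- upper bound for the number of pairs
  have hup : ∑ T ∈ A.powersetCard r, cnT X T ≤ #(Jst q k Z) * #A := by
    unfold cnT
    rw [← card_sigma, ← card_product]
    set U := (A.powersetCard r).sigma (fun T => (Ico X (2 * X)).filter (fun n => Cns n T)) with hU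
    have hstr : ∀ x ∈ U, ∃ j, (∀ i ≤ k, ∃ t ∈ x.1, P (j + i) = x.2 + t) ∧
        x.1 = (range (k + 1)).image (fun i => P (j + i) - x.2) := by
      intro x hx
      rw [hU, mem_sigma, mem_powersetCard, mem_filter] at hx
      exact cns_string hx.1.2 hx.2.2
    choose! f hf1 hf2 using hstr
    apply card_le_card_of_injOn (fun x => (f x, P (f x) - x.2))
    · intro x hx
      have hx := mem_coe.1 hx
      have hx' := hx
      rw [hU, mem_sigma, mem_powersetCard, mem_filter, mem_Ico] at hx'
      obtain ⟨⟨hTA, hTr⟩, ⟨hn1, hn2⟩, _⟩ := hx'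
      obtain ⟨t, ht, he⟩ := hf1 x hx 0 (by omega)
      rw [add_zero] at he
      rw [mem_coe, mem_product]
      refine ⟨?_, ?_⟩
      · rw [mem_Jst]
        refine ⟨?_, ?_⟩
        · apply hZ
          have h1 := (hAmem t (hTA ht)).2.1
          have h2 : (t : ℝ) ≤ X := by
            refine h1.trans ?_
            nlinarith
          have h3 : t ≤ X := by exact_mod_cast h2
          simp only
          omega
        · intro i hi
          obtain ⟨t', ht', he'⟩ := hf1 x hx i hi
          have hqd : ∀ s ∈ x.1, q ∣ s := fun s hs =>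
            (Dvd.intro _ rfl : q ∣ q').trans (hAmem s (hTA hs)).2.2
          simp only
          rw [he, he', Nat.add_mod, Nat.mod_eq_zero_of_dvd (hqd t' ht'), Nat.add_mod x.2 t,
            Nat.mod_eq_zero_of_dvd (hqd t ht)]
      · simp only
        rw [he]
        have : x.2 + t - x.2 = t := by omega
        rw [this]
        exact hTA ht
    · intro x hx y hy hxy
      have hx := mem_coe.1 hx
      have hy := mem_coe.1 hy
      simp only [Prod.mk.injEq] at hxy
      obtain ⟨h1, h2⟩ := hxy
      obtain ⟨t, ht, he⟩ := hf1 x hx 0 (by omega)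
      obtain ⟨t', ht', he'⟩ := hf1 y hy 0 (by omega)
      rw [add_zero] at he he'
      have h3 : x.2 = y.2 := by
        rw [← h1] at h2 he'
        omega
      have h4 : x.1 = y.1 := by
        rw [hf2 x hx, hf2 y hy, h1, h3]
      obtain ⟨x1, x2⟩ := x
      obtain ⟨y1, y2⟩ := y
      simp only at h3 h4
      subst h3 h4
      rfl
  have hup' : ∑ T ∈ A.powersetCard r, (cnT X T : ℝ) ≤ #(Jst q k Z) * m := by
    rw [hAcard] at hup
    exact_mod_cast hup
  have h1 : c₁ * X ≤ #(Jst q k Z) * m := hlow.trans hup'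
  have h2 : (m : ℝ) ≤ Λ * Real.log X := by
    refine hmle.trans ?_
    apply div_le_self (by positivity)
    exact_mod_cast hq'0
  have h3 : c₁ * X ≤ #(Jst q k Z) * (Λ * Real.log X) :=
    h1.trans (mul_le_mul_of_nonneg_left h2 (Nat.cast_nonneg _))
  rw [div_mul_div_comm, div_le_iff₀ (by positivity)]
  exact h3

theorem star (q k : ℕ) (hq : 1 ≤ q) (hk : 1 ≤ k) : Star q k := by
  obtain ⟨c, hc, X₀, hX₀⟩ := star_X q k hq hk
  refine ⟨c / 20, by positivity, 4 * X₀ + 20, ?_⟩
  intro Z hZ
  set X := P Z / 3 with hX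
  have hPZ := lt_P Z
  have hXle : 3 * X ≤ P Z := Nat.mul_div_le _ _
  have hXlt : P Z < 3 * X + 3 := by
    have := Nat.lt_mul_div_succ (P Z) (show 0 < 3 by norm_num)
    omega
  have h1 := hX₀ X (by omega) Z (by
    intro j hj
    exact P_strictMono.lt_iff_lt.1 (lt_of_lt_of_le hj hXle))
  refine le_trans ?_ h1
  have h2 := index_le Z (by omega)
  have hX4 : (P Z : ℝ) ≤ 4 * X := by
    have : P Z ≤ 4 * X := by omega
    exact_mod_cast this
  have hX5 : (5 : ℝ) ≤ X := by
    have : 5 ≤ X := by omega
    exact_mod_cast this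
  have hXP : (X : ℝ) ≤ P Z := by
    have : X ≤ P Z := by omega
    exact_mod_cast this
  have hlX : 0 < Real.log X := Real.log_pos (by linarith)
  have hlog : Real.log X ≤ Real.log (P Z) := Real.log_le_log (by linarith) hXP
  have h3 : (P Z : ℝ) / Real.log (P Z) ≤ 4 * (X / Real.log X) := by
    calc (P Z : ℝ) / Real.log (P Z) ≤ P Z / Real.log X :=
          div_le_div_of_nonneg_left (by linarith) hlX hlog
      _ ≤ 4 * X / Real.log X := div_le_div_of_nonneg_right hX4 hlX.le
      _ = _ := by ring
  have h4 : (Z : ℝ) ≤ 20 * (X / Real.log X) := by linarith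
  calc c / 20 * Z ≤ c / 20 * (20 * (X / Real.log X)) :=
        mul_le_mul_of_nonneg_left h4 (by positivity)
    _ = _ := by ring

end Pool.Agent.helper306_moser
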