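import Pool.Agent.helper306_moser.Large
import Pool.Agent.helper306_moser.Star

/-!
The upper bound for the number of representations in a residue class to a large modulus.
-/

open Finset

namespace Pool.Agent.helper306_moser

lemma sq_le_S (l j : ℕ) : l * l ≤ 2 * S l j := by
  have h : ∀ l : ℕ, l * l ≤ 2 * ∑ r ∈ range l, (r + 1) := by
    intro l
    induction l with
    | zero => simp
    | succ n ih =>
      rw [sum_range_succ]
      nlinarith
  refine (h l).trans ?_
  apply Nat.mul_le_mul_left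
  unfold S
  apply sum_le_sum
  intro r _
  have := lt_P (j + r)
  omega

open scoped Classical in
lemma exchange (x : ℕ) (𝒯 : Finset ℕ) (e : ℕ → ℕ) :
    ∑ t ∈ 𝒯, #(Jn x (e t)) ≤
      ∑ l ∈ Icc 1 (Nat.sqrt (2 * x)), #{t ∈ 𝒯 | P (e t) ≤ x / l} := by
  classical
  have h1 : ∀ t ∈ 𝒯, #(Jn x (e t)) ≤
      ∑ l ∈ Icc 1 (Nat.sqrt (2 * x)), (if P (e t) ≤ x / l then 1 else 0) := by
    intro t _
    rw [← card_filter]
    apply card_le_card
    intro l hl
    unfold Jn at hl
    rw [mem_filter, mem_Icc] at hl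
    rw [mem_filter, mem_Icc]
    obtain ⟨⟨h1, h2⟩, h3⟩ := hl
    refine ⟨⟨h1, ?_⟩, ?_⟩
    · rw [Nat.le_sqrt]
      have := sq_le_S l (e t)
      omega
    · rw [Nat.le_div_iff_mul_le h1, mul_comm]
      exact (mul_P_le_S _ _).trans h3
  refine (sum_le_sum h1).trans ?_
  rw [sum_comm]
  apply sum_le_sum
  intro l _
  rw [card_filter]

lemma sum_G (G : ℕ → ℕ) (θ : ℝ) (hθ : 0 < θ) (y₀ : ℕ)
    (hG : ∀ y : ℕ, y₀ ≤ y → (G y : ℝ) ≤ θ * (y / Real.log y)) : ∀ x : ℕ,
    8 * (y₀ + 10) ^ 2 ≤ x → (∑ l ∈ Icc 1 (Nat.sqrt (2 * x)), (G (x / l) : ℝ)) ≤ 8 * θ * x := by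
  intro x hx
  have hx800 : 800 ≤ x := by
    refine le_trans ?_ hx
    calc 800 = 8 * 10 ^ 2 := by norm_num
      _ ≤ 8 * (y₀ + 10) ^ 2 := Nat.mul_le_mul_left _ (Nat.pow_le_pow_left (by omega) 2)
  have hxr : (800 : ℝ) ≤ x := by exact_mod_cast hx800
  have hl0 : 0 < Real.log x := Real.log_pos (by linarith)
  have hlog64 : Real.log 64 ≤ Real.log x := Real.log_le_log (by norm_num) (by linarith)
  have e64 : Real.log 64 = 2 * Real.log 8 := by
    rw [show (64 : ℝ) = 8 ^ 2 by norm_num, Real.log_pow]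
    norm_num
  have hlog1 : 1 ≤ Real.log x := by
    have h1 : Real.exp 1 ≤ x := by
      have := Real.exp_one_lt_d9
      linarith
    rw [← Real.log_exp 1]
    exact Real.log_le_log (Real.exp_pos 1) h1
  have h1 : ∀ l ∈ Icc 1 (Nat.sqrt (2 * x)), (G (x / l) : ℝ) ≤
      4 * θ * x / Real.log x * (1 / l) := by
    intro l hl
    rw [mem_Icc, Nat.le_sqrt] at hl
    obtain ⟨hl1, hl2⟩ := hl
    have hlr : (1 : ℝ) ≤ l := by exact_mod_cast hl1
    set y := x / l with hy
    have hxy : x < l * (y + 1) := Nat.lt_mul_div_succ x hl1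
    have hy2 : x < 2 * ((y + 1) * (y + 1)) := by
      by_contra hcon
      push Not at hcon
      have h2 : x * x < (l * (y + 1)) * (l * (y + 1)) := Nat.mul_lt_mul'' hxy hxy
      have h3 : (l * (y + 1)) * (l * (y + 1)) = (l * l) * ((y + 1) * (y + 1)) := by ring
      have h4 : (l * l) * ((y + 1) * (y + 1)) ≤ (2 * x) * ((y + 1) * (y + 1)) :=
        Nat.mul_le_mul_right _ hl2
      have h5 : (2 * x) * ((y + 1) * (y + 1)) = x * (2 * ((y + 1) * (y + 1))) := by ring
      have h6 : x * (2 * ((y + 1) * (y + 1))) ≤ x * x := Nat.mul_le_mul_left _ hcon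
      omega
    have hy0 : y₀ + 10 ≤ y := by
      by_contra hcon
      push Not at hcon
      have h2 : y + 1 ≤ y₀ + 10 := hcon
      have h3 : (y + 1) * (y + 1) ≤ (y₀ + 10) * (y₀ + 10) := Nat.mul_le_mul h2 h2
      nlinarith
    have hy8 : x ≤ 8 * y ^ 2 := by nlinarith
    have hyr : (10 : ℝ) ≤ y := by
      have : 10 ≤ y := by omega
      exact_mod_cast this
    have hlogy : Real.log x / 4 ≤ Real.log y := by
      have h2 : (x : ℝ) ≤ 8 * (y : ℝ) ^ 2 := by exact_mod_cast hy8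
      have h3 := Real.log_le_log (by linarith) h2
      rw [Real.log_mul (by norm_num) (by positivity), Real.log_pow] at h3
      push_cast at h3
      linarith
    have h2 := hG y (by omega)
    refine h2.trans ?_
    have h3 : (y : ℝ) ≤ x / l := by
      have := @Nat.cast_div_le ℝ _ _ _ x l
      exact this
    calc θ * ((y : ℝ) / Real.log y) ≤ θ * ((x / l) / (Real.log x / 4)) := by
          apply mul_le_mul_of_nonneg_left _ hθ.le
          exact div_le_div₀ (by positivity) h3 (by positivity) hlogy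
      _ = 4 * θ * x / Real.log x * (1 / l) := by
          field_simp
  refine (sum_le_sum h1).trans ?_
  rw [← mul_sum]
  have h2 := sum_inv_le (Nat.sqrt (2 * x))
  have h3 : Real.log (Nat.sqrt (2 * x)) ≤ Real.log x := by
    apply Real.log_le_log
    · have : 0 < Nat.sqrt (2 * x) := Nat.sqrt_pos.2 (by omega)
      exact_mod_cast this
    · have : Nat.sqrt (2 * x) ≤ x := by
        rw [← Nat.lt_succ_iff, Nat.sqrt_lt]
        nlinarith
      exact_mod_cast this
  have h4 : (∑ l ∈ Icc 1 (Nat.sqrt (2 * x)), 1 / (l : ℝ)) ≤ 2 * Real.log x := by linarith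
  calc 4 * θ * x / Real.log x * ∑ l ∈ Icc 1 (Nat.sqrt (2 * x)), 1 / (l : ℝ)
      ≤ 4 * θ * x / Real.log x * (2 * Real.log x) := mul_le_mul_of_nonneg_left h4 (by positivity)
    _ = 8 * θ * x := by
        field_simp
        ring

theorem large_modulus (ε : ℝ) (hε : 0 < ε) : ∃ q₀ : ℕ, ∀ q : ℕ, q₀ ≤ q → ∃ x₀ : ℕ, ∀ x : ℕ,
    x₀ ≤ x → ∀ a : ℕ, (#(Aq q a x) : ℝ) ≤ ε * x := by
  classical
  obtain ⟨R, hR⟩ := exists_nat_gt (96 / ε)
  have hR0 : (0 : ℝ) < R := lt_trans (by positivity) hR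
  have hR1 : 1 ≤ R := by exact_mod_cast hR0
  set K := 2 * R ^ 2 with hK
  have hK1 : 1 ≤ K := by
    have : 1 ≤ R ^ 2 := Nat.one_le_pow _ _ hR1
    omega
  have hKr : (0 : ℝ) < K := by exact_mod_cast hK1
  obtain ⟨q₀, hq₀⟩ := bad_few K (ε / (24 * K)) (by positivity)
  obtain ⟨y₁, hy₁⟩ := Pool.Agent.H312R2.pi_upper
  refine ⟨q₀, fun q hq => ?_⟩
  obtain ⟨y₂, hy₂⟩ := hq₀ q hq
  obtain ⟨x₁, hx₁⟩ := log_div_tendsto (show (0 : ℝ) < 1 by norm_num) (12 * K / ε)
  refine ⟨8 * (y₁ + y₂ + 10) ^ 2 + x₁, fun x hx a => ?_⟩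
  have hxa : 8 * (y₁ + y₂ + 10) ^ 2 ≤ x := le_trans (Nat.le_add_right _ _) hx
  have hx1 : 8 * (y₁ + 10) ^ 2 ≤ x :=
    le_trans (Nat.mul_le_mul_left _ (Nat.pow_le_pow_left (by omega) 2)) hxa
  have hx2 : 8 * (y₂ + 10) ^ 2 ≤ x :=
    le_trans (Nat.mul_le_mul_left _ (Nat.pow_le_pow_left (by omega) 2)) hxa
  have hx800 : 800 ≤ x := by
    refine le_trans ?_ hxa
    calc 800 = 8 * 10 ^ 2 := by norm_num
      _ ≤ 8 * (y₁ + y₂ + 10) ^ 2 := Nat.mul_le_mul_left _ (Nat.pow_le_pow_left (by omega) 2)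
  have hx3 : y₁ ≤ x := by
    refine le_trans ?_ hxa
    calc y₁ ≤ (y₁ + y₂ + 10) := by omega
      _ = (y₁ + y₂ + 10) ^ 1 := (pow_one _).symm
      _ ≤ (y₁ + y₂ + 10) ^ 2 := Nat.pow_le_pow_right (by omega) (by norm_num)
      _ ≤ 8 * (y₁ + y₂ + 10) ^ 2 := by omega
  have hx4 : x₁ ≤ x := le_trans (Nat.le_add_left _ _) hx
  have hxr : (800 : ℝ) ≤ x := by exact_mod_cast hx800
  have hlog := hx₁ x hx4
  rw [one_mul] at hlog
  have hl0 : 0 < Real.log x := Real.log_pos (by linarith)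
  have hmain := main_count q a x R hR1
  rw [← hK] at hmain
  set e : ℕ → ℕ := fun t => (t + 1) * K - 1 with he
  -- all blocks
  have hall : (∑ t ∈ range x, (#(Jn x (e t)) : ℝ)) ≤ 8 * (4 / K) * x := by
    have h1 := exchange x (range x) e
    have h2 : ∀ y : ℕ, #{t ∈ range x | P (e t) ≤ y} ≤ Nat.primeCounting y / K := by
      intro y
      have h3 : {t ∈ range x | P (e t) ≤ y} ⊆ range (Nat.primeCounting y / K) := by
        intro t ht
        rw [mem_filter] at ht
        have h4 := (Pool.Agent.H312R2.P_le_iff y (e t)).1 ht.2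
        rw [mem_range, ← Nat.succ_le_iff, Nat.le_div_iff_mul_le hK1]
        have h5 : (t + 1) * K - 1 < Nat.primeCounting y := h4
        have h6 : 1 ≤ (t + 1) * K := Nat.mul_pos (by omega) hK1
        have h7 : t.succ * K = (t + 1) * K := rfl
        omega
      have := card_le_card h3
      rwa [card_range] at this
    have h3 : ∑ t ∈ range x, #(Jn x (e t)) ≤
        ∑ l ∈ Icc 1 (Nat.sqrt (2 * x)), Nat.primeCounting (x / l) / K :=
      h1.trans (sum_le_sum (fun l _ => h2 (x / l)))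
    have h4 := sum_G (fun y => Nat.primeCounting y / K) (4 / K) (by positivity) y₁ (by
      intro y hy
      have h5 := hy₁ y hy
      have h6 : ((Nat.primeCounting y / K : ℕ) : ℝ) ≤ Nat.primeCounting y / K := Nat.cast_div_le
      refine h6.trans ?_
      rw [div_mul_eq_mul_div]
      exact div_le_div_of_nonneg_right h5 hKr.le) x hx1
    refine le_trans ?_ h4
    exact_mod_cast h3
  -- bad blocks
  have hbad : (∑ t ∈ range x with BadT q K t, (#(Jn x (e t)) : ℝ)) ≤
      8 * (ε / (24 * K)) * x := by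
    have h1 := exchange x {t ∈ range x | BadT q K t} e
    have h2 : ∀ y : ℕ, #{t ∈ {t ∈ range x | BadT q K t} | P (e t) ≤ y} ≤
        #{m ∈ range (Nat.primeCounting y) | BadIdx q K m} := by
      intro y
      have hch : ∀ t ∈ {t ∈ {t ∈ range x | BadT q K t} | P (e t) ≤ y},
          ∃ i ∈ Ico (t * K) ((t + 1) * K), BadIdx q K i := by
        intro t ht
        rw [mem_filter, mem_filter] at ht
        exact ht.1.2
      choose! f hf1 hf2 using hch
      apply card_le_card_of_injOn f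
      · intro t ht
        have ht := mem_coe.1 ht
        have h3 := mem_Ico.1 (hf1 t ht)
        have h4 := hf2 t ht
        rw [mem_filter] at ht
        have h5 : (t + 1) * K - 1 < Nat.primeCounting y :=
          (Pool.Agent.H312R2.P_le_iff y (e t)).1 ht.2
        rw [mem_coe, mem_filter, mem_range]
        exact ⟨by omega, h4⟩
      · intro t ht t' ht' heq
        have h3 := mem_Ico.1 (hf1 t (mem_coe.1 ht))
        have h3' := mem_Ico.1 (hf1 t' (mem_coe.1 ht'))
        rw [heq] at h3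
        by_contra hne
        rcases lt_or_gt_of_ne hne with h4 | h4
        · have : (t + 1) * K ≤ t' * K := Nat.mul_le_mul_right _ h4
          omega
        · have : (t' + 1) * K ≤ t * K := Nat.mul_le_mul_right _ h4
          omega
    have h3 : ∑ t ∈ range x with BadT q K t, #(Jn x (e t)) ≤
        ∑ l ∈ Icc 1 (Nat.sqrt (2 * x)), #{m ∈ range (Nat.primeCounting (x / l)) | BadIdx q K m} :=
      h1.trans (sum_le_sum (fun l _ => h2 (x / l)))
    have h4 := sum_G (fun y => #{m ∈ range (Nat.primeCounting y) | BadIdx q K m})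
      (ε / (24 * K)) (by positivity) y₂ hy₂ x hx2
    refine le_trans ?_ h4
    exact_mod_cast h3
  have hmain' : (#(Aq q a x) : ℝ) ≤ K * Nat.primeCounting x +
      (2 * R * ∑ t ∈ range x, (#(Jn x (e t)) : ℝ) +
      K * ∑ t ∈ range x with BadT q K t, (#(Jn x (e t)) : ℝ)) := by exact_mod_cast hmain
  have hpi := hy₁ x hx3
  have t1 : (K : ℝ) * Nat.primeCounting x ≤ ε / 3 * x := by
    calc (K : ℝ) * Nat.primeCounting x ≤ K * (4 * (x / Real.log x)) :=
          mul_le_mul_of_nonneg_left hpi hKr.le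
      _ = 4 * K * x / Real.log x := by ring
      _ ≤ ε / 3 * x := by
          rw [div_le_iff₀ hl0]
          rw [div_le_iff₀ hε] at hlog
          nlinarith
  have t2 : 2 * R * ∑ t ∈ range x, (#(Jn x (e t)) : ℝ) ≤ ε / 3 * x := by
    calc 2 * R * ∑ t ∈ range x, (#(Jn x (e t)) : ℝ) ≤ 2 * R * (8 * (4 / K) * x) :=
          mul_le_mul_of_nonneg_left hall (by positivity)
      _ = 32 / R * x := by
          rw [hK]
          push_cast
          field_simp
          ring
      _ ≤ ε / 3 * x := by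
          apply mul_le_mul_of_nonneg_right _ (by linarith)
          rw [div_le_iff₀ hR0]
          rw [div_lt_iff₀ hε] at hR
          linarith
  have t3 : (K : ℝ) * ∑ t ∈ range x with BadT q K t, (#(Jn x (e t)) : ℝ) ≤ ε / 3 * x := by
    calc (K : ℝ) * ∑ t ∈ range x with BadT q K t, (#(Jn x (e t)) : ℝ) ≤
          K * (8 * (ε / (24 * K)) * x) := mul_le_mul_of_nonneg_left hbad hKr.le
      _ = ε / 3 * x := by
          field_simp
          ring
  linarith

open scoped Classical in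
lemma sum_class (q a x : ℕ) : ∑ n ∈ Icc 1 x with n ≡ a [MOD q], #(Fb n n) = #(Aq q a x) := by
  classical
  have hmap : ∀ w ∈ Aq q a x, S w.1 w.2 ∈ {n ∈ Icc 1 x | n ≡ a [MOD q]} := by
    intro w hw
    unfold Aq at hw
    rw [mem_filter, mem_product, mem_Icc] at hw
    rw [mem_filter, mem_Icc]
    have := le_S w.1 w.2
    exact ⟨⟨by omega, hw.2.1⟩, hw.2.2⟩
  rw [card_eq_sum_card_fiberwise hmap]
  apply sum_congr rfl
  intro n hn
  rw [mem_filter, mem_Icc] at hn
  congr 1
  ext w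
  unfold Fb Aq
  rw [mem_filter, mem_filter, mem_filter, mem_product, mem_product, mem_range, mem_range, mem_Icc,
    mem_Icc]
  constructor
  · rintro ⟨⟨⟨h1, h2⟩, h3⟩, h4⟩
    have h5 := idx_lt_S h1 w.2
    exact ⟨⟨⟨⟨h1, by omega⟩, by omega⟩, by omega, by rw [h4]; exact hn.2⟩, h4⟩
  · rintro ⟨⟨⟨⟨h1, h2⟩, h3⟩, h4, h5⟩, h6⟩
    have h7 := idx_lt_S h1 w.2
    have h8 := le_S w.1 w.2
    exact ⟨⟨⟨h1, by omega⟩, by omega⟩, h6⟩

end Pool.Agent.helper306_moser
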