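import Pool.Agent.helper306_moser.Class

/-!
Block sums of consecutive primes and configurations in cells.
-/

open Finset

namespace Pool.Agent.helper306_moser

/-- The primes in increasing order, indexed from zero. -/
noncomputable def P (j : ℕ) : ℕ := Nat.nth Nat.Prime j

lemma P_prime (j : ℕ) : (P j).Prime := Nat.prime_nth_prime j

lemma P_strictMono : StrictMono P := Nat.nth_strictMono Nat.infinite_setOfPred_prime

lemma P_mono : Monotone P := P_strictMono.monotone

lemma exists_P {p : ℕ} (hp : p.Prime) : ∃ j, P j = p := ⟨Nat.count Nat.Prime p, Nat.nth_count hp⟩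

lemma lt_P (j : ℕ) : j < P j := by
  have := Nat.add_two_le_nth_prime j
  unfold P
  omega

/-- The sum of `l` consecutive primes starting with the one of index `i`. -/
noncomputable def S (l i : ℕ) : ℕ := ∑ r ∈ range l, P (i + r)

lemma S_strictMono {l : ℕ} (hl : 1 ≤ l) : StrictMono (S l) := by
  intro i j hij
  unfold S
  apply sum_lt_sum_of_nonempty
  · exact nonempty_range_iff.2 (by omega)
  · intro r _
    exact P_strictMono (by omega)

lemma mul_P_le_S (l i : ℕ) : l * P i ≤ S l i := by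
  unfold S
  calc l * P i = ∑ r ∈ range l, P i := by rw [sum_const, card_range, smul_eq_mul]
    _ ≤ _ := sum_le_sum (fun r _ => P_mono (by omega))

lemma S_le_mul_P {l : ℕ} (hl : 1 ≤ l) (i : ℕ) : S l i ≤ l * P (i + l - 1) := by
  unfold S
  calc ∑ r ∈ range l, P (i + r) ≤ ∑ r ∈ range l, P (i + l - 1) := by
        apply sum_le_sum
        intro r hr
        rw [mem_range] at hr
        exact P_mono (by omega)
    _ = _ := by rw [sum_const, card_range, smul_eq_mul]

/-- All blocks with at most `M` terms and sum below `2 ^ N`. -/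
noncomputable def Wd (N M : ℕ) : Finset (ℕ × ℕ) :=
  {w ∈ Icc 1 M ×ˢ range (2 ^ N) | S w.1 w.2 < 2 ^ N}

/-- The blocks with controlled span and not too small sum. -/
noncomputable def Gd (N C₁ M : ℕ) : Finset (ℕ × ℕ) :=
  {w ∈ Wd N M | N ^ 2 * 2 ^ (N / 2) ≤ S w.1 w.2 ∧ P (w.2 + w.1 - 1) ≤ P w.2 + C₁ * w.1 * N}

open scoped Classical in
/-- The good blocks whose sum is also the sum of a shorter good block. -/
noncomputable def Rp (N C₁ M : ℕ) : Finset (ℕ × ℕ) :=
  {w ∈ Gd N C₁ M | ∃ w' ∈ Gd N C₁ M, w'.1 < w.1 ∧ S w'.1 w'.2 = S w.1 w.2}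

open scoped Classical in
/-- A set of good blocks has few coincidences outside `Rp`. -/
lemma card_le_image (N C₁ M : ℕ) (A : Finset (ℕ × ℕ)) (hA : A ⊆ Gd N C₁ M) :
    #A ≤ #(A.image (fun w => S w.1 w.2)) + #(Rp N C₁ M) := by
  classical
  have h1 : #A ≤ #(A \ Rp N C₁ M) + #(Rp N C₁ M) := by
    have := card_le_card_sdiff_add_card (s := A) (t := Rp N C₁ M)
    omega
  have h2 : #(A \ Rp N C₁ M) ≤ #(A.image (fun w => S w.1 w.2)) := by
    have hinj : Set.InjOn (fun w : ℕ × ℕ => S w.1 w.2)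
        ((A \ Rp N C₁ M : Finset (ℕ × ℕ)) : Set (ℕ × ℕ)) := by
      intro w hw w' hw' he
      have hw := mem_sdiff.1 (mem_coe.1 hw)
      have hw' := mem_sdiff.1 (mem_coe.1 hw')
      simp only at he
      have g := hA hw.1
      have g' := hA hw'.1
      have hl : w.1 = w'.1 := by
        by_contra hne
        rcases lt_or_gt_of_ne hne with hlt | hlt
        · exact hw'.2 (mem_filter.2 ⟨g', w, g, hlt, he⟩)
        · exact hw.2 (mem_filter.2 ⟨g, w', g', hlt, he.symm⟩)
      have h1 : 1 ≤ w.1 := by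
        have := (mem_filter.1 (mem_filter.1 g).1).1
        rw [mem_product, mem_Icc] at this
        exact this.1.1
      refine Prod.ext hl ?_
      rw [← hl] at he
      exact (S_strictMono h1).injective he
    rw [← card_image_of_injOn hinj]
    exact card_le_card (image_subset_image sdiff_subset)
  omega

structure LinkHyp (N C₁ H G Q M W V : ℕ) : Prop where
  hM : 1 ≤ M
  hdiv : ∀ l ∈ Icc 1 M, l ∣ H * Q
  hGQ : ∀ l ∈ Icc 1 M, G ≤ H * Q / l
  hGC : C₁ * M * N ≤ G
  hH : 1 ≤ H
  hQ : 1 ≤ Q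
  hW : H + 2 * G + 2 ≤ W
  hX : M * (2 ^ (N / 2) + G) ≤ N ^ 2 * 2 ^ (N / 2)
  hHQ : H * Q ≤ N ^ 2 * 2 ^ (N / 2)
  hV : 2 ^ N < H * Q * (V + 1)

/-- The offset of the prime with index `j` in the row `l` of the cell `u`. -/
noncomputable def off (H G u l j : ℕ) : ℕ := P j - (H * u / l - G)

lemma good_bounds {N C₁ H G Q M W V : ℕ} (h : LinkHyp N C₁ H G Q M W V) {w : ℕ × ℕ}
    (hw : w ∈ Gd N C₁ M) {r : ℕ} (hr : r < w.1) :
    H * (S w.1 w.2 / H) / w.1 ≤ P (w.2 + r) + G ∧
    P (w.2 + r) < H * (S w.1 w.2 / H) / w.1 + H / w.1 + G + 2 ∧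
    2 ^ (N / 2) ≤ P (w.2 + r) := by
  obtain ⟨l, i⟩ := w
  simp only at hr ⊢
  have h1 := mem_filter.1 hw
  have h2 := mem_filter.1 h1.1
  rw [mem_product, mem_Icc] at h2
  simp only at h1 h2
  obtain ⟨h1a, hX, hspan⟩ := h1
  obtain ⟨⟨⟨hl1, hlM⟩, _⟩, hS⟩ := h2
  set u := S l i / H with hu
  have hl0 : 0 < l := hl1
  have hHu : H * u ≤ S l i := Nat.mul_div_le _ _
  have hHu2 : S l i < H * u + H := by
    have := Nat.lt_mul_div_succ (S l i) (show 0 < H by have := h.hH; omega)
    rw [mul_add, mul_one] at this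
    exact this
  have hPi : l * P i ≤ S l i := mul_P_le_S l i
  have hPl : S l i ≤ l * P (i + l - 1) := S_le_mul_P hl1 i
  have hm1 : P i ≤ P (i + r) := P_mono (by omega)
  have hm2 : P (i + r) ≤ P (i + l - 1) := P_mono (by omega)
  have hG1 : C₁ * l * N ≤ G := by
    refine le_trans ?_ h.hGC
    apply Nat.mul_le_mul_right
    exact Nat.mul_le_mul_left _ hlM
  refine ⟨?_, ?_, ?_⟩
  · -- lower
    have e1 : H * u ≤ l * (P (i + r) + G) := by
      calc H * u ≤ S l i := hHu
        _ ≤ l * P (i + l - 1) := hPl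
        _ ≤ l * (P (i + r) + G) := by
            apply Nat.mul_le_mul_left
            omega
    calc H * u / l ≤ l * (P (i + r) + G) / l := Nat.div_le_div_right e1
      _ = P (i + r) + G := Nat.mul_div_cancel_left _ hl0
  · -- upper
    have e1 : P (i + r) ≤ P i + G := by omega
    have e2 : P i ≤ (S l i) / l := by
      rw [Nat.le_div_iff_mul_le hl0, mul_comm]
      exact hPi
    have e3 : S l i / l ≤ (H * u + H) / l := Nat.div_le_div_right hHu2.le
    have e4 : (H * u + H) / l ≤ H * u / l + H / l + 1 := by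
      rw [Nat.add_div hl0]
      split_ifs <;> omega
    omega
  · -- size
    by_contra hcon
    push Not at hcon
    have e0 : P i < 2 ^ (N / 2) := lt_of_le_of_lt hm1 hcon
    have e1 : P (i + l - 1) < 2 ^ (N / 2) + G := by omega
    have e2 : S l i < l * (2 ^ (N / 2) + G) :=
      lt_of_le_of_lt hPl (Nat.mul_lt_mul_of_pos_left e1 hl0)
    have e3 : l * (2 ^ (N / 2) + G) ≤ M * (2 ^ (N / 2) + G) := Nat.mul_le_mul_right _ hlM
    have := h.hX
    omega

lemma av_off {N C₁ H G Q M W V : ℕ} (h : LinkHyp N C₁ H G Q M W V) {w : ℕ × ℕ}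
    (hw : w ∈ Gd N C₁ M) {r : ℕ} (hr : r < w.1) :
    av H G (S w.1 w.2 / H) (w.1, off H G (S w.1 w.2 / H) w.1 (w.2 + r)) = P (w.2 + r) := by
  have := (good_bounds h hw hr).1
  unfold av off
  simp only
  omega

/-- The block of the configuration attached to a good block of primes. -/
noncomputable def blk (H G : ℕ) (w : ℕ × ℕ) : Finset (ℕ × ℕ) :=
  (range w.1).image (fun r => (w.1, off H G (S w.1 w.2 / H) w.1 (w.2 + r)))

lemma off_lt {N C₁ H G Q M W V : ℕ} (h : LinkHyp N C₁ H G Q M W V) {w : ℕ × ℕ}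
    (hw : w ∈ Gd N C₁ M) {r r' : ℕ} (hr' : r' < w.1) (hrr : r < r') :
    off H G (S w.1 w.2 / H) w.1 (w.2 + r) < off H G (S w.1 w.2 / H) w.1 (w.2 + r') := by
  have h1 := (good_bounds h hw (hrr.trans hr')).1
  have h2 : P (w.2 + r) < P (w.2 + r') := P_strictMono (by omega)
  unfold off
  omega

lemma off_le {N C₁ H G Q M W V : ℕ} (h : LinkHyp N C₁ H G Q M W V) {w : ℕ × ℕ}
    (hw : w ∈ Gd N C₁ M) {r r' : ℕ} (hr' : r' < w.1) (hrr : r ≤ r') :
    off H G (S w.1 w.2 / H) w.1 (w.2 + r) ≤ off H G (S w.1 w.2 / H) w.1 (w.2 + r') := by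
  rcases eq_or_lt_of_le hrr with h1 | h1
  · rw [h1]
  · exact (off_lt h hw hr' h1).le

lemma blk_isWin {N C₁ H G Q M W V : ℕ} (h : LinkHyp N C₁ H G Q M W V) {w : ℕ × ℕ}
    (hw : w ∈ Gd N C₁ M) :
    IsWin (cfg H G M W N (S w.1 w.2 / H))
      (w.1, off H G (S w.1 w.2 / H) w.1 (w.2 + (w.1 - 1))) (blk H G w) := by
  have hl := mem_filter.1 (mem_filter.1 hw).1
  rw [mem_product, mem_Icc] at hl
  have hl1 : 1 ≤ w.1 := hl.1.1.1
  have hlM : w.1 ≤ M := hl.1.1.2
  refine ⟨?_, ?_, ?_, ?_, ?_, ?_⟩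
  · intro x hx
    unfold blk at hx
    rw [mem_image] at hx
    obtain ⟨r, hr, rfl⟩ := hx
    rw [mem_range] at hr
    have hb := good_bounds h hw hr
    have hav := av_off h hw hr
    unfold cfg
    rw [mem_filter, mem_product, mem_Icc, mem_range]
    simp only
    have hlt : off H G (S w.1 w.2 / H) w.1 (w.2 + r) < H / w.1 + 2 * G + 2 := by
      unfold off
      omega
    have hHl : H / w.1 ≤ H := Nat.div_le_self _ _
    have hW := h.hW
    refine ⟨⟨⟨hl1, hlM⟩, by omega⟩, hlt, ?_, ?_⟩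
    · rw [hav]; exact P_prime _
    · rw [hav]; exact hb.2.2
  · unfold blk
    rw [mem_image]
    exact ⟨w.1 - 1, mem_range.2 (by omega), rfl⟩
  · unfold blk
    rw [card_image_of_injOn, card_range]
    intro r hr r' hr' he
    have hr := mem_range.1 (mem_coe.1 hr)
    have hr' := mem_range.1 (mem_coe.1 hr')
    simp only [Prod.mk.injEq, true_and] at he
    rcases lt_trichotomy r r' with h1 | h1 | h1
    · have := off_lt h hw hr' h1
      omega
    · exact h1
    · have := off_lt h hw hr h1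
      omega
  · intro x hx
    unfold blk at hx
    rw [mem_image] at hx
    obtain ⟨r, hr, rfl⟩ := hx
    rfl
  · intro x hx
    unfold blk at hx
    rw [mem_image] at hx
    obtain ⟨r, hr, rfl⟩ := hx
    rw [mem_range] at hr
    exact off_le h hw (by omega) (by omega)
  · intro t ht ht1 ht2 htn x hx
    unfold blk at hx
    rw [mem_image] at hx
    obtain ⟨r, hr, rfl⟩ := hx
    rw [mem_range] at hr
    simp only at ht1 ht2 ⊢
    unfold cfg at ht
    rw [mem_filter] at ht
    obtain ⟨j, hj⟩ := exists_P ht.2.2.1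
    have hlast := av_off h hw (show w.1 - 1 < w.1 by omega)
    have hr0 := av_off h hw hr
    -- the value of t
    have htv : av H G (S w.1 w.2 / H) t = H * (S w.1 w.2 / H) / w.1 - G + t.2 := by
      unfold av
      rw [ht1]
    have hlv : P (w.2 + (w.1 - 1)) = H * (S w.1 w.2 / H) / w.1 - G +
        off H G (S w.1 w.2 / H) w.1 (w.2 + (w.1 - 1)) := by
      rw [← hlast]
      rfl
    have hrv : P (w.2 + r) = H * (S w.1 w.2 / H) / w.1 - G +
        off H G (S w.1 w.2 / H) w.1 (w.2 + r) := by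
      rw [← hr0]
      rfl
    have hj1 : P j ≤ P (w.2 + (w.1 - 1)) := by omega
    have hj2 : j ≤ w.2 + (w.1 - 1) := P_strictMono.le_iff_le.1 hj1
    have hj3 : j < w.2 := by
      by_contra hcon
      push Not at hcon
      apply htn
      unfold blk
      rw [mem_image]
      refine ⟨j - w.2, mem_range.2 (by omega), ?_⟩
      refine Prod.ext ht1.symm ?_
      simp only
      have e : w.2 + (j - w.2) = j := by omega
      rw [e]
      unfold off
      omega
    have hj4 : P j < P (w.2 + r) := P_strictMono (by omega)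
    omega

lemma sum_blk {N C₁ H G Q M W V : ℕ} (h : LinkHyp N C₁ H G Q M W V) {w : ℕ × ℕ}
    (hw : w ∈ Gd N C₁ M) :
    ∑ x ∈ blk H G w, av H G (S w.1 w.2 / H) x = S w.1 w.2 := by
  unfold blk
  rw [sum_image]
  · rw [show S w.1 w.2 = ∑ r ∈ range w.1, P (w.2 + r) from rfl]
    apply sum_congr rfl
    intro r hr
    rw [mem_range] at hr
    exact av_off h hw hr
  · intro r hr r' hr' he
    have hr := mem_range.1 (mem_coe.1 hr)
    have hr' := mem_range.1 (mem_coe.1 hr')
    simp only [Prod.mk.injEq, true_and] at he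
    rcases lt_trichotomy r r' with h1 | h1 | h1
    · have := off_lt h hw hr' h1
      omega
    · exact h1
    · have := off_lt h hw hr h1
      omega

end Pool.Agent.helper306_moser
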