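import Pool.Agent.helper306_moser.Pairs

/-!
Many blocks of consecutive primes with sum in a given residue class.
-/

open Finset

namespace Pool.Agent.helper306_moser

lemma eventually_le (f : ℕ → ℝ) (K : ℝ) (h : Filter.Tendsto f Filter.atTop Filter.atTop) :
    ∃ n₀ : ℕ, ∀ n : ℕ, n₀ ≤ n → K ≤ f n :=
  Filter.eventually_atTop.1 (h.eventually_ge_atTop K)

/-- Chebyshev's lower bound. -/
lemma cheb_lower : ∃ y₀ : ℕ, ∀ y : ℕ, y₀ ≤ y →
    1 / 2 * (y / Real.log y) ≤ (Nat.primeCounting' y : ℝ) := by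
  -- log y / y tends to zero
  have h0 : Filter.Tendsto (fun y : ℕ => Real.log (y : ℝ) / y) Filter.atTop (nhds 0) := by
    have h1 := Real.isLittleO_log_id_atTop.tendsto_div_nhds_zero
    exact h1.comp tendsto_natCast_atTop_atTop
  obtain ⟨y₁, hy₁⟩ := Filter.eventually_atTop.1 (h0.eventually (gt_mem_nhds
    (show (0 : ℝ) < 1 / 30 by norm_num)))
  refine ⟨max y₁ 30, fun y hy => ?_⟩
  have h1 := hy₁ y ((le_max_left _ _).trans hy)
  have h30 : 30 ≤ y := (le_max_right _ _).trans hy
  have hyr : (30 : ℝ) ≤ y := by exact_mod_cast h30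
  have hy0 : (0 : ℝ) < y := by linarith
  have hlog : 0 < Real.log y := Real.log_pos (by linarith)
  rw [div_lt_iff₀ hy0] at h1
  have h2 := Chebyshev.pi_ge y
  have h3 : (Nat.primeCounting y : ℝ) ≤ Nat.primeCounting' y + 1 := by
    have : Nat.primeCounting y ≤ Nat.primeCounting' y + 1 := by
      unfold Nat.primeCounting Nat.primeCounting'
      rw [Nat.count_succ]
      split_ifs <;> omega
    exact_mod_cast this
  have h4 : Real.log (y + 1) ≤ Real.log y + 1 := by
    have : Real.log (y + 1) ≤ Real.log (2 * y) := Real.log_le_log (by linarith) (by linarith)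
    rw [Real.log_mul (by norm_num) (by linarith)] at this
    have h5 := Real.log_two_lt_d9
    linarith
  have h5 := Real.log_two_gt_d9
  have h6 : (y * Real.log 2 - Real.log (y + 1)) / Real.log y ≤ Nat.primeCounting' y + 1 :=
    h2.trans h3
  rw [div_le_iff₀ hlog] at h6
  rw [← mul_div_assoc, div_le_iff₀ hlog]
  nlinarith

open scoped Classical in
/-- All blocks with at most `M` terms, sum below `x`, and sum congruent to `a` modulo `q`. -/
noncomputable def Bl (q a x M : ℕ) : Finset (ℕ × ℕ) :=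
  {w ∈ Icc 1 M ×ˢ range x | S w.1 w.2 < x ∧ S w.1 w.2 ≡ a [MOD q]}

theorem many_blocks (q a : ℕ) (hq : 1 ≤ q) (h : Star q q) : ∃ c : ℝ, 0 < c ∧ ∃ M₀ x₀ : ℕ,
    ∀ x : ℕ, x₀ ≤ x → ∀ M : ℕ, M₀ ≤ M → M ^ 4 ≤ x →
      c * (x / Real.log x * Real.log M) ≤ #(Bl q a x M) := by
  classical
  obtain ⟨c, hc, hc1, L₀', Z₀, hpairs⟩ := pairs q a hq h
  obtain ⟨y₀, hy₀⟩ := cheb_lower
  set L₀ := L₀' + 1 with hL₀
  obtain ⟨R', hR'⟩ := exists_nat_gt (1 / c)
  set R := R' + 2 with hR
  have hR2 : 2 ≤ R := by omega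
  have hRr : (2 : ℝ) ≤ R := by exact_mod_cast hR2
  have hcR : 1 < c * R := by
    have h1 : (R' : ℝ) < R := by exact_mod_cast (show R' < R by omega)
    have h2 : 1 / c < (R : ℝ) := lt_trans hR' h1
    rw [div_lt_iff₀ hc] at h2
    linarith
  have hlogR : 0 < Real.log R := Real.log_pos (by linarith)
  -- conditions on x
  have ht1 : Filter.Tendsto (fun x : ℕ => Real.sqrt (x : ℝ) / Real.log x) Filter.atTop
      Filter.atTop := by
    have h1 : Filter.Tendsto (fun t : ℝ => Real.exp t / t ^ 1) Filter.atTop Filter.atTop :=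
      Real.tendsto_exp_div_pow_atTop 1
    have h2 : Filter.Tendsto (fun x : ℕ => Real.log (x : ℝ) / 2) Filter.atTop Filter.atTop :=
      (Real.tendsto_log_atTop.comp tendsto_natCast_atTop_atTop).atTop_div_const (by norm_num)
    have h3 := (h1.comp h2).atTop_div_const (show (0 : ℝ) < 2 by norm_num)
    refine Filter.Tendsto.congr' ?_ h3
    filter_upwards [Filter.eventually_ge_atTop 2] with x hx
    have hx0 : (0 : ℝ) < x := by
      have : 0 < x := by omega
      exact_mod_cast this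
    simp only [Function.comp, pow_one]
    have e1 : Real.exp (Real.log x / 2) = Real.sqrt x := by
      rw [Real.sqrt_eq_rpow, Real.rpow_def_of_pos hx0]
      congr 1
      ring
    rw [e1]
    field_simp
  obtain ⟨x₁, hx₁⟩ := eventually_le _ (8 * (Z₀ + 1 : ℝ)) ht1
  refine ⟨c / 4 * (1 / (2 * Real.log R)), by positivity, L₀ ^ 2 * R ^ 2, max x₁ ((2 * y₀ + 10) ^ 4),
    ?_⟩
  intro x hx M hM hMx
  have hxx₁ : x₁ ≤ x := (le_max_left _ _).trans hx
  have hxy : (2 * y₀ + 10) ^ 4 ≤ x := (le_max_right _ _).trans hx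
  have hx10 : 10 ≤ x := by
    calc 10 ≤ 2 * y₀ + 10 := by omega
      _ = (2 * y₀ + 10) ^ 1 := (pow_one _).symm
      _ ≤ (2 * y₀ + 10) ^ 4 := Nat.pow_le_pow_right (by omega) (by norm_num)
      _ ≤ x := hxy
  have hxr : (10 : ℝ) ≤ x := by exact_mod_cast hx10
  have hlogx : 0 < Real.log x := Real.log_pos (by linarith)
  have hMpos : 1 ≤ M := le_trans (Nat.pos_of_ne_zero (by positivity)) hM
  have hsq := hx₁ x hxx₁
  rw [le_div_iff₀ hlogx] at hsq
  -- the scales
  set I := Nat.log R (M / L₀) with hI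
  have hML₀ : L₀ ≤ M := by
    refine le_trans ?_ hM
    calc L₀ = L₀ * 1 := (mul_one _).symm
      _ ≤ L₀ * (L₀ * R ^ 2) := Nat.mul_le_mul_left _ (Nat.pos_of_ne_zero (by positivity))
      _ = L₀ ^ 2 * R ^ 2 := by ring
  have hscale : ∀ i ∈ range (I + 1), L₀ * R ^ i ≤ M := by
    intro i hi
    rw [mem_range] at hi
    have h1 : R ^ i ≤ M / L₀ := by
      apply Nat.pow_le_of_le_log
      · have : 1 ≤ M / L₀ := by
          rw [Nat.le_div_iff_mul_le (by omega)]
          omega
        omega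
      · omega
    rw [Nat.le_div_iff_mul_le (by omega)] at h1
    linarith
  -- Chebyshev at each scale
  have hZ : ∀ i ∈ range (I + 1), 1 / 4 * (x / ((L₀ * R ^ i : ℕ) * Real.log x)) ≤
      (Nat.primeCounting' (x / (L₀ * R ^ i)) : ℝ) := by
    intro i hi
    have hLM := hscale i hi
    set L := L₀ * R ^ i with hL
    have hL0 : 0 < L := by positivity
    have hLr : (0 : ℝ) < L := by exact_mod_cast hL0
    set y := x / L with hy
    -- y is large
    have hyM : (2 * y₀ + 10) ≤ y := by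
      rw [hy, Nat.le_div_iff_mul_le hL0]
      by_contra hcon
      push Not at hcon
      have h1 : x ^ 2 < ((2 * y₀ + 10) * L) ^ 2 := Nat.pow_lt_pow_left hcon (by norm_num)
      have h2 : ((2 * y₀ + 10) * L) ^ 4 ≤ x * x := by
        rw [mul_pow]
        exact Nat.mul_le_mul hxy (le_trans (Nat.pow_le_pow_left hLM 4) hMx)
      have h3 : (x ^ 2) ^ 2 < ((2 * y₀ + 10) * L) ^ 4 := by
        calc (x ^ 2) ^ 2 < (((2 * y₀ + 10) * L) ^ 2) ^ 2 := Nat.pow_lt_pow_left h1 (by norm_num)
          _ = _ := by ring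
      have h4 : x * x ≤ (x ^ 2) ^ 2 := by
        calc x * x = x ^ 2 := by ring
          _ = (x ^ 2) ^ 1 := (pow_one _).symm
          _ ≤ (x ^ 2) ^ 2 := Nat.pow_le_pow_right (by positivity) (by norm_num)
      omega
    have hy10 : (10 : ℝ) ≤ y := by
      have : 10 ≤ y := by omega
      exact_mod_cast this
    have h1 := hy₀ y (by omega)
    refine le_trans ?_ h1
    have hlogy : 0 < Real.log y := Real.log_pos (by linarith)
    have hyx : (y : ℝ) ≤ x := by exact_mod_cast Nat.div_le_self _ _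
    have hlog : Real.log y ≤ Real.log x := Real.log_le_log (by linarith) hyx
    have h2 : (x : ℝ) / L ≤ 2 * y := by
      rw [div_le_iff₀ hLr]
      have h3 : x < L * (y + 1) := Nat.lt_mul_div_succ x hL0
      have h4 : (x : ℝ) < L * (y + 1) := by exact_mod_cast h3
      nlinarith
    calc 1 / 4 * ((x : ℝ) / (L * Real.log x)) = 1 / 4 * (x / L) / Real.log x := by
          field_simp
      _ ≤ 1 / 4 * (2 * y) / Real.log x := by
          apply div_le_div_of_nonneg_right _ hlogx.le
          linarith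
      _ ≤ 1 / 4 * (2 * y) / Real.log y := by
          apply div_le_div_of_nonneg_left _ hlogy hlog
          positivity
      _ = 1 / 2 * (y / Real.log y) := by ring
  -- the number of blocks at each scale
  have hW : ∀ i ∈ range (I + 1), c / 4 * (x / Real.log x) ≤
      #(Wq q a (Nat.primeCounting' (x / (L₀ * R ^ i))) (L₀ * R ^ i) c) := by
    intro i hi
    have hLM := hscale i hi
    have hZi := hZ i hi
    set L := L₀ * R ^ i with hL
    have hL0 : 0 < L := by positivity
    have hLr : (0 : ℝ) < L := by exact_mod_cast hL0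
    set Z := Nat.primeCounting' (x / L) with hZdef
    have hL₀L : L₀ ≤ L := Nat.le_mul_of_pos_right _ (by positivity)
    -- Z is at least L * (Z₀ + 1)
    have hL2 : (L : ℝ) ^ 2 ≤ Real.sqrt x := by
      apply Real.le_sqrt_of_sq_le
      have : L ^ 4 ≤ x := le_trans (Nat.pow_le_pow_left hLM 4) hMx
      have h1 : (L : ℝ) ^ 4 ≤ x := by exact_mod_cast this
      have e1 : ((L : ℝ) ^ 2) ^ 2 = (L : ℝ) ^ 4 := by ring
      rw [e1]
      exact h1
    have hLZ : (L : ℝ) * (Z₀ + 1) ≤ Z := by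
      refine le_trans ?_ hZi
      have h1 : (L : ℝ) * (Z₀ + 1) * (4 * (L * Real.log x)) ≤ x := by
        calc (L : ℝ) * (Z₀ + 1) * (4 * (L * Real.log x)) =
              (L : ℝ) ^ 2 * (4 * (Z₀ + 1) * Real.log x) := by ring
          _ ≤ Real.sqrt x * (4 * (Z₀ + 1) * Real.log x) := by
              apply mul_le_mul_of_nonneg_right hL2 (by positivity)
          _ ≤ Real.sqrt x * Real.sqrt x := by
              apply mul_le_mul_of_nonneg_left _ (Real.sqrt_nonneg _)
              have : (0 : ℝ) ≤ (Z₀ + 1) * Real.log x := by positivity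
              linarith
          _ = x := Real.mul_self_sqrt (by linarith)
      have e1 : 1 / 4 * ((x : ℝ) / (L * Real.log x)) = x / (4 * (L * Real.log x)) := by
        field_simp
      rw [e1, le_div_iff₀ (by positivity)]
      exact h1
    have hLZ' : L ≤ Z := by
      have h1 : (L : ℝ) ≤ Z := by
        refine le_trans ?_ hLZ
        have : (0 : ℝ) ≤ L * Z₀ := by positivity
        nlinarith
      exact_mod_cast h1
    have hZ₀Z : Z₀ ≤ Z := by
      have h1 : (Z₀ : ℝ) ≤ Z := by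
        refine le_trans ?_ hLZ
        have h2 : (1 : ℝ) ≤ L := by exact_mod_cast hL0
        have : (0 : ℝ) ≤ Z₀ := Nat.cast_nonneg _
        nlinarith
      exact_mod_cast h1
    have h1 := hpairs Z hZ₀Z L (by omega) hLZ'
    refine le_trans ?_ h1
    have h2 : c * (L * (1 / 4 * ((x : ℝ) / (L * Real.log x)))) = c / 4 * (x / Real.log x) := by
      field_simp
    rw [← h2]
    apply mul_le_mul_of_nonneg_left _ hc.le
    exact mul_le_mul_of_nonneg_left hZi hLr.le
  -- union
  have hdisj : ∀ i ∈ range (I + 1), ∀ i' ∈ range (I + 1), i ≠ i' →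
      Disjoint (Wq q a (Nat.primeCounting' (x / (L₀ * R ^ i))) (L₀ * R ^ i) c)
        (Wq q a (Nat.primeCounting' (x / (L₀ * R ^ i'))) (L₀ * R ^ i') c) := by
    have key : ∀ i i' : ℕ, i < i' →
      Disjoint (Wq q a (Nat.primeCounting' (x / (L₀ * R ^ i))) (L₀ * R ^ i) c)
        (Wq q a (Nat.primeCounting' (x / (L₀ * R ^ i'))) (L₀ * R ^ i') c) := by
      intro i i' hii
      rw [Finset.disjoint_left]
      intro w hw hw'
      unfold Wq at hw hw'
      rw [mem_filter, mem_product, mem_Icc] at hw hw'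
      have h1 : (w.1 : ℝ) ≤ ((L₀ * R ^ i : ℕ) : ℝ) := by exact_mod_cast hw.1.1.2
      have h2 := hw'.2.1
      have h3 : ((L₀ * R ^ i * R : ℕ) : ℝ) ≤ ((L₀ * R ^ i' : ℕ) : ℝ) := by
        have : L₀ * R ^ i * R ≤ L₀ * R ^ i' := by
          rw [mul_assoc, ← pow_succ]
          apply Nat.mul_le_mul_left
          exact Nat.pow_le_pow_right (by omega) (by omega)
        exact_mod_cast this
      have h4 : (0 : ℝ) < ((L₀ * R ^ i : ℕ) : ℝ) := by
        have : 0 < L₀ * R ^ i := by positivity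
        exact_mod_cast this
      have h5 : ((L₀ * R ^ i * R : ℕ) : ℝ) = ((L₀ * R ^ i : ℕ) : ℝ) * R := by push_cast; ring
      rw [h5] at h3
      have h6 : ((L₀ * R ^ i : ℕ) : ℝ) < c * (((L₀ * R ^ i : ℕ) : ℝ) * R) := by
        have : ((L₀ * R ^ i : ℕ) : ℝ) * 1 < ((L₀ * R ^ i : ℕ) : ℝ) * (c * R) :=
          mul_lt_mul_of_pos_left hcR h4
        linarith
      have h7 : c * (((L₀ * R ^ i : ℕ) : ℝ) * R) ≤ c * ((L₀ * R ^ i' : ℕ) : ℝ) :=
        mul_le_mul_of_nonneg_left h3 hc.le
      linarith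
    intro i _ i' _ hne
    rcases lt_or_gt_of_ne hne with h1 | h1
    · exact key i i' h1
    · exact (key i' i h1).symm
  have hsub : (range (I + 1)).biUnion
      (fun i => Wq q a (Nat.primeCounting' (x / (L₀ * R ^ i))) (L₀ * R ^ i) c) ⊆ Bl q a x M := by
    intro w hw
    rw [mem_biUnion] at hw
    obtain ⟨i, hi, hw⟩ := hw
    have hLM := hscale i hi
    unfold Wq at hw
    unfold Bl
    rw [mem_filter, mem_product, mem_Icc, mem_range] at hw
    rw [mem_filter, mem_product, mem_Icc, mem_range]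
    obtain ⟨⟨⟨h1, h2⟩, h3⟩, h4, h5, h6⟩ := hw
    have hL0 : 0 < L₀ * R ^ i := by positivity
    have hP : P (w.2 + w.1 - 1) < x / (L₀ * R ^ i) := by
      have h7 : w.2 + w.1 - 1 < Nat.primeCounting' (x / (L₀ * R ^ i)) := by omega
      exact Nat.nth_lt_of_lt_count h7
    have hS : S w.1 w.2 < x := by
      calc S w.1 w.2 ≤ w.1 * P (w.2 + w.1 - 1) := S_le_mul_P h1 _
        _ ≤ (L₀ * R ^ i) * P (w.2 + w.1 - 1) := Nat.mul_le_mul_right _ h2
        _ < (L₀ * R ^ i) * (x / (L₀ * R ^ i)) := Nat.mul_lt_mul_of_pos_left hP hL0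
        _ ≤ x := Nat.mul_div_le _ _
    refine ⟨⟨⟨h1, by omega⟩, ?_⟩, hS, h6⟩
    have h8 : P w.2 ≤ S w.1 w.2 := by
      calc P w.2 = 1 * P w.2 := (one_mul _).symm
        _ ≤ w.1 * P w.2 := Nat.mul_le_mul_right _ h1
        _ ≤ _ := mul_P_le_S _ _
    have := lt_P w.2
    omega
  have hcard := card_le_card hsub
  rw [card_biUnion hdisj] at hcard
  -- number of scales
  have hIlog : Real.log M ≤ 2 * Real.log R * (I + 1) := by
    have h1 : M / L₀ < R ^ (I + 1) := Nat.lt_pow_succ_log_self (by omega) _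
    have h2 : M < L₀ * R ^ (I + 1) := by
      rw [Nat.div_lt_iff_lt_mul (by omega)] at h1
      linarith
    have h3 : (M : ℝ) ^ 2 ≤ M * ((R : ℝ) ^ (I + 1)) ^ 2 := by
      have h4 : L₀ ^ 2 ≤ M := by
        refine le_trans ?_ hM
        exact Nat.le_mul_of_pos_right _ (by positivity)
      have h5 : M ^ 2 ≤ M * (R ^ (I + 1)) ^ 2 := by
        calc M ^ 2 ≤ (L₀ * R ^ (I + 1)) ^ 2 := Nat.pow_le_pow_left h2.le 2
          _ = L₀ ^ 2 * (R ^ (I + 1)) ^ 2 := by ring
          _ ≤ M * (R ^ (I + 1)) ^ 2 := Nat.mul_le_mul_right _ h4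
      exact_mod_cast h5
    have hM0 : (0 : ℝ) < M := by exact_mod_cast hMpos
    have h6 : (M : ℝ) ≤ ((R : ℝ) ^ (I + 1)) ^ 2 := by
      have : (M : ℝ) * M ≤ M * ((R : ℝ) ^ (I + 1)) ^ 2 := by
        calc (M : ℝ) * M = (M : ℝ) ^ 2 := by ring
          _ ≤ _ := h3
      exact le_of_mul_le_mul_left this hM0
    have h7 := Real.log_le_log hM0 h6
    rw [← pow_mul, Real.log_pow] at h7
    push_cast at h7
    linarith
  have hcard' : ((I : ℝ) + 1) * (c / 4 * (x / Real.log x)) ≤ #(Bl q a x M) := by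
    have h1 : ∑ i ∈ range (I + 1), c / 4 * ((x : ℝ) / Real.log x) ≤
        ∑ i ∈ range (I + 1),
          (#(Wq q a (Nat.primeCounting' (x / (L₀ * R ^ i))) (L₀ * R ^ i) c) : ℝ) :=
      sum_le_sum hW
    rw [sum_const, card_range, nsmul_eq_mul] at h1
    push_cast at h1
    refine h1.trans ?_
    exact_mod_cast hcard
  refine le_trans ?_ hcard'
  have hXx : 0 < (x : ℝ) / Real.log x := by positivity
  have h1 : Real.log M / (2 * Real.log R) ≤ I + 1 := by
    rw [div_le_iff₀ (by positivity)]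
    linarith
  calc c / 4 * (1 / (2 * Real.log R)) * ((x : ℝ) / Real.log x * Real.log M)
      = Real.log M / (2 * Real.log R) * (c / 4 * (x / Real.log x)) := by ring
    _ ≤ (I + 1) * (c / 4 * (x / Real.log x)) :=
        mul_le_mul_of_nonneg_right h1 (by positivity)

end Pool.Agent.helper306_moser
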