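import Pool.Agent.helper306_moser.Conv

/-!
The mean value of the number of representations in a residue class is bounded below.
-/

open Finset

namespace Pool.Agent.helper306_moser

open scoped Classical in
lemma bl_le_sum (q a x M : ℕ) :
    #(Bl q a x M) ≤ ∑ n ∈ Icc 1 x with n ≡ a [MOD q], #(Fb n n) := by
  classical
  have hmap : ∀ w ∈ Bl q a x M, S w.1 w.2 ∈ {n ∈ Icc 1 x | n ≡ a [MOD q]} := by
    intro w hw
    unfold Bl at hw
    rw [mem_filter, mem_product, mem_Icc] at hw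
    rw [mem_filter, mem_Icc]
    have := le_S w.1 w.2
    exact ⟨⟨by omega, by omega⟩, hw.2.2⟩
  rw [card_eq_sum_card_fiberwise hmap]
  apply sum_le_sum
  intro n _
  apply card_le_card
  intro w hw
  rw [mem_filter] at hw
  have hw' := hw.1
  unfold Bl at hw'
  rw [mem_filter, mem_product, mem_Icc] at hw'
  unfold Fb
  rw [mem_filter, mem_product, mem_Icc, mem_range]
  have h1 := le_S w.1 w.2
  have h2 := idx_lt_S hw'.1.1.1 w.2
  exact ⟨⟨⟨hw'.1.1.1, by omega⟩, by omega⟩, hw.2⟩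

open scoped Classical in
theorem mean_lower (q a : ℕ) (hq : 1 ≤ q) : ∃ c : ℝ, 0 < c ∧ ∃ x₀ : ℕ, ∀ x : ℕ, x₀ ≤ x →
    c * x ≤ ∑ n ∈ Icc 1 x with n ≡ a [MOD q], (#(Fb n n) : ℝ) := by
  classical
  obtain ⟨c, hc, M₀, x₁, hmany⟩ := many_blocks q a hq (star q q hq hq)
  refine ⟨c / 8, by positivity, max x₁ ((M₀ + 3) ^ 4), fun x hx => ?_⟩
  have hx1 : x₁ ≤ x := (le_max_left _ _).trans hx
  have hx2 : (M₀ + 3) ^ 4 ≤ x := (le_max_right _ _).trans hx
  set s := Nat.sqrt x with hs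
  set M := Nat.sqrt s with hM
  have e1 : s * s ≤ x := Nat.sqrt_le x
  have e2 : x < (s + 1) * (s + 1) := Nat.lt_succ_sqrt x
  have e3 : M * M ≤ s := Nat.sqrt_le s
  have e4 : s < (M + 1) * (M + 1) := Nat.lt_succ_sqrt s
  have hM4 : M ^ 4 ≤ x := by
    calc M ^ 4 = (M * M) * (M * M) := by ring
      _ ≤ s * s := Nat.mul_le_mul e3 e3
      _ ≤ x := e1
  have hM4' : x < (M + 1) ^ 4 := by
    calc x < (s + 1) * (s + 1) := e2
      _ ≤ ((M + 1) * (M + 1)) * ((M + 1) * (M + 1)) := Nat.mul_le_mul e4 e4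
      _ = (M + 1) ^ 4 := by ring
  have hMM : M₀ + 3 ≤ M := by
    have h1 : (M₀ + 3) ^ 4 < (M + 1) ^ 4 := lt_of_le_of_lt hx2 hM4'
    have h2 := lt_of_pow_lt_pow_left₀ 4 (by omega) h1
    omega
  have hMr : (3 : ℝ) ≤ M := by
    have : 3 ≤ M := by omega
    exact_mod_cast this
  have hx3 : 81 ≤ x := by
    calc 81 = 3 ^ 4 := by norm_num
      _ ≤ M ^ 4 := Nat.pow_le_pow_left (by omega) 4
      _ ≤ x := hM4
  have hxr : (81 : ℝ) ≤ x := by exact_mod_cast hx3
  have hlogx : 0 < Real.log x := Real.log_pos (by linarith)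
  have hlog : Real.log x ≤ 8 * Real.log M := by
    have h1 : (x : ℝ) ≤ ((M : ℝ) ^ 2) ^ 4 := by
      have h2 : x ≤ (M ^ 2) ^ 4 := by
        refine hM4'.le.trans (Nat.pow_le_pow_left ?_ 4)
        nlinarith
      exact_mod_cast h2
    have h3 := Real.log_le_log (by linarith) h1
    rw [← pow_mul, Real.log_pow] at h3
    push_cast at h3
    linarith
  have h1 := hmany x hx1 M (by omega) hM4
  have h2 : (#(Bl q a x M) : ℝ) ≤ ∑ n ∈ Icc 1 x with n ≡ a [MOD q], (#(Fb n n) : ℝ) := by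
    exact_mod_cast bl_le_sum q a x M
  refine le_trans ?_ (h1.trans h2)
  calc c / 8 * x = c * (x / Real.log x * (Real.log x / 8)) := by
        field_simp
    _ ≤ c * (x / Real.log x * Real.log M) := by
        apply mul_le_mul_of_nonneg_left _ hc.le
        apply mul_le_mul_of_nonneg_left _ (by positivity)
        linarith

end Pool.Agent.helper306_moser
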