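import Pool.Agent.helper306_moser.Link

/-!
Blocks of consecutive primes whose sum lies in a given residue class.
-/

open Finset

namespace Pool.Agent.helper306_moser

open scoped Classical in
/-- The indices `j < Z` such that the primes of index `j, ..., j + k` are congruent modulo `q`. -/
noncomputable def Jst (q k Z : ℕ) : Finset ℕ :=
  (range Z).filter (fun j => ∀ i ≤ k, P (j + i) % q = P j % q)

lemma mem_Jst {q k Z j : ℕ} : j ∈ Jst q k Z ↔ j < Z ∧ ∀ i ≤ k, P (j + i) % q = P j % q := by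
  classical
  unfold Jst
  rw [mem_filter, mem_range]

/-- A positive proportion of the primes start a string of `k + 1` consecutive primes which are
congruent modulo `q`. -/
def Star (q k : ℕ) : Prop := ∃ σ : ℝ, 0 < σ ∧ ∃ Z₀ : ℕ, ∀ Z : ℕ, Z₀ ≤ Z → σ * Z ≤ #(Jst q k Z)

/-- Blocks with length between `c₂ L` and `L`, inside the first `Z` primes, with sum congruent to
`a` modulo `q`. -/
noncomputable def Wq (q a Z L : ℕ) (c₂ : ℝ) : Finset (ℕ × ℕ) :=
  {w ∈ Icc 1 L ×ˢ range Z | c₂ * L ≤ w.1 ∧ w.2 + w.1 ≤ Z ∧ S w.1 w.2 ≡ a [MOD q]}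

lemma S_add (l t x : ℕ) : S (l + t) x = S l x + S t (x + l) := by
  unfold S
  rw [sum_range_add]
  congr 1
  apply sum_congr rfl
  intro r _
  rw [add_assoc]

lemma S_string {q k Z y t : ℕ} (hy : y ∈ Jst q k Z) (ht : t ≤ k + 1) :
    S t y ≡ t * P y [MOD q] := by
  rw [mem_Jst] at hy
  unfold S
  have h : ∀ r ∈ range t, P (y + r) ≡ P y [MOD q] := by
    intro r hr
    rw [mem_range] at hr
    exact hy.2 r (by omega)
  calc ∑ r ∈ range t, P (y + r) ≡ ∑ r ∈ range t, P y [MOD q] := by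
        clear ht
        induction t with
        | zero => rfl
        | succ n ih =>
          rw [sum_range_succ, sum_range_succ]
          exact Nat.ModEq.add (ih (fun r hr => h r (mem_range.2 (by
            have := mem_range.1 hr; omega)))) (h n (mem_range.2 (by omega)))
    _ = t * P y := by rw [sum_const, card_range, smul_eq_mul]

/-- Cauchy-Schwarz for the number of pairs with the same label. -/
lemma pairs_label {α β : Type} [DecidableEq α] [DecidableEq β] (J : Finset α) (f : α → β)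
    (T : Finset β) (hf : ∀ x ∈ J, f x ∈ T) :
    #J ^ 2 ≤ #T * #{z ∈ J ×ˢ J | f z.1 = f z.2} := by
  have h1 : #J = ∑ t ∈ T, #{x ∈ J | f x = t} := card_eq_sum_card_fiberwise hf
  have h2 : #{z ∈ J ×ˢ J | f z.1 = f z.2} = ∑ t ∈ T, #{x ∈ J | f x = t} ^ 2 := by
    rw [card_eq_sum_card_fiberwise (f := fun z : α × α => f z.1) (t := T)]
    · apply sum_congr rfl
      intro t _
      rw [sq, ← card_product]
      congr 1
      ext z
      simp only [mem_filter, mem_product]
      constructor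
      · rintro ⟨⟨⟨h1, h2⟩, h3⟩, h4⟩
        exact ⟨⟨h1, h4⟩, h2, by rw [← h3, h4]⟩
      · rintro ⟨⟨h1, h2⟩, h3, h4⟩
        exact ⟨⟨⟨h1, h3⟩, by rw [h2, h4]⟩, h2⟩
    · intro z hz
      have hz := mem_filter.1 (mem_coe.1 hz)
      rw [mem_product] at hz
      exact hf _ hz.1.1
  rw [h1, h2]
  exact sq_sum_le_card_mul_sum_sq

/-- Half of the pairs which are not on the diagonal. -/
lemma pairs_lt (J : Finset ℕ) (β : Type) [DecidableEq β] (f : ℕ → β) :
    #{z ∈ J ×ˢ J | f z.1 = f z.2} ≤ #J + 2 * #{z ∈ J ×ˢ J | z.1 < z.2 ∧ f z.1 = f z.2} := by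
  have h1 : {z ∈ J ×ˢ J | f z.1 = f z.2} ⊆
      (J.image (fun x => (x, x))) ∪ ({z ∈ J ×ˢ J | z.1 < z.2 ∧ f z.1 = f z.2} ∪
        ({z ∈ J ×ˢ J | z.1 < z.2 ∧ f z.1 = f z.2}).image Prod.swap) := by
    intro z hz
    rw [mem_filter, mem_product] at hz
    rw [mem_union, mem_union, mem_image, mem_image, mem_filter, mem_product]
    rcases lt_trichotomy z.1 z.2 with h | h | h
    · right; left
      exact ⟨hz.1, h, hz.2⟩
    · left
      exact ⟨z.1, hz.1.1, Prod.ext rfl h⟩
    · right; right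
      refine ⟨(z.2, z.1), ?_, rfl⟩
      rw [mem_filter, mem_product]
      exact ⟨⟨hz.1.2, hz.1.1⟩, h, hz.2.symm⟩
  refine (card_le_card h1).trans ?_
  refine (card_union_le _ _).trans ?_
  have h2 : #(J.image (fun x => (x, x))) ≤ #J := card_image_le
  have h3 := card_union_le ({z ∈ J ×ˢ J | z.1 < z.2 ∧ f z.1 = f z.2})
    (({z ∈ J ×ˢ J | z.1 < z.2 ∧ f z.1 = f z.2}).image Prod.swap)
  have h4 : #(({z ∈ J ×ˢ J | z.1 < z.2 ∧ f z.1 = f z.2}).image Prod.swap) ≤
    #{z ∈ J ×ˢ J | z.1 < z.2 ∧ f z.1 = f z.2} := card_image_le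
  omega

theorem pairs (q a : ℕ) (hq : 1 ≤ q) (h : Star q q) : ∃ c : ℝ, 0 < c ∧ c ≤ 1 ∧ ∃ L₀ Z₀ : ℕ,
    ∀ Z : ℕ, Z₀ ≤ Z → ∀ L : ℕ, L₀ ≤ L → L ≤ Z → c * (L * Z) ≤ #(Wq q a Z L c) := by
  obtain ⟨σ, hσ, Z₁, hZ₁⟩ := h
  have hqr : (1 : ℝ) ≤ q := by exact_mod_cast hq
  have hq0 : (0 : ℝ) < q := by linarith
  -- constants
  set τ : ℝ := σ / (2 * q) with hτ
  have hτ0 : 0 < τ := by positivity
  set c' : ℝ := τ ^ 2 / (32 * q) with hc'
  have hc'0 : 0 < c' := by positivity
  set c : ℝ := min 1 (c' / 2) with hc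
  have hc0 : 0 < c := lt_min one_pos (by positivity)
  have hc1 : c ≤ 1 := min_le_left _ _
  have hcc : c ≤ c' / 2 := min_le_right _ _
  obtain ⟨L₁, hL₁⟩ := exists_nat_ge (1 / c)
  obtain ⟨L₂, hL₂⟩ := exists_nat_ge (8 * q / τ ^ 2)
  obtain ⟨Z₂, hZ₂⟩ := exists_nat_ge ((q + 1 : ℝ) / τ)
  refine ⟨c, hc0, hc1, 2 * q + L₁ + L₂ + 1, Z₁ + 2 * q + Z₂, ?_⟩
  intro Z hZ L hL hLZ
  have hZr : (0 : ℝ) < Z := by
    have : 0 < Z := by omega
    exact_mod_cast this
  -- the strings
  set Z' := Z - q with hZ'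
  have hZ'Z : (Z : ℝ) ≤ 2 * Z' := by
    have : Z ≤ 2 * Z' := by omega
    exact_mod_cast this
  have hJ := hZ₁ Z' (by omega)
  -- pigeonhole for the class
  have hpig : ∃ u ∈ range q, (#(Jst q q Z') : ℝ) / q ≤ #{j ∈ Jst q q Z' | P j % q = u} := by
    have hmap : ∀ j ∈ Jst q q Z', P j % q ∈ range q := by
      intro j _
      rw [mem_range]
      exact Nat.mod_lt _ hq
    have hne : (range q).Nonempty := nonempty_range_iff.2 (by omega)
    have hcard : #(Jst q q Z') = ∑ u ∈ range q, #{j ∈ Jst q q Z' | P j % q = u} :=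
      card_eq_sum_card_fiberwise hmap
    by_contra hcon
    push Not at hcon
    have h1 : (#(Jst q q Z') : ℝ) < #(Jst q q Z') := by
      calc (#(Jst q q Z') : ℝ) = ∑ u ∈ range q, (#{j ∈ Jst q q Z' | P j % q = u} : ℝ) := by
            rw [hcard]
            push_cast
            rfl
        _ < ∑ u ∈ range q, (#(Jst q q Z') : ℝ) / q := sum_lt_sum_of_nonempty hne hcon
        _ = #(Jst q q Z') := by
            rw [sum_const, card_range, nsmul_eq_mul]
            field_simp
    exact lt_irrefl _ h1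
  obtain ⟨u, hu, hucard⟩ := hpig
  rw [mem_range] at hu
  set J := {j ∈ Jst q q Z' | P j % q = u} with hJdef
  have hJcard : τ * Z ≤ #J := by
    refine le_trans ?_ hucard
    rw [le_div_iff₀ hq0]
    refine le_trans ?_ hJ
    rw [hτ]
    have : σ / (2 * q) * Z * q = σ * (Z / 2) := by field_simp
    rw [this]
    apply mul_le_mul_of_nonneg_left _ hσ.le
    linarith
  have hJZ : #J ≤ Z := by
    have hsub : Jst q q Z' ⊆ range Z' := by
      intro j hj
      rw [mem_Jst] at hj
      exact mem_range.2 hj.1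
    calc #J ≤ #(Jst q q Z') := card_le_card (filter_subset _ _)
      _ ≤ #(range Z') := card_le_card hsub
      _ ≤ Z := by rw [card_range]; omega
  -- the class is a unit
  have hcop : Nat.Coprime u q := by
    by_contra hcon
    have hsub : J ⊆ range (q + 1) := by
      intro j hj
      rw [mem_filter] at hj
      rw [mem_range]
      have hg : u.gcd q ∣ P j := by
        have h1 : u.gcd q ∣ q := Nat.gcd_dvd_right _ _
        have h2 : u.gcd q ∣ u := Nat.gcd_dvd_left _ _
        have h3 : P j = u + q * (P j / q) := by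
          have := Nat.mod_add_div (P j) q
          rw [hj.2] at this
          exact this.symm
        rw [h3]
        exact dvd_add h2 (Dvd.dvd.mul_right h1 _)
      have hgp : u.gcd q = P j := by
        rcases (Nat.dvd_prime (P_prime j)).1 hg with h1 | h1
        · exact absurd h1 hcon
        · exact h1
      have h3 : P j ≤ q := by
        rw [← hgp]
        exact Nat.le_of_dvd hq (Nat.gcd_dvd_right _ _)
      have := lt_P j
      omega
    have h1 : (#J : ℝ) ≤ q + 1 := by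
      have := card_le_card hsub
      rw [card_range] at this
      exact_mod_cast this
    have h2 : (Z₂ : ℝ) < Z := by exact_mod_cast (show Z₂ < Z by omega)
    rw [div_le_iff₀ hτ0] at hZ₂
    nlinarith
  obtain ⟨t, htq, ht⟩ : ∃ t, t < q ∧ t * u ≡ a [MOD q] := by
    rcases Nat.lt_or_ge 1 q with h1 | h1
    · obtain ⟨y, _, hy⟩ := Nat.exists_mul_mod_eq_one_of_coprime hcop h1
      refine ⟨(a * y) % q, Nat.mod_lt _ hq, ?_⟩
      calc (a * y) % q * u ≡ (a * y) * u [MOD q] := Nat.ModEq.mul_right _ (Nat.mod_modEq _ _)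
        _ = a * (u * y) := by ring
        _ ≡ a * 1 [MOD q] := Nat.ModEq.mul_left _ (by
            unfold Nat.ModEq
            rw [hy, Nat.mod_eq_of_lt h1])
        _ = a := mul_one _
    · have : q = 1 := by omega
      subst this
      exact ⟨0, by omega, Nat.modEq_one⟩
  -- labels
  set B := L - q with hB
  have hB1 : 1 ≤ B := by omega
  have hBL : (L : ℝ) ≤ 2 * B := by
    have : L ≤ 2 * B := by omega
    exact_mod_cast this
  have hBr : (1 : ℝ) ≤ B := by exact_mod_cast hB1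
  set f : ℕ → ℕ × ℕ := fun j => (j / B, S j 0 % q) with hf
  set T : Finset (ℕ × ℕ) := range (Z / B + 1) ×ˢ range q with hT
  have hfT : ∀ x ∈ J, f x ∈ T := by
    intro x hx
    rw [mem_filter] at hx
    have hx1 := hx.1
    rw [mem_Jst] at hx1
    rw [hT, mem_product, mem_range, mem_range]
    refine ⟨?_, Nat.mod_lt _ hq⟩
    have : x / B ≤ Z / B := Nat.div_le_div_right (by omega)
    simp only [hf]
    omega
  have hlab := pairs_label J f T hfT
  have hlt := pairs_lt J (ℕ × ℕ) f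
  set Pr := {z ∈ J ×ˢ J | z.1 < z.2 ∧ f z.1 = f z.2} with hPr
  have hTcard : (#T : ℝ) ≤ 2 * q * Z / B := by
    rw [hT, card_product, card_range, card_range]
    push_cast
    have h1 : ((Z / B : ℕ) : ℝ) ≤ Z / B := Nat.cast_div_le
    have h2 : (1 : ℝ) ≤ Z / B := by
      rw [le_div_iff₀ (by linarith)]
      have : B ≤ Z := by omega
      rw [one_mul]
      exact_mod_cast this
    calc (((Z / B : ℕ) : ℝ) + 1) * q ≤ (Z / B + Z / B) * q := by
          apply mul_le_mul_of_nonneg_right _ hq0.le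
          linarith
      _ = _ := by ring
  have hPrcard : 2 * c' * (L * Z) ≤ #Pr := by
    have h1 : ((#J : ℝ)) ^ 2 ≤ #T * (#J + 2 * #Pr) := by
      have : #J ^ 2 ≤ #T * (#J + 2 * #Pr) := hlab.trans (Nat.mul_le_mul_left _ hlt)
      exact_mod_cast this
    have h2 : (τ * Z) ^ 2 ≤ (#J : ℝ) ^ 2 := pow_le_pow_left₀ (by positivity) hJcard 2
    have h3 : (#J : ℝ) ≤ Z := by exact_mod_cast hJZ
    have h4 : (τ * Z) ^ 2 ≤ 2 * q * Z / B * (Z + 2 * #Pr) := by
      refine h2.trans (h1.trans ?_)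
      apply mul_le_mul hTcard _ (by positivity) (by positivity)
      linarith
    have h5 : τ ^ 2 * Z * B ≤ 2 * q * (Z + 2 * #Pr) := by
      have h6 : (τ * Z) ^ 2 * B ≤ 2 * q * Z * (Z + 2 * #Pr) := by
        have hB0 : (0 : ℝ) < B := by linarith
        have e1 : 2 * q * Z / B * (Z + 2 * #Pr) * B = 2 * q * Z * ((Z : ℝ) + 2 * #Pr) := by
          field_simp
        rw [← e1]
        exact mul_le_mul_of_nonneg_right h4 hB0.le
      have h7 : (Z : ℝ) * (τ ^ 2 * Z * B) ≤ Z * (2 * q * (Z + 2 * #Pr)) := by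
        have e1 : (Z : ℝ) * (τ ^ 2 * Z * B) = (τ * Z) ^ 2 * B := by ring
        have e2 : (Z : ℝ) * (2 * q * (Z + 2 * #Pr)) = 2 * q * Z * (Z + 2 * #Pr) := by ring
        rw [e1, e2]
        exact h6
      exact le_of_mul_le_mul_left h7 hZr
    have h8 : 2 * q * Z ≤ τ ^ 2 * Z * B / 2 := by
      have h9 : (8 * q : ℝ) ≤ τ ^ 2 * L := by
        rw [div_le_iff₀ (by positivity)] at hL₂
        have h14 : (L₂ : ℝ) ≤ L := by exact_mod_cast (show L₂ ≤ L by omega)
        have h15 : (L₂ : ℝ) * τ ^ 2 ≤ L * τ ^ 2 := mul_le_mul_of_nonneg_right h14 (by positivity)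
        linarith
      have h10 : (4 * q : ℝ) ≤ τ ^ 2 * B := by
        have : τ ^ 2 * L ≤ τ ^ 2 * (2 * B) := mul_le_mul_of_nonneg_left hBL (by positivity)
        linarith
      have h16 : (Z : ℝ) / 2 * (4 * q) ≤ Z / 2 * (τ ^ 2 * B) :=
        mul_le_mul_of_nonneg_left h10 (by positivity)
      have e1 : (Z : ℝ) / 2 * (4 * q) = 2 * q * Z := by ring
      have e2 : (Z : ℝ) / 2 * (τ ^ 2 * B) = τ ^ 2 * Z * B / 2 := by ring
      rw [e1, e2] at h16
      exact h16
    have h11 : τ ^ 2 * Z * B / 2 ≤ 4 * q * #Pr := by linarith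
    have h12 : τ ^ 2 * Z * L / 4 ≤ 4 * q * #Pr := by
      refine le_trans ?_ h11
      have : τ ^ 2 * Z * L ≤ τ ^ 2 * Z * (2 * B) :=
        mul_le_mul_of_nonneg_left hBL (by positivity)
      linarith
    rw [hc']
    have h13 : 2 * (τ ^ 2 / (32 * q)) * (L * Z) = τ ^ 2 * Z * L / 4 / (4 * q) := by
      field_simp
      ring
    rw [h13, div_le_iff₀ (by positivity)]
    linarith
  -- map the pairs to blocks
  have hmap : #Pr ≤ #{w ∈ Icc 1 L ×ˢ range Z | w.2 + w.1 ≤ Z ∧ S w.1 w.2 ≡ a [MOD q]} := by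
    apply card_le_card_of_injOn (fun z : ℕ × ℕ => (z.2 + t - z.1, z.1))
    · intro z hz
      have hz := mem_filter.1 (mem_coe.1 hz)
      rw [mem_product] at hz
      obtain ⟨⟨hz1, hz2⟩, hz3, hz4⟩ := hz
      have hx := (mem_filter.1 hz1).1
      have hy := (mem_filter.1 hz2).1
      have hyu := (mem_filter.1 hz2).2
      have hxr : z.1 < Z' := by
        exact (mem_Jst.1 hx).1
      have hyr : z.2 < Z' := by
        exact (mem_Jst.1 hy).1
      simp only [hf, Prod.mk.injEq] at hz4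
      obtain ⟨hd, hm⟩ := hz4
      have hdist : z.2 < z.1 + B := by
        have h1 := Nat.div_add_mod z.1 B
        have h2 := Nat.div_add_mod z.2 B
        have h3 := Nat.mod_lt z.2 (show 0 < B by omega)
        rw [hd] at h1
        omega
      rw [mem_coe, mem_filter, mem_product, mem_Icc, mem_range]
      simp only
      refine ⟨⟨⟨by omega, by omega⟩, by omega⟩, by omega, ?_⟩
      -- the congruence
      have e1 : S (z.2 + t - z.1) z.1 = S (z.2 - z.1) z.1 + S t z.2 := by
        have e : z.2 + t - z.1 = (z.2 - z.1) + t := by omega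
        rw [e, S_add]
        congr 2
        omega
      have e2 : S z.2 0 = S z.1 0 + S (z.2 - z.1) z.1 := by
        have e : z.2 = z.1 + (z.2 - z.1) := by omega
        conv_lhs => rw [e]
        rw [S_add, zero_add]
      have e3 : S (z.2 - z.1) z.1 ≡ 0 [MOD q] := by
        have h1 : S z.1 0 + S (z.2 - z.1) z.1 ≡ S z.1 0 + 0 [MOD q] := by
          rw [← e2, add_zero]
          exact hm.symm
        exact Nat.ModEq.add_left_cancel' _ h1
      have e4 : S t z.2 ≡ t * P z.2 [MOD q] := S_string hy (by omega)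
      have e5 : P z.2 ≡ u [MOD q] := by
        unfold Nat.ModEq
        rw [hyu, Nat.mod_eq_of_lt hu]
      rw [e1]
      calc S (z.2 - z.1) z.1 + S t z.2 ≡ 0 + t * P z.2 [MOD q] := Nat.ModEq.add e3 e4
        _ = t * P z.2 := by rw [zero_add]
        _ ≡ t * u [MOD q] := Nat.ModEq.mul_left _ e5
        _ ≡ a [MOD q] := ht
    · intro z hz z' hz' he
      have hz := mem_filter.1 (mem_coe.1 hz)
      have hz' := mem_filter.1 (mem_coe.1 hz')
      simp only [Prod.mk.injEq] at he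
      exact Prod.ext he.2 (by omega)
  -- remove the short blocks
  have hshort : {w ∈ Icc 1 L ×ˢ range Z | w.2 + w.1 ≤ Z ∧ S w.1 w.2 ≡ a [MOD q]} ⊆
      Wq q a Z L c ∪ (Icc 1 ⌊c * L⌋₊ ×ˢ range Z) := by
    intro w hw
    rw [mem_filter, mem_product] at hw
    rw [mem_union]
    by_cases h1 : c * L ≤ w.1
    · left
      unfold Wq
      rw [mem_filter, mem_product]
      exact ⟨hw.1, h1, hw.2⟩
    · right
      push Not at h1
      rw [mem_product, mem_Icc]
      refine ⟨⟨(mem_Icc.1 hw.1.1).1, ?_⟩, hw.1.2⟩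
      exact Nat.le_floor h1.le
  have hfin : #Pr ≤ #(Wq q a Z L c) + ⌊c * L⌋₊ * Z := by
    refine hmap.trans ((card_le_card hshort).trans ((card_union_le _ _).trans ?_))
    rw [card_product, Nat.card_Icc, card_range, Nat.add_sub_cancel]
  have hfin' : (#Pr : ℝ) ≤ #(Wq q a Z L c) + c * L * Z := by
    have h1 : (#Pr : ℝ) ≤ #(Wq q a Z L c) + (⌊c * L⌋₊ : ℝ) * Z := by exact_mod_cast hfin
    have h2 : (⌊c * L⌋₊ : ℝ) ≤ c * L := Nat.floor_le (by positivity)
    have h3 : (⌊c * L⌋₊ : ℝ) * Z ≤ c * L * Z := mul_le_mul_of_nonneg_right h2 hZr.le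
    linarith
  have h1 : c * (L * Z) ≤ c' / 2 * (L * Z) := mul_le_mul_of_nonneg_right hcc (by positivity)
  have h2 : (0 : ℝ) ≤ c' * (L * Z) := by positivity
  have e1 : c * L * Z = c * (L * Z) := by ring
  have e2 : 2 * c' * (L * Z) = c' * (L * Z) + c' * (L * Z) := by ring
  have e3 : c' / 2 * (L * Z) = c' * (L * Z) / 2 := by ring
  rw [e1] at hfin'
  rw [e2] at hPrcard
  rw [e3] at h1
  linarith

end Pool.Agent.helper306_moser
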