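import Pool.Agent.helper306_moser.Count

/-!
Choice of the parameters, and the bound for the number of coincidences.
-/

open Finset

namespace Pool.Agent.helper306_moser

lemma le_two_pow_half {N : ℕ} (hN : 6 ≤ N) : N ≤ 2 ^ (N / 2) := by
  obtain ⟨t, ht⟩ : ∃ t, N / 2 = t + 3 := ⟨N / 2 - 3, by omega⟩
  have h1 : t + 1 ≤ 2 ^ t := Nat.lt_two_pow_self
  rw [ht, pow_add]
  omega

lemma size_bound {N m : ℕ} (hm : 4 ≤ m) (hN : m ^ 50 ≤ N) (hL : Lam N ≤ m) :
    m ^ 2 * N * m.factorial ≤ 2 ^ (N / 2) := by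
  have hm1 : 1 ≤ m := by omega
  have hmN : m ≤ N := le_trans (by
    calc m = m ^ 1 := (pow_one _).symm
      _ ≤ m ^ 50 := Nat.pow_le_pow_right hm1 (by norm_num)) hN
  have h1 := (lt_two_pow_Lam N).le
  have h2 : m ≤ 2 ^ Lam N := hmN.trans h1
  have h3 : m ^ 2 * N * m.factorial ≤ (2 ^ Lam N) ^ 2 * 2 ^ Lam N * (2 ^ Lam N) ^ m := by
    apply Nat.mul_le_mul
    · exact Nat.mul_le_mul (Nat.pow_le_pow_left h2 _) h1
    · exact (Nat.factorial_le_pow m).trans (Nat.pow_le_pow_left h2 _)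
  refine h3.trans ?_
  rw [← pow_mul, ← pow_mul, ← pow_add, ← pow_add]
  apply Nat.pow_le_pow_right (by norm_num)
  have h4 : Lam N * 2 + Lam N + Lam N * m = Lam N * (m + 3) := by ring
  rw [h4]
  have h5 : Lam N * (m + 3) ≤ m * (m + 3) := Nat.mul_le_mul_right _ hL
  have h6 : 2 * (m * (m + 3)) ≤ m ^ 4 := by
    have : 2 * (m + 3) ≤ m ^ 3 := by
      calc 2 * (m + 3) ≤ 4 * m := by omega
        _ ≤ m * m := Nat.mul_le_mul_right _ hm
        _ ≤ m * m * m := Nat.le_mul_of_pos_right _ (by omega)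
        _ = m ^ 3 := by ring
    calc 2 * (m * (m + 3)) = m * (2 * (m + 3)) := by ring
      _ ≤ m * m ^ 3 := Nat.mul_le_mul_left _ this
      _ = m ^ 4 := by ring
  have h7 : m ^ 4 ≤ N := le_trans (Nat.pow_le_pow_right hm1 (by norm_num)) hN
  omega

lemma full_hyp {N m C₁ : ℕ} (hm4 : 4 ≤ m) (hmC : 3 * C₁ + 3 ≤ m) (hN : m ^ 50 ≤ N)
    (hL : Lam N ≤ m) :
    FullHyp N C₁ (m ^ 2 * N) (C₁ * m * N) m.factorial m (m ^ 2 * N + 2 * (C₁ * m * N) + 2)
      (2 ^ N / (m ^ 2 * N * m.factorial)) (2 * C₁ + 2) := by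
  have hm1 : 1 ≤ m := by omega
  have hpw : ∀ j, j ≤ 50 → m ^ j ≤ N := fun j hj =>
    le_trans (Nat.pow_le_pow_right hm1 hj) hN
  have hmN : m ≤ N := by simpa using hpw 1 (by norm_num)
  have hN6 : 6 ≤ N := by
    calc 6 ≤ 4 ^ 2 := by norm_num
      _ ≤ m ^ 2 := Nat.pow_le_pow_left hm4 2
      _ ≤ N := hpw 2 (by norm_num)
  have hN0 : 0 < N := by omega
  have hsize := size_bound hm4 hN hL
  have hf : m ≤ m.factorial := Nat.self_le_factorial m
  have hf0 : 0 < m.factorial := Nat.factorial_pos m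
  have hH0 : 0 < m ^ 2 * N := by positivity
  have hHQ0 : 0 < m ^ 2 * N * m.factorial := by positivity
  have hN2 := le_two_pow_half hN6
  have hCG : C₁ * m * N + 1 ≤ m ^ 2 * N := by
    calc C₁ * m * N + 1 ≤ C₁ * m * N + m * N := by
          have : 1 ≤ m * N := Nat.mul_pos hm1 hN0
          omega
      _ = (C₁ + 1) * m * N := by ring
      _ ≤ m * m * N := by
          apply Nat.mul_le_mul_right
          apply Nat.mul_le_mul_right
          omega
      _ = m ^ 2 * N := by ring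
  refine ⟨⟨hm1, ?_, ?_, le_rfl, hH0, hf0, le_rfl, ?_, ?_, ?_⟩, ?_, ?_, ?_, ?_, ?_, ?_, ?_⟩
  · intro l hl
    have := mem_Icc.1 hl
    exact Dvd.dvd.mul_left (Nat.dvd_factorial (by omega) this.2) _
  · intro l hl
    have := mem_Icc.1 hl
    rw [Nat.le_div_iff_mul_le (by omega)]
    calc C₁ * m * N * l ≤ m * m * N * m := by
          apply Nat.mul_le_mul _ this.2
          apply Nat.mul_le_mul_right
          apply Nat.mul_le_mul_right
          omega
      _ ≤ m ^ 2 * N * m.factorial := by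
          have : m * m * N * m = m ^ 2 * N * m := by ring
          rw [this]
          exact Nat.mul_le_mul_left _ hf
  · -- hX
    have e1 : m * (C₁ * m * N) ≤ N * 2 ^ (N / 2) := by
      calc m * (C₁ * m * N) ≤ m * (m * m * N) := by
            apply Nat.mul_le_mul_left
            apply Nat.mul_le_mul_right
            apply Nat.mul_le_mul_right
            omega
        _ = m ^ 3 * N := by ring
        _ ≤ N * N := Nat.mul_le_mul_right _ (hpw 3 (by norm_num))
        _ ≤ N * 2 ^ (N / 2) := Nat.mul_le_mul_left _ hN2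
    have e2 : m * 2 ^ (N / 2) ≤ N * 2 ^ (N / 2) := Nat.mul_le_mul_right _ hmN
    have e3 : N * 2 ^ (N / 2) + N * 2 ^ (N / 2) ≤ N ^ 2 * 2 ^ (N / 2) := by
      have : N + N ≤ N ^ 2 := by nlinarith
      calc N * 2 ^ (N / 2) + N * 2 ^ (N / 2) = (N + N) * 2 ^ (N / 2) := by ring
        _ ≤ _ := Nat.mul_le_mul_right _ this
    rw [mul_add]
    omega
  · refine hsize.trans ?_
    apply Nat.le_mul_of_pos_left
    positivity
  · exact Nat.lt_mul_div_succ _ hHQ0
  · -- hp
    intro p hp hd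
    have hN3 : N ≤ N ^ 3 := by
      calc N = N ^ 1 := (pow_one _).symm
        _ ≤ N ^ 3 := Nat.pow_le_pow_right hN0 (by norm_num)
    rcases (hp.dvd_mul).1 hd with h1 | h1
    · rcases (hp.dvd_mul).1 h1 with h2 | h2
      · have := Nat.le_of_dvd (by omega) (hp.dvd_of_dvd_pow h2)
        omega
      · have := Nat.le_of_dvd hN0 h2
        omega
    · have := (hp.dvd_factorial).1 h1
      omega
  · -- hsz
    have e1 : 1 + C₁ * m * N + (m ^ 2 * N + 2 * (C₁ * m * N) + 2) ≤ m ^ 2 * N + m ^ 2 * N := by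
      have : 3 * (C₁ * m * N) + 3 ≤ m ^ 2 * N := by
        calc 3 * (C₁ * m * N) + 3 ≤ 3 * (C₁ * m * N) + 3 * (m * N) := by
              have : 1 ≤ m * N := Nat.mul_pos hm1 hN0
              omega
          _ = (3 * C₁ + 3) * m * N := by ring
          _ ≤ m * m * N := by
              apply Nat.mul_le_mul_right
              apply Nat.mul_le_mul_right
              omega
          _ = m ^ 2 * N := by ring
      omega
    calc m * (1 + C₁ * m * N + (m ^ 2 * N + 2 * (C₁ * m * N) + 2))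
        ≤ m * (m ^ 2 * N + m ^ 2 * N) := Nat.mul_le_mul_left _ e1
      _ = 2 * (m ^ 3 * N) := by ring
      _ ≤ N * (N * N) := Nat.mul_le_mul (by omega)
          (Nat.mul_le_mul_right _ (hpw 3 (by norm_num)))
      _ = N ^ 3 := by ring
  · -- hM2
    have h2 : m < m ^ 2 := by
      calc m < m * m := by nlinarith
        _ = m ^ 2 := by ring
    have := hpw 2 (by norm_num)
    omega
  · -- hV4
    have e1 : 2 ^ (N - N / 2) ≤ 2 ^ N / (m ^ 2 * N * m.factorial) := by
      rw [Nat.le_div_iff_mul_le hHQ0]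
      calc 2 ^ (N - N / 2) * (m ^ 2 * N * m.factorial) ≤ 2 ^ (N - N / 2) * 2 ^ (N / 2) :=
            Nat.mul_le_mul_left _ hsize
        _ = 2 ^ N := by
            rw [← pow_add]
            congr 1
            omega
    calc 2 ^ N ≤ (2 ^ (N - N / 2)) ^ 4 := by
          rw [← pow_mul]
          apply Nat.pow_le_pow_right (by norm_num)
          omega
      _ ≤ _ := Nat.pow_le_pow_left e1 4
  · -- hD
    calc 2 * m * (C₁ * m * N + 1) = 2 * C₁ * (m ^ 2 * N) + 2 * m := by ring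
      _ ≤ 2 * C₁ * (m ^ 2 * N) + 2 * (m ^ 2 * N) := by
          have : m ≤ m ^ 2 * N := by
            calc m = m * 1 := (mul_one _).symm
              _ ≤ m * (m * N) := Nat.mul_le_mul_left _ (Nat.mul_pos hm1 hN0)
              _ = m ^ 2 * N := by ring
          omega
      _ = (2 * C₁ + 2) * (m ^ 2 * N) := by ring
  · exact Nat.mul_div_le _ _
  · -- hbig
    have e1 : m ^ 2 * N ≤ m ^ 2 * N * m.factorial := Nat.le_mul_of_pos_right _ hf0
    have e2 : m * (C₁ * m * N + 1) ≤ m ^ 2 * N * m.factorial := by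
      calc m * (C₁ * m * N + 1) ≤ m * (m ^ 2 * N) := Nat.mul_le_mul_left _ hCG
        _ = m ^ 2 * N * m := by ring
        _ ≤ _ := Nat.mul_le_mul_left _ hf
    have e3 : 4 * 2 ^ (N / 2) ≤ 2 ^ N := by
      calc 4 * 2 ^ (N / 2) = 2 ^ (2 + N / 2) := by rw [pow_add]; norm_num
        _ ≤ 2 ^ N := Nat.pow_le_pow_right (by norm_num) (by omega)
    omega

/-- Chebyshev's upper bound in the form used here. -/
lemma cheb_upper {N : ℕ} (hN : 40 ≤ N) {y : ℕ} (hy : 2 ^ (N / 2) ≤ y) :
    (#{q ∈ range (y + 1) | q.Prime} : ℝ) ≤ 11 * (y / N) := by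
  have hNr : (40 : ℝ) ≤ N := by exact_mod_cast hN
  have hN0 : (0 : ℝ) < N := by linarith
  have hyr : ((2 : ℝ) ^ (N / 2)) ≤ y := by exact_mod_cast hy
  have h2p : (1 : ℝ) < 2 ^ (N / 2) := by
    apply one_lt_pow₀ (by norm_num)
    omega
  have hy1 : (1 : ℝ) < y := by linarith
  have h := Chebyshev.pi_le_log4_mul_div hy1
  rw [Nat.floor_natCast] at h
  have hpi : (#{q ∈ range (y + 1) | q.Prime} : ℝ) = Nat.primeCounting y := by
    rw [Nat.primeCounting, Nat.primeCounting', Nat.count_eq_card_filter_range]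
  rw [hpi]
  refine h.trans ?_
  have hlog2 : 0 < Real.log 2 := Real.log_pos (by norm_num)
  have hlog4 : Real.log 4 = 2 * Real.log 2 := by
    rw [show (4 : ℝ) = 2 ^ 2 by norm_num, Real.log_pow]; norm_num
  have hlogy : (N / 5 : ℝ) * Real.log 2 ≤ Real.log (√y) := by
    rw [Real.log_sqrt (by linarith)]
    have h1 : Real.log ((2 : ℝ) ^ (N / 2)) ≤ Real.log y := Real.log_le_log (by positivity) hyr
    rw [Real.log_pow] at h1
    have h2 : (N : ℝ) / 2 - 1 / 2 ≤ ((N / 2 : ℕ) : ℝ) := by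
      have : N ≤ 2 * (N / 2) + 1 := by omega
      have : (N : ℝ) ≤ 2 * ((N / 2 : ℕ) : ℝ) + 1 := by exact_mod_cast this
      linarith
    have h3 : (2 * N / 5 : ℝ) ≤ ((N / 2 : ℕ) : ℝ) := by linarith
    nlinarith
  have hsq : √(y : ℝ) ≤ y / N := by
    have h1 : (N : ℝ) ≤ √y := by
      apply Real.le_sqrt_of_sq_le
      refine le_trans ?_ hyr
      have : N ^ 2 ≤ 2 ^ (N / 2) := by
        obtain ⟨t, ht, ht2⟩ : ∃ t, N / 2 = t ∧ 20 ≤ t := ⟨N / 2, rfl, by omega⟩
        have h5 : N ≤ 2 * t + 1 := by omega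
        rw [ht]
        have h6 : ∀ t : ℕ, 20 ≤ t → (2 * t + 1) ^ 2 ≤ 2 ^ t := by
          intro t ht
          induction t, ht using Nat.le_induction with
          | base => norm_num
          | succ k hk ih =>
            rw [pow_succ 2 k]
            nlinarith
        exact (Nat.pow_le_pow_left h5 2).trans (h6 t ht2)
      exact_mod_cast this
    rw [le_div_iff₀ hN0]
    calc √(y : ℝ) * N ≤ √y * √y := mul_le_mul_of_nonneg_left h1 (Real.sqrt_nonneg _)
      _ = y := Real.mul_self_sqrt (by linarith)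
  have hmain : Real.log 4 * y / Real.log (√y) ≤ 10 * (y / N) := by
    rw [div_le_iff₀ (lt_of_lt_of_le (by positivity) hlogy), hlog4]
    calc 2 * Real.log 2 * y = 10 * (y / N) * (N / 5 * Real.log 2) := by
          field_simp
          ring
      _ ≤ _ := mul_le_mul_of_nonneg_left hlogy (by positivity)
  linarith

end Pool.Agent.helper306_moser
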