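import Pool.Agent.helper306_moser.Params

/-!
The number of coincidences among sums of few consecutive primes.
-/

open Finset

namespace Pool.Agent.helper306_moser

lemma sum_inv_le (m : ℕ) : ∑ l ∈ Icc 1 m, (1 / (l : ℝ)) ≤ 1 + Real.log m := by
  have h := harmonic_le_one_add_log m
  have e : ((harmonic m : ℚ) : ℝ) = ∑ l ∈ Icc 1 m, (1 / (l : ℝ)) := by
    rw [harmonic_eq_sum_Icc]
    push_cast
    apply sum_congr rfl
    intro x _
    rw [one_div]
  rw [← e]
  exact h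

theorem rep_bound (C₁ : ℕ) (ε : ℝ) (hε : 0 < ε) : ∃ A K N₀ : ℕ, 1 ≤ K ∧ 50 ≤ A ∧
    ∀ N : ℕ, N₀ ≤ N → ∀ m : ℕ, m ^ A ≤ N → K * Lam N ≤ m →
      (#(Rp N C₁ m) : ℝ) ≤ ε * (2 ^ N / N) * Real.log m := by
  obtain ⟨C, hC, N₁, hN₁⟩ := class_bound
  -- constants
  obtain ⟨Cn, hCn⟩ := exists_nat_ge (4 * C)
  set D := 2 * C₁ + 2 with hD
  set F : ℝ := 44 * (D + 2) with hF
  have hF0 : 0 < F := by positivity
  obtain ⟨B, hB⟩ := exists_nat_ge (4 * F / ε)
  obtain ⟨K₁, hK₁⟩ := exists_nat_ge (8 / ε)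
  have hBpos : 1 ≤ B := by
    have h1 : (0 : ℝ) < 4 * F / ε := by positivity
    have h2 : (0 : ℝ) < B := lt_of_lt_of_le h1 hB
    exact_mod_cast h2
  refine ⟨40 * B + 10, Cn + B + K₁ + 3 * C₁ + 12, max N₁ 40, by omega, by omega, ?_⟩
  intro N hN m hmA hKm
  have hN1 : N₁ ≤ N := (le_max_left _ _).trans hN
  have hN40 : 40 ≤ N := (le_max_right _ _).trans hN
  set L := Lam N with hL
  have hL1 : 1 ≤ L := Lam_pos N
  set K := Cn + B + K₁ + 3 * C₁ + 12 with hK
  have hKm' : K ≤ m := le_trans (Nat.le_mul_of_pos_right _ hL1) hKm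
  have hm12 : 12 ≤ m := by omega
  have hm1 : 1 ≤ m := by omega
  have hm50 : m ^ 50 ≤ N := le_trans (Nat.pow_le_pow_right hm1 (by omega)) hmA
  have hLm : L ≤ m := le_trans (Nat.le_mul_of_pos_left _ (by omega)) hKm
  have hfull := full_hyp (N := N) (m := m) (C₁ := C₁) (by omega) (by omega) hm50 hLm
  set H := m ^ 2 * N with hH
  set G := C₁ * m * N with hG
  set Q := m.factorial with hQ
  set W := H + 2 * G + 2 with hW
  set V := 2 ^ N / (H * Q) with hV
  have hN0 : 0 < N := by omega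
  have hNr : (0 : ℝ) < N := by exact_mod_cast hN0
  have hmr : (12 : ℝ) ≤ m := by exact_mod_cast hm12
  have hmr0 : (0 : ℝ) < m := by linarith
  have hHr : (H : ℝ) = m ^ 2 * N := by rw [hH]; push_cast; ring
  have hH0 : 0 < H := by positivity
  have hQ0 : 0 < Q := Nat.factorial_pos m
  -- coincidences bounded by cells
  have hcount := rep_count hfull
  have hfm := first_moment hfull
  -- class bound
  have hCL : 4 * C * (L : ℝ) ^ 2 ≤ (m : ℝ) ^ 2 := by
    have h1 : 4 * C ≤ (K : ℝ) ^ 2 := by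
      have h2 : (Cn : ℝ) ≤ K := by exact_mod_cast (show Cn ≤ K by omega)
      have h3 : (1 : ℝ) ≤ K := by exact_mod_cast (show 1 ≤ K by omega)
      nlinarith
    have h4 : ((K * L : ℕ) : ℝ) ≤ m := by exact_mod_cast hKm
    push_cast at h4
    calc 4 * C * (L : ℝ) ^ 2 ≤ (K : ℝ) ^ 2 * (L : ℝ) ^ 2 :=
          mul_le_mul_of_nonneg_right h1 (by positivity)
      _ = (K * L : ℝ) ^ 2 := by ring
      _ ≤ (m : ℝ) ^ 2 := pow_le_pow_left₀ (by positivity) h4 2
  have hWle : W ≤ 2 * (m ^ 2 * N) := by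
    have : 2 * (C₁ * m * N) + 2 ≤ m ^ 2 * N := by
      calc 2 * (C₁ * m * N) + 2 ≤ 2 * (C₁ * m * N) + 2 * (m * N) := by
            have : 1 ≤ m * N := Nat.mul_pos hm1 hN0
            omega
        _ = (2 * C₁ + 2) * m * N := by ring
        _ ≤ m * m * N := by
            apply Nat.mul_le_mul_right
            apply Nat.mul_le_mul_right
            omega
        _ = m ^ 2 * N := by ring
    omega
  have hMW : ((m : ℝ) * W) ≤ 2 * (m ^ 3 * N) := by
    have h1 : (W : ℝ) ≤ 2 * (m ^ 2 * N) := by exact_mod_cast hWle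
    calc (m : ℝ) * W ≤ m * (2 * (m ^ 2 * N)) := mul_le_mul_of_nonneg_left h1 hmr0.le
      _ = 2 * (m ^ 3 * N) := by ring
  have hbeta : 2 * ((m : ℝ) * W) / ((m ^ 40 : ℕ) : ℝ) *
      (C * (((m ^ 10 : ℕ) : ℝ) * (L : ℝ) ^ 2) / N) ≤ 1 / (m : ℝ) ^ 20 := by
    push_cast
    calc 2 * ((m : ℝ) * W) / (m : ℝ) ^ 40 * (C * ((m : ℝ) ^ 10 * (L : ℝ) ^ 2) / N)
        ≤ 2 * (2 * (m ^ 3 * N)) / (m : ℝ) ^ 40 * (C * ((m : ℝ) ^ 10 * (L : ℝ) ^ 2) / N) := by
          apply mul_le_mul_of_nonneg_right _ (by positivity)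
          apply div_le_div_of_nonneg_right _ (by positivity)
          linarith
      _ = 4 * C * (L : ℝ) ^ 2 / (m : ℝ) ^ 27 := by
          field_simp
          ring
      _ ≤ (m : ℝ) ^ 2 / (m : ℝ) ^ 27 := div_le_div_of_nonneg_right hCL (by positivity)
      _ = 1 / (m : ℝ) ^ 25 := by
          field_simp
      _ ≤ 1 / (m : ℝ) ^ 20 := by
          apply one_div_le_one_div_of_le (by positivity)
          exact pow_le_pow_right₀ (by linarith) (by norm_num)
  have hbeta1 : 1 / (m : ℝ) ^ 20 ≤ 1 := by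
    rw [div_le_one (by positivity)]
    exact one_le_pow₀ (by linarith)
  have hclass : ∀ u₀ ∈ Ico Q (2 * Q),
      (∑ v ∈ range V, (reps (IsRep (av H G u₀)) (cfg H G m W N (Q * v + u₀)) : ℝ)) ≤
      (1 / B + 1 / ((m ^ 10 : ℕ) : ℝ)) * (∑ v ∈ range V, (#(cfg H G m W N (Q * v + u₀)) : ℝ)) +
        V * 2 := by
    intro u₀ hu₀
    rw [mem_Ico] at hu₀
    have h1 := hN₁ N hN1 H G Q m W u₀ V (hfull.cell hu₀.1) B (m ^ 40) (m ^ 10) hBpos
      (Nat.pos_of_ne_zero (by positivity))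
      (by
        calc 2 ≤ m := by omega
          _ = m ^ 1 := (pow_one _).symm
          _ ≤ m ^ 10 := Nat.pow_le_pow_right hm1 (by norm_num))
      (by
        have h2 : 128 * L ^ 2 ≤ m ^ 2 := by
          calc 128 * L ^ 2 ≤ (K * L) ^ 2 := by
                rw [mul_pow]
                apply Nat.mul_le_mul_right
                calc 128 ≤ 12 ^ 2 := by norm_num
                  _ ≤ K ^ 2 := Nat.pow_le_pow_left (by omega) 2
            _ ≤ m ^ 2 := Nat.pow_le_pow_left hKm 2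
        calc 128 * m ^ 10 * L ^ 2 = m ^ 10 * (128 * L ^ 2) := by ring
          _ ≤ m ^ 10 * m ^ 2 := Nat.mul_le_mul_left _ h2
          _ = m ^ 12 := by ring
          _ ≤ m ^ 50 := Nat.pow_le_pow_right hm1 (by norm_num)
          _ ≤ N := hm50)
      (by
        calc m ^ 10 * (m ^ 40) ^ B = m ^ (40 * B + 10) := by rw [← pow_mul, ← pow_add]; ring_nf
          _ ≤ N := hmA
          _ ≤ m * W := by
            calc N ≤ m ^ 2 * N := Nat.le_mul_of_pos_left _ (by positivity)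
              _ ≤ W := by omega
              _ ≤ m * W := Nat.le_mul_of_pos_left _ hm1)
      (1 / (m : ℝ) ^ 20) hbeta hbeta1
    refine h1.trans ?_
    apply add_le_add le_rfl
    apply mul_le_mul_of_nonneg_left _ (Nat.cast_nonneg _)
    have e1 : (((m ^ 10 : ℕ) : ℝ)) ^ 2 * (1 / (m : ℝ) ^ 20) = 1 := by
      push_cast
      field_simp
    have e2 : ((m : ℝ) * W) ^ 2 * (C * (2 * (L : ℝ) ^ 2) / N) ^ 2 / ((m ^ 10 : ℕ) : ℝ) ≤ 1 := by
      push_cast
      calc ((m : ℝ) * W) ^ 2 * (C * (2 * (L : ℝ) ^ 2) / N) ^ 2 / (m : ℝ) ^ 10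
          ≤ (2 * (m ^ 3 * N)) ^ 2 * (C * (2 * (L : ℝ) ^ 2) / N) ^ 2 / (m : ℝ) ^ 10 := by
            apply div_le_div_of_nonneg_right _ (by positivity)
            apply mul_le_mul_of_nonneg_right _ (by positivity)
            exact pow_le_pow_left₀ (by positivity) hMW 2
        _ = (4 * C * (L : ℝ) ^ 2) ^ 2 / (m : ℝ) ^ 4 := by
            field_simp
            ring
        _ ≤ ((m : ℝ) ^ 2) ^ 2 / (m : ℝ) ^ 4 := by
            apply div_le_div_of_nonneg_right _ (by positivity)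
            exact pow_le_pow_left₀ (by positivity) hCL 2
        _ = 1 := by
            rw [← pow_mul]
            exact div_self (by positivity)
    linarith
  -- sum over the classes
  have hsum : (#(Rp N C₁ m) : ℝ) ≤ (1 / B + 1 / ((m ^ 10 : ℕ) : ℝ)) *
      ((D + 2) * ∑ l ∈ Icc 1 m, (#{q ∈ range (2 ^ (N + 1) / l + 1) | q.Prime} : ℝ)) +
      Q * (V * 2) := by
    calc (#(Rp N C₁ m) : ℝ) ≤ ∑ u₀ ∈ Ico Q (2 * Q), ∑ v ∈ range V,
          (reps (IsRep (av H G u₀)) (cfg H G m W N (Q * v + u₀)) : ℝ) := by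
          exact_mod_cast hcount
      _ ≤ ∑ u₀ ∈ Ico Q (2 * Q), ((1 / B + 1 / ((m ^ 10 : ℕ) : ℝ)) *
          (∑ v ∈ range V, (#(cfg H G m W N (Q * v + u₀)) : ℝ)) + V * 2) := sum_le_sum hclass
      _ = (1 / B + 1 / ((m ^ 10 : ℕ) : ℝ)) *
          (∑ u₀ ∈ Ico Q (2 * Q), ∑ v ∈ range V, (#(cfg H G m W N (Q * v + u₀)) : ℝ)) +
          Q * (V * 2) := by
          rw [sum_add_distrib, ← mul_sum, sum_const, Nat.card_Ico, nsmul_eq_mul]
          congr 2
          have : 2 * Q - Q = Q := by omega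
          rw [this]
      _ ≤ _ := by
          apply add_le_add _ le_rfl
          apply mul_le_mul_of_nonneg_left _ (by positivity)
          exact_mod_cast hfm
  -- Chebyshev
  have hlogm : 2 ≤ Real.log m := by
    have h1 : Real.log 12 ≤ Real.log m := Real.log_le_log (by norm_num) hmr
    have h2 : (2 : ℝ) ≤ Real.log 12 := by
      rw [Real.le_log_iff_exp_le (by norm_num)]
      have := Real.exp_one_lt_d9
      have h3 : Real.exp 2 = Real.exp 1 * Real.exp 1 := by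
        rw [← Real.exp_add]; norm_num
      rw [h3]
      have := Real.exp_pos 1
      nlinarith
    linarith
  have h2N : (0 : ℝ) < 2 ^ N := by positivity
  have hcheb : ∑ l ∈ Icc 1 m, (#{q ∈ range (2 ^ (N + 1) / l + 1) | q.Prime} : ℝ) ≤
      44 * (2 ^ N / N) * Real.log m := by
    have h1 : ∀ l ∈ Icc 1 m, (#{q ∈ range (2 ^ (N + 1) / l + 1) | q.Prime} : ℝ) ≤
        22 * (2 ^ N / N) * (1 / l) := by
      intro l hl
      have hl' := mem_Icc.1 hl
      have hlr : (0 : ℝ) < l := by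
        have : 0 < l := by omega
        exact_mod_cast this
      have h2 : 2 ^ (N / 2) ≤ 2 ^ (N + 1) / l := by
        rw [Nat.le_div_iff_mul_le (by omega)]
        calc 2 ^ (N / 2) * l ≤ 2 ^ (N / 2) * 2 ^ (N / 2) :=
              Nat.mul_le_mul_left _ (hl'.2.trans hfull.hM2.le)
          _ = 2 ^ (N / 2 + N / 2) := by rw [pow_add]
          _ ≤ 2 ^ (N + 1) := Nat.pow_le_pow_right (by norm_num) (by omega)
      have h3 := cheb_upper hN40 h2
      refine h3.trans ?_
      have h4 : (((2 ^ (N + 1) / l : ℕ)) : ℝ) ≤ 2 ^ (N + 1) / l := by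
        have := @Nat.cast_div_le ℝ _ _ _ (2 ^ (N + 1)) l
        push_cast at this
        exact this
      calc 11 * ((((2 ^ (N + 1) / l : ℕ)) : ℝ) / N) ≤ 11 * ((2 ^ (N + 1) / l) / N) := by
            apply mul_le_mul_of_nonneg_left _ (by norm_num)
            exact div_le_div_of_nonneg_right h4 hNr.le
        _ = 22 * (2 ^ N / N) * (1 / l) := by
            rw [pow_succ]
            field_simp
            norm_num
    calc ∑ l ∈ Icc 1 m, (#{q ∈ range (2 ^ (N + 1) / l + 1) | q.Prime} : ℝ)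
        ≤ ∑ l ∈ Icc 1 m, 22 * (2 ^ N / N) * (1 / (l : ℝ)) := sum_le_sum h1
      _ = 22 * (2 ^ N / N) * ∑ l ∈ Icc 1 m, (1 / (l : ℝ)) := by rw [mul_sum]
      _ ≤ 22 * (2 ^ N / N) * (1 + Real.log m) :=
          mul_le_mul_of_nonneg_left (sum_inv_le m) (by positivity)
      _ ≤ 22 * (2 ^ N / N) * (2 * Real.log m) := by
          apply mul_le_mul_of_nonneg_left _ (by positivity)
          linarith
      _ = _ := by ring
  have hQV : (Q : ℝ) * (V * 2) ≤ 2 / (m : ℝ) * (2 ^ N / N) := by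
    have h1 : ((H * Q * V : ℕ) : ℝ) ≤ 2 ^ N := by exact_mod_cast hfull.hVle
    push_cast at h1
    rw [hHr] at h1
    have h2 : (Q : ℝ) * V ≤ 2 ^ N / (m ^ 2 * N) := by
      rw [le_div_iff₀ (by positivity)]
      linarith
    calc (Q : ℝ) * (V * 2) = 2 * (Q * V) := by ring
      _ ≤ 2 * (2 ^ N / (m ^ 2 * N)) := by linarith
      _ = (2 / (m : ℝ) * (2 ^ N / N)) * (1 / m) := by field_simp
      _ ≤ (2 / (m : ℝ) * (2 ^ N / N)) * 1 := by
          apply mul_le_mul_of_nonneg_left _ (by positivity)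
          rw [div_le_one hmr0]
          linarith
      _ = _ := by ring
  -- conclusion
  have hBr : (0 : ℝ) < B := by exact_mod_cast hBpos
  have hB1 : F / B ≤ ε / 4 := by
    rw [div_le_iff₀ hBr]
    rw [div_le_iff₀ hε] at hB
    linarith
  have hmB : (B : ℝ) ≤ ((m ^ 10 : ℕ) : ℝ) := by
    have : B ≤ m ^ 10 := by
      calc B ≤ m := by omega
        _ = m ^ 1 := (pow_one _).symm
        _ ≤ m ^ 10 := Nat.pow_le_pow_right hm1 (by norm_num)
    exact_mod_cast this
  have hm10 : F / ((m ^ 10 : ℕ) : ℝ) ≤ ε / 4 := by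
    refine le_trans ?_ hB1
    exact div_le_div_of_nonneg_left hF0.le hBr hmB
  have hm2 : 2 / (m : ℝ) ≤ ε / 4 := by
    have h1 : (K₁ : ℝ) ≤ m := by exact_mod_cast (show K₁ ≤ m by omega)
    rw [div_le_iff₀ hε] at hK₁
    rw [div_le_iff₀ hmr0]
    nlinarith
  have hX0 : (0 : ℝ) < 2 ^ N / N := by positivity
  calc (#(Rp N C₁ m) : ℝ)
      ≤ (1 / B + 1 / ((m ^ 10 : ℕ) : ℝ)) *
        ((D + 2) * ∑ l ∈ Icc 1 m, (#{q ∈ range (2 ^ (N + 1) / l + 1) | q.Prime} : ℝ)) +
        Q * (V * 2) := hsum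
    _ ≤ (1 / B + 1 / ((m ^ 10 : ℕ) : ℝ)) * ((D + 2) * (44 * (2 ^ N / N) * Real.log m)) +
        2 / (m : ℝ) * (2 ^ N / N) := by
        apply add_le_add _ hQV
        apply mul_le_mul_of_nonneg_left _ (by positivity)
        exact mul_le_mul_of_nonneg_left hcheb (by positivity)
    _ = (F / B + F / ((m ^ 10 : ℕ) : ℝ)) * ((2 ^ N / N) * Real.log m) +
        2 / (m : ℝ) * (2 ^ N / N) := by
        rw [hF]; ring
    _ ≤ (ε / 4 + ε / 4) * ((2 ^ N / N) * Real.log m) + ε / 4 * ((2 ^ N / N) * Real.log m) := by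
        apply add_le_add
        · apply mul_le_mul_of_nonneg_right (by linarith) (by positivity)
        · calc 2 / (m : ℝ) * (2 ^ N / N) ≤ ε / 4 * (2 ^ N / N) :=
                mul_le_mul_of_nonneg_right hm2 hX0.le
            _ ≤ ε / 4 * ((2 ^ N / N) * Real.log m) := by
                apply mul_le_mul_of_nonneg_left _ (by positivity)
                nlinarith
    _ ≤ ε * (2 ^ N / N) * Real.log m := by
        have : 0 ≤ ε * (2 ^ N / N) * Real.log m := by positivity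
        nlinarith

end Pool.Agent.helper306_moser
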