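import Pool.Agent.helper306_moser.Encode

/-!
Repeated values among block sums of a finite configuration.
-/

open Finset

namespace Pool.Agent.helper306_moser

/-- `R` is the block of the `s.1` largest elements of the row `s.1` of `Θ` which are at most `s`. -/
structure IsWin (Θ : Finset (ℕ × ℕ)) (s : ℕ × ℕ) (R : Finset (ℕ × ℕ)) : Prop where
  sub : R ⊆ Θ
  mem : s ∈ R
  card : #R = s.1
  fst : ∀ r ∈ R, r.1 = s.1
  le : ∀ r ∈ R, r.2 ≤ s.2
  dc : ∀ t ∈ Θ, t.1 = s.1 → t.2 ≤ s.2 → t ∉ R → ∀ r ∈ R, t.2 < r.2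

/-- The block ending at `s` has the same sum as a block of a smaller row. -/
def IsRep (b : ℕ × ℕ → ℕ) (Θ : Finset (ℕ × ℕ)) (s : ℕ × ℕ) : Prop :=
  ∃ R R' s', IsWin Θ s R ∧ IsWin Θ s' R' ∧ s'.1 < s.1 ∧ ∑ r ∈ R, b r = ∑ r ∈ R', b r

lemma IsWin.unique {Θ : Finset (ℕ × ℕ)} {s : ℕ × ℕ} {R R₂ : Finset (ℕ × ℕ)}
    (h : IsWin Θ s R) (h₂ : IsWin Θ s R₂) : R = R₂ := by
  have hc : #R = #R₂ := by rw [h.card, h₂.card]
  apply eq_of_subset_of_card_le _ hc.ge
  intro x hx
  by_contra hxn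
  -- there is y in R₂ not in R
  have : ¬ R₂ ⊆ R := by
    intro hs
    have := eq_of_subset_of_card_le hs hc.le
    rw [this] at hxn
    exact hxn hx
  obtain ⟨y, hy, hyn⟩ := not_subset.1 this
  have a1 := h₂.dc x (h.sub hx) (h.fst x hx) (h.le x hx) hxn y hy
  have a2 := h.dc y (h₂.sub hy) (h₂.fst y hy) (h₂.le y hy) hyn x hx
  omega

lemma IsWin.restrict {T : Finset (ℕ × ℕ)} {s t : ℕ × ℕ} {R : Finset (ℕ × ℕ)}
    (h : IsWin (insert s T) t R) (hs : s ∉ R) : IsWin T t R where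
  sub := by
    intro x hx
    rcases mem_insert.1 (h.sub hx) with h1 | h1
    · exact absurd (h1 ▸ hx) hs
    · exact h1
  mem := h.mem
  card := h.card
  fst := h.fst
  le := h.le
  dc := fun x hx => h.dc x (mem_insert_of_mem hx)

lemma IsWin.fst_pos {T : Finset (ℕ × ℕ)} {t : ℕ × ℕ} {R : Finset (ℕ × ℕ)}
    (h : IsWin T t R) : 1 ≤ t.1 := by
  rw [← h.card]
  exact card_pos.2 ⟨t, h.mem⟩

/-- the lexicographic order, unfolded -/
def Lt (t s : ℕ × ℕ) : Prop := t.1 < s.1 ∨ (t.1 = s.1 ∧ t.2 < s.2)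

lemma rep_down (b : ℕ × ℕ → ℕ) {T : Finset (ℕ × ℕ)} {s t : ℕ × ℕ}
    (hlt : ∀ t ∈ T, Lt t s) (ht : t ∈ T)
    (h : IsRep b (insert s T) t) : IsRep b T t := by
  obtain ⟨R, R', s', hR, hR', hs', hsum⟩ := h
  have hts := hlt t ht
  have h1 : s ∉ R := by
    intro hs
    have a1 := hR.fst s hs
    have a2 := hR.le s hs
    rcases hts with h | h <;> omega
  have h2 : s ∉ R' := by
    intro hs
    have a1 := hR'.fst s hs
    rcases hts with h | h <;> omega
  exact ⟨R, R', s', hR.restrict h1, hR'.restrict h2, hs', hsum⟩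

open scoped Classical in
lemma rep_ext (b : ℕ × ℕ → ℕ) (hb : ∀ l h h', b (l, h) = b (l, h') → h = h')
    (Box T : Finset (ℕ × ℕ)) :
    #{s ∈ Box | (∀ t ∈ T, Lt t s) ∧ IsRep b (insert s T) s} ≤ #T := by
  classical
  have hch : ∀ s ∈ {s ∈ Box | (∀ t ∈ T, Lt t s) ∧ IsRep b (insert s T) s},
      ∃ s' ∈ T, ∃ R R', IsWin (insert s T) s R ∧ IsWin T s' R' ∧ s'.1 < s.1 ∧
        ∑ r ∈ R, b r = ∑ r ∈ R', b r := by
    intro s hs
    rw [mem_filter] at hs
    obtain ⟨_, hlt, R, R', s', hR, hR', hs', hsum⟩ := hs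
    have h2 : s ∉ R' := by
      intro h
      have a1 := hR'.fst s h
      omega
    have hR'' := hR'.restrict h2
    exact ⟨s', hR''.sub hR''.mem, R, R', hR, hR'', hs', hsum⟩
  choose! f hfT R R' hR hR' hlt hsum using hch
  apply card_le_card_of_injOn f (fun s hs => hfT s hs)
  intro s hs s₂ hs₂ hff
  have hs := mem_coe.1 hs
  have hs₂ := mem_coe.1 hs₂
  have m := mem_filter.1 hs
  have m₂ := mem_filter.1 hs₂
  have r1 := hR s hs
  have r2 := hR s₂ hs₂
  have w1 := hR' s hs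
  have w2 := hR' s₂ hs₂
  have p1 := w1.fst_pos
  have p2 := w2.fst_pos
  have l1 := hlt s hs
  have l2 := hlt s₂ hs₂
  have hsT : s ∉ T := fun h => by rcases m.2.1 s h with h | h <;> omega
  have hsT₂ : s₂ ∉ T := fun h => by rcases m₂.2.1 s₂ h with h | h <;> omega
  have memT : ∀ x ∈ (R s).erase s, x ∈ T := by
    intro x hx
    have := mem_erase.1 hx
    rcases mem_insert.1 (r1.sub this.2) with h | h
    · exact absurd h this.1
    · exact h
  have memT₂ : ∀ x ∈ (R s₂).erase s₂, x ∈ T := by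
    intro x hx
    have := mem_erase.1 hx
    rcases mem_insert.1 (r2.sub this.2) with h | h
    · exact absurd h this.1
    · exact h
  have c1 : #((R s).erase s) = s.1 - 1 := by rw [card_erase_of_mem r1.mem, r1.card]
  have c2 : #((R s₂).erase s₂) = s₂.1 - 1 := by rw [card_erase_of_mem r2.mem, r2.card]
  -- the rows agree
  obtain ⟨x1, hx1⟩ : ((R s).erase s).Nonempty := by rw [← card_pos]; omega
  obtain ⟨x2, hx2⟩ : ((R s₂).erase s₂).Nonempty := by rw [← card_pos]; omega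
  have e1 := r1.fst x1 (mem_erase.1 hx1).2
  have e2 := r2.fst x2 (mem_erase.1 hx2).2
  have hrow : s.1 = s₂.1 := by
    have a1 := m₂.2.1 x1 (memT x1 hx1)
    have a2 := m.2.1 x2 (memT₂ x2 hx2)
    rcases a1 with a1 | a1 <;> rcases a2 with a2 | a2 <;> omega
  -- the truncated windows agree
  have hsub : (R s).erase s = (R s₂).erase s₂ := by
    apply eq_of_subset_of_card_le
    · intro x hx
      by_contra hxn
      have hnot : ¬ (R s₂).erase s₂ ⊆ (R s).erase s := by
        intro hsub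
        have := eq_of_subset_of_card_le hsub (by rw [c1, c2, hrow])
        rw [this] at hxn
        exact hxn hx
      obtain ⟨y, hy, hyn⟩ := not_subset.1 hnot
      have hxT := memT x hx
      have hyT := memT₂ y hy
      have hx1 : x.1 = s.1 := r1.fst x (mem_erase.1 hx).2
      have hy1 : y.1 = s₂.1 := r2.fst y (mem_erase.1 hy).2
      have hxs : x ≠ s₂ := fun h => hsT₂ (h ▸ hxT)
      have hys : y ≠ s := fun h => hsT (h ▸ hyT)
      have hxR : x ∉ R s₂ := fun h => hxn (mem_erase.2 ⟨hxs, h⟩)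
      have hyR : y ∉ R s := fun h => hyn (mem_erase.2 ⟨hys, h⟩)
      have hx2 : x.2 ≤ s₂.2 := by
        rcases m₂.2.1 x hxT with h | h <;> omega
      have hy2 : y.2 ≤ s.2 := by
        rcases m.2.1 y hyT with h | h <;> omega
      have a1 := r2.dc x (mem_insert_of_mem hxT) (by omega) hx2 hxR y (mem_erase.1 hy).2
      have a2 := r1.dc y (mem_insert_of_mem hyT) (by omega) hy2 hyR x (mem_erase.1 hx).2
      omega
    · rw [c1, c2, hrow]
  -- the comparison windows agree
  have hww : R' s = R' s₂ := by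
    have w2' := w2
    rw [← hff] at w2'
    exact w1.unique w2'
  have s1 := hsum s hs
  have s2 := hsum s₂ hs₂
  rw [← add_sum_erase _ _ r1.mem] at s1
  rw [← add_sum_erase _ _ r2.mem, ← hsub, ← hww] at s2
  have hbb : b s = b s₂ := by omega
  have : s.2 = s₂.2 := by
    apply hb s.1
    rw [Prod.mk.eta, hbb, hrow, Prod.mk.eta]
  exact Prod.ext hrow this

lemma lt_of_key {W : ℕ} {t s : ℕ × ℕ} (_ : t.2 < W) (hs : s.2 < W)
    (h : t.1 * W + t.2 < s.1 * W + s.2) : Lt t s := by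
  unfold Lt
  rcases lt_trichotomy t.1 s.1 with h1 | h1 | h1
  · exact Or.inl h1
  · right
    refine ⟨h1, ?_⟩
    rw [h1] at h
    omega
  · exfalso
    have : (s.1 + 1) * W ≤ t.1 * W := Nat.mul_le_mul_right _ h1
    nlinarith

open scoped Classical in
/-- Few configurations have many repeated block sums. -/
theorem heavy_rep (M W s B k : ℕ) (b : ℕ × ℕ → ℕ)
    (hb : ∀ l h h', b (l, h) = b (l, h') → h = h')
    (hs : 1 ≤ s) (hk : k * s ^ B ≤ M * W) :
    (#{Θ ∈ powersetCard k (Icc 1 M ×ˢ range W) | k ≤ B * reps (IsRep b) Θ} : ℝ) ≤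
      (2 * (M * W) / s) ^ k := by
  classical
  have hcard : #(Icc 1 M ×ˢ range W) = M * W := by simp
  have hW : ∀ x ∈ Icc 1 M ×ˢ range W, x.2 < W := by
    intro x hx
    rw [mem_product, mem_range] at hx
    exact hx.2
  have hkey : Set.InjOn (fun x : ℕ × ℕ => x.1 * W + x.2)
      ((Icc 1 M ×ˢ range W : Finset (ℕ × ℕ)) : Set (ℕ × ℕ)) := by
    intro x hx y hy hxy
    have hx := hW x (mem_coe.1 hx)
    have hy := hW y (mem_coe.1 hy)
    simp only at hxy
    have h1 : x.1 = y.1 := by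
      have a1 : (x.1 * W + x.2) / W = x.1 := by
        rw [mul_comm, Nat.mul_add_div (by omega), Nat.div_eq_of_lt hx, add_zero]
      have a2 : (y.1 * W + y.2) / W = y.1 := by
        rw [mul_comm, Nat.mul_add_div (by omega), Nat.div_eq_of_lt hy, add_zero]
      rw [← a1, ← a2, hxy]
    refine Prod.ext h1 ?_
    rw [h1] at hxy
    omega
  have h := heavy_bound (fun x : ℕ × ℕ => x.1 * W + x.2) (Icc 1 M ×ˢ range W) hkey (IsRep b)
    (by
      intro T s hT hs hlt t ht
      refine rep_down b (fun t ht => ?_) ht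
      exact lt_of_key (hW t (hT ht)) (hW s hs) (hlt t ht))
    (by
      intro T hT
      refine le_trans (card_le_card ?_) (rep_ext b hb (Icc 1 M ×ˢ range W) T)
      intro x hx
      rw [mem_filter] at hx ⊢
      refine ⟨hx.1, fun t ht => ?_, hx.2.2⟩
      exact lt_of_key (hW t (hT ht)) (hW x hx.1) (hx.2.1 t ht))
    s B k hs (by rw [hcard]; exact hk)
  rw [hcard] at h
  push_cast at h
  exact h

end Pool.Agent.helper306_moser
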