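import Pool.Agent.helper306_moser.Link
import Pool.Agent.H312R2.Pop

/-!
Linear relations modulo `q` between the gaps of a block of consecutive primes are rare.
-/

open Finset

namespace Pool.Agent.helper306_moser

open Pool.Agent.H312R2 (pat base en Fac)

/-- The difference between the primes of index `m + i` and `m`. -/
noncomputable def dd (m i : ℕ) : ℕ := P (m + i) - P m

lemma P_eq_dd (m i : ℕ) : P (m + i) = P m + dd m i := by
  have : P m ≤ P (m + i) := P_mono (by omega)
  unfold dd
  omega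

lemma dd_strictMono (m : ℕ) : StrictMono (dd m) := by
  intro i j hij
  have h1 := P_eq_dd m i
  have h2 := P_eq_dd m j
  have h3 : P (m + i) < P (m + j) := P_strictMono (by omega)
  omega

lemma pat_eq (k m : ℕ) : pat k m = (range k).image (dd m) := rfl

/-- Two increasing functions with the same image of an initial segment agree on it. -/
lemma image_strictMono {f g : ℕ → ℕ} (hf : StrictMono f) (hg : StrictMono g) {k : ℕ}
    (h : (range k).image f = (range k).image g) : ∀ i < k, f i = g i := by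
  intro i
  induction i using Nat.strong_induction_on with
  | _ i ih =>
    intro hi
    have h1 : f i ∈ (range k).image g := by
      rw [← h]
      exact mem_image.2 ⟨i, mem_range.2 hi, rfl⟩
    have h2 : g i ∈ (range k).image f := by
      rw [h]
      exact mem_image.2 ⟨i, mem_range.2 hi, rfl⟩
    obtain ⟨j, _, hj⟩ := mem_image.1 h1
    obtain ⟨j', _, hj'⟩ := mem_image.1 h2
    have a1 : i ≤ j := by
      by_contra hcon
      push Not at hcon
      have := ih j hcon (by omega)
      rw [← this] at hj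
      have := hf.injective hj
      omega
    have a2 : i ≤ j' := by
      by_contra hcon
      push Not at hcon
      have := ih j' hcon (by omega)
      rw [this] at hj'
      have := hg.injective hj'
      omega
    have b1 : g i ≤ g j := hg.monotone a1
    have b2 : f i ≤ f j' := hf.monotone a2
    omega

/-- The sums of `h` primes at distance `s` are congruent modulo `q`. -/
def Hit (q s h m : ℕ) : Prop := S h (m + s) ≡ S h m [MOD q]

lemma S_dd (h s m : ℕ) : S h (m + s) = h * P m + ∑ r ∈ range h, dd m (s + r) := by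
  unfold S
  rw [show h * P m = ∑ r ∈ range h, P m by rw [sum_const, card_range, smul_eq_mul],
    ← sum_add_distrib]
  apply sum_congr rfl
  intro r _
  rw [add_assoc, P_eq_dd]

lemma hit_last {q s h m m' : ℕ} (hs : 1 ≤ s) (hh : 1 ≤ h) (h1 : Hit q s h m)
    (h2 : Hit q s h m') (heq : ∀ i < s + h - 1, dd m i = dd m' i)
    (hdiv : dd m (s + h - 1) / q = dd m' (s + h - 1) / q) :
    dd m (s + h - 1) = dd m' (s + h - 1) := by
  obtain ⟨t, rfl⟩ : ∃ t, h = t + 1 := ⟨h - 1, by omega⟩
  have e0 : s + (t + 1) - 1 = s + t := by omega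
  rw [e0] at heq hdiv ⊢
  unfold Hit at h1 h2
  have f1 := S_dd (t + 1) 0 m
  have f2 := S_dd (t + 1) 0 m'
  rw [add_zero] at f1 f2
  rw [S_dd, f1] at h1
  rw [S_dd, f2] at h2
  have g1 := Nat.ModEq.add_left_cancel' _ h1
  have g2 := Nat.ModEq.add_left_cancel' _ h2
  rw [sum_range_succ] at g1 g2
  have c1 : ∑ r ∈ range t, dd m (s + r) = ∑ r ∈ range t, dd m' (s + r) := by
    apply sum_congr rfl
    intro r hr
    rw [mem_range] at hr
    exact heq _ (by omega)
  have c2 : ∑ r ∈ range (t + 1), dd m (0 + r) = ∑ r ∈ range (t + 1), dd m' (0 + r) := by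
    apply sum_congr rfl
    intro r hr
    rw [mem_range] at hr
    exact heq _ (by omega)
  rw [c1, c2] at g1
  have g3 := Nat.ModEq.add_left_cancel' _ (g1.trans g2.symm)
  have g4 : dd m (s + t) % q = dd m' (s + t) % q := g3
  have a1 := Nat.div_add_mod (dd m (s + t)) q
  have a2 := Nat.div_add_mod (dd m' (s + t)) q
  rw [hdiv, g4] at a1
  omega

lemma mem_base_pat {k D m : ℕ} (hk : 1 ≤ k) (h : dd m (k - 1) ≤ D) : pat k m ∈ base k D := by
  rw [Pool.Agent.H312R2.mem_base]
  refine ⟨⟨?_, Pool.Agent.H312R2.pat_card k m⟩, Pool.Agent.H312R2.zero_mem_pat hk m⟩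
  intro x hx
  rw [pat_eq, mem_image] at hx
  obtain ⟨i, hi, rfl⟩ := hx
  rw [mem_range] at hi ⊢
  have : dd m i ≤ dd m (k - 1) := (dd_strictMono m).monotone (by omega)
  omega

open scoped Classical in
/-- The family of the narrow patterns with a hit is thin. -/
lemma family_card (q s h D N : ℕ) (hs : 1 ≤ s) (hh : 1 ≤ h) :
    #((({m ∈ range N | Hit q s h m ∧ dd m (s + h - 1) ≤ D}).image (pat (s + h)))) ≤
      (D + 1) ^ (s + h - 2) * (D / q + 1) := by
  classical
  set M := {m ∈ range N | Hit q s h m ∧ dd m (s + h - 1) ≤ D} with hM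
  have hch : ∀ H ∈ M.image (pat (s + h)), ∃ m ∈ M, pat (s + h) m = H := by
    intro H hH
    exact mem_image.1 hH
  choose! f hf1 hf2 using hch
  have hb := Pool.Agent.H312R2.base_card (s + h - 1) D
  have e : s + h - 1 - 1 = s + h - 2 := by omega
  rw [e] at hb
  calc #(M.image (pat (s + h))) ≤ #(base (s + h - 1) D ×ˢ range (D / q + 1)) := by
        apply card_le_card_of_injOn (fun H => (pat (s + h - 1) (f H), dd (f H) (s + h - 1) / q))
        · intro H hH
          have hH := mem_coe.1 hH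
          have h1 := (mem_filter.1 (hf1 H hH)).2
          rw [mem_coe, mem_product, mem_range]
          refine ⟨mem_base_pat (by omega) ?_, ?_⟩
          · have : dd (f H) (s + h - 1 - 1) ≤ dd (f H) (s + h - 1) :=
              (dd_strictMono _).monotone (by omega)
            omega
          · have := Nat.div_le_div_right (c := q) h1.2
            simp only
            omega
        · intro H hH H' hH' he
          have hH := mem_coe.1 hH
          have hH' := mem_coe.1 hH'
          simp only [Prod.mk.injEq] at he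
          obtain ⟨he1, he2⟩ := he
          have h1 := (mem_filter.1 (hf1 H hH)).2
          have h2 := (mem_filter.1 (hf1 H' hH')).2
          rw [pat_eq, pat_eq] at he1
          have h3 := image_strictMono (dd_strictMono _) (dd_strictMono _) he1
          have h4 := hit_last hs hh h1.1 h2.1 h3 he2
          rw [← hf2 H hH, ← hf2 H' hH', pat_eq, pat_eq]
          apply image_congr
          intro i hi
          have hi := mem_range.1 (mem_coe.1 hi)
          rcases Nat.lt_or_ge i (s + h - 1) with h5 | h5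
          · exact h3 i h5
          · have : i = s + h - 1 := by omega
            rw [this]
            exact h4
    _ = #(base (s + h - 1) D) * (D / q + 1) := by rw [card_product, card_range]
    _ ≤ _ := Nat.mul_le_mul_right _ hb

open scoped Classical in
/-- Hits are rare for large moduli. -/
theorem thin (s h : ℕ) (hs : 1 ≤ s) (hh : 1 ≤ h) (η : ℝ) (hη : 0 < η) : ∃ q₀ : ℕ,
    ∀ q : ℕ, q₀ ≤ q → ∃ x₀ : ℕ, ∀ x : ℕ, x₀ ≤ x →
      (#{m ∈ range (Nat.primeCounting x) | Hit q s h m} : ℝ) ≤ η * (x / Real.log x) := by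
  classical
  set k := s + h with hk
  have hk2 : 2 ≤ k := by omega
  obtain ⟨C0, hC02, hwide⟩ := Pool.Agent.H312R2.wide_few k hk2 (η / 2) (by positivity)
  obtain ⟨C1, hC1, A, x₁, hcnt⟩ := Pool.Agent.H312R2.cnt_upper k (by omega)
  obtain ⟨C2, hC2, hFac⟩ := Pool.Agent.H312R2.Fac_sum k hk2 (A * 2)
  have hC0p : 0 < C0 := by linarith
  -- the constant in front
  set E : ℝ := C1 * (Real.sqrt C2 * (2 * C0) ^ (k - 1)) with hE
  have hE0 : 0 < E := by positivity
  obtain ⟨q₁, hq₁⟩ := exists_nat_ge (8 * (E / η) ^ 2)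
  refine ⟨q₁ + 1, fun q hq => ?_⟩
  have hq1 : 1 ≤ q := by omega
  have hqr : (0 : ℝ) < q := by exact_mod_cast hq1
  -- x large
  obtain ⟨x₂, hx₂⟩ := Filter.eventually_atTop.1
    ((Real.tendsto_log_atTop.comp tendsto_natCast_atTop_atTop).eventually_ge_atTop
      (max 1 (q : ℝ) + 1))
  refine ⟨max x₁ x₂, fun x hx => ?_⟩
  have hxx1 : x₁ ≤ x := (le_max_left _ _).trans hx
  have hlogq := hx₂ x ((le_max_right _ _).trans hx)
  simp only [Function.comp] at hlogq
  have hlog1 : 1 < Real.log x := by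
    have := le_max_left 1 (q : ℝ)
    linarith
  have hlogq' : (q : ℝ) ≤ Real.log x := by
    have := le_max_right 1 (q : ℝ)
    linarith
  have hl0 : 0 < Real.log x := by linarith
  have hx0 : (0 : ℝ) < x := by
    rcases Nat.eq_zero_or_pos x with h0 | h0
    · rw [h0] at hlog1
      simp at hlog1
      linarith
    · exact_mod_cast h0
  set D := ⌊C0 * Real.log x⌋₊ with hD
  have hDle : (D : ℝ) ≤ C0 * Real.log x := Nat.floor_le (by positivity)
  have hDlt : C0 * Real.log x < D + 1 := Nat.lt_floor_add_one _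
  have hD1 : ((D : ℝ) + 1) ≤ 2 * C0 * Real.log x := by nlinarith
  set N := Nat.primeCounting x with hN
  have hw := hwide C0 le_rfl x hlog1
  set M := {m ∈ range N | Hit q s h m ∧ dd m (s + h - 1) ≤ D} with hM
  set 𝓢 := M.image (pat k) with h𝓢
  have hsplit : (#{m ∈ range N | Hit q s h m} : ℝ) ≤
      #{m ∈ range N | ⌊C0 * Real.log x⌋₊ < Pool.Agent.H646.P (m + (k - 1)) - Pool.Agent.H646.P m} +
      ∑ H ∈ 𝓢, (#{m ∈ range N | pat k m = H} : ℝ) := by
    have h1 : {m ∈ range N | Hit q s h m} ⊆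
        {m ∈ range N | ⌊C0 * Real.log x⌋₊ <
          Pool.Agent.H646.P (m + (k - 1)) - Pool.Agent.H646.P m} ∪
        𝓢.biUnion (fun H => {m ∈ range N | pat k m = H}) := by
      intro m hm
      rw [mem_filter] at hm
      by_cases hc : D < Pool.Agent.H646.P (m + (k - 1)) - Pool.Agent.H646.P m
      · exact mem_union_left _ (mem_filter.2 ⟨hm.1, hc⟩)
      · apply mem_union_right
        rw [mem_biUnion]
        refine ⟨pat k m, ?_, mem_filter.2 ⟨hm.1, rfl⟩⟩
        rw [h𝓢, mem_image]
        refine ⟨m, ?_, rfl⟩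
        rw [hM, mem_filter]
        refine ⟨hm.1, hm.2, ?_⟩
        push Not at hc
        exact hc
    have h2 := (card_le_card h1).trans (card_union_le _ _)
    have h3 := h2.trans (Nat.add_le_add_left card_biUnion_le _)
    exact_mod_cast h3
  -- each pattern
  have hpat : ∀ H ∈ 𝓢, (#{m ∈ range N | pat k m = H} : ℝ) ≤
      C1 * x / (Real.log x) ^ k * Fac k A H := by
    intro H hH
    have hHc : #H = k := by
      rw [h𝓢, mem_image] at hH
      obtain ⟨m, _, rfl⟩ := hH
      exact Pool.Agent.H312R2.pat_card k m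
    refine le_trans ?_ (hcnt x hxx1 H hHc)
    have h1 := Pool.Agent.H312R2.count_pat_le k x H
    have h2 : #{n ∈ Icc 1 x | Pool.Agent.H312R2.Realises H n} ≤
        #{n ∈ Icc 1 x | ∀ h ∈ H, (n + h).Prime} := by
      apply card_le_card
      intro n hn
      rw [mem_filter] at hn ⊢
      exact ⟨hn.1, hn.2.1⟩
    exact_mod_cast h1.trans h2
  -- the thin family
  have h𝓢base : 𝓢 ⊆ base k D := by
    intro H hH
    rw [h𝓢, mem_image] at hH
    obtain ⟨m, hm, rfl⟩ := hH
    exact mem_base_pat (by omega) (mem_filter.1 hm).2.2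
  have hcard : (#𝓢 : ℝ) ≤ (2 * C0 * Real.log x) ^ (k - 1) * (2 / q) := by
    have h1 := family_card q s h D N hs hh
    have h2 : (#𝓢 : ℝ) ≤ ((D : ℝ) + 1) ^ (k - 2) * (((D / q : ℕ) : ℝ) + 1) := by
      exact_mod_cast h1
    have h3 : (((D / q : ℕ) : ℝ) + 1) ≤ ((D : ℝ) + 1) * (2 / q) := by
      have h4 : ((D / q : ℕ) : ℝ) ≤ D / q := Nat.cast_div_le
      have h5 : (1 : ℝ) ≤ (D + 1) / q := by
        rw [le_div_iff₀ hqr]
        nlinarith
      have h6 : (D : ℝ) / q ≤ (D + 1) / q := div_le_div_of_nonneg_right (by linarith) hqr.le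
      have h7 : ((D : ℝ) + 1) * (2 / q) = (D + 1) / q + (D + 1) / q := by ring
      linarith
    calc (#𝓢 : ℝ) ≤ ((D : ℝ) + 1) ^ (k - 2) * (((D / q : ℕ) : ℝ) + 1) := h2
      _ ≤ ((D : ℝ) + 1) ^ (k - 2) * (((D : ℝ) + 1) * (2 / q)) :=
          mul_le_mul_of_nonneg_left h3 (by positivity)
      _ = ((D : ℝ) + 1) ^ (k - 1) * (2 / q) := by
          have : k - 1 = (k - 2) + 1 := by omega
          rw [this, pow_succ]
          ring
      _ ≤ (2 * C0 * Real.log x) ^ (k - 1) * (2 / q) := by
          apply mul_le_mul_of_nonneg_right _ (by positivity)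
          exact pow_le_pow_left₀ (by positivity) hD1 _
  have hFac2 : (∑ H ∈ 𝓢, Fac k A H) ^ 2 ≤
      C2 * ((2 * C0 * Real.log x) ^ (k - 1)) ^ 2 * (2 / q) := by
    have h1 : (∑ H ∈ 𝓢, Fac k A H) ^ 2 ≤ #𝓢 * ∑ H ∈ 𝓢, Fac k A H ^ 2 :=
      sq_sum_le_card_mul_sum_sq
    have h2 : ∑ H ∈ 𝓢, Fac k A H ^ 2 ≤ C2 * (2 * C0 * Real.log x) ^ (k - 1) := by
      calc ∑ H ∈ 𝓢, Fac k A H ^ 2 ≤ ∑ H ∈ base k D, Fac k A H ^ 2 :=
            sum_le_sum_of_subset_of_nonneg h𝓢base (fun _ _ _ => sq_nonneg _)
        _ = ∑ H ∈ base k D, Fac k (A * 2) H := by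
            apply sum_congr rfl
            intro H _
            rw [Pool.Agent.H312R2.Fac_pow]
        _ ≤ C2 * ((D + 1) ^ (k - 1) : ℕ) := hFac D
        _ ≤ C2 * (2 * C0 * Real.log x) ^ (k - 1) := by
            push_cast
            apply mul_le_mul_of_nonneg_left _ hC2.le
            exact pow_le_pow_left₀ (by positivity) hD1 _
    calc (∑ H ∈ 𝓢, Fac k A H) ^ 2 ≤ #𝓢 * ∑ H ∈ 𝓢, Fac k A H ^ 2 := h1
      _ ≤ ((2 * C0 * Real.log x) ^ (k - 1) * (2 / q)) * (C2 * (2 * C0 * Real.log x) ^ (k - 1)) :=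
          mul_le_mul hcard h2 (sum_nonneg (fun _ _ => sq_nonneg _)) (by positivity)
      _ = _ := by ring
  have hFacs : ∑ H ∈ 𝓢, Fac k A H ≤
      Real.sqrt C2 * (2 * C0 * Real.log x) ^ (k - 1) * Real.sqrt (2 / q) := by
    apply le_of_sq_le_sq _ (by positivity) |>.trans le_rfl
    rw [mul_pow, mul_pow, Real.sq_sqrt hC2.le, Real.sq_sqrt (by positivity)]
    exact hFac2
  -- the second part
  have hsecond : ∑ H ∈ 𝓢, (#{m ∈ range N | pat k m = H} : ℝ) ≤ η / 2 * (x / Real.log x) := by
    have h1 : E * Real.sqrt (2 / q) ≤ η / 2 := by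
      have h2 : (2 : ℝ) / q ≤ (η / (2 * E)) ^ 2 := by
        rw [div_le_iff₀ hqr]
        have h3 : 8 * (E / η) ^ 2 ≤ q := by
          refine hq₁.trans ?_
          exact_mod_cast (show q₁ ≤ q by omega)
        have h4 : (η / (2 * E)) ^ 2 * (8 * (E / η) ^ 2) = 2 := by
          field_simp
          norm_num
        calc (2 : ℝ) = (η / (2 * E)) ^ 2 * (8 * (E / η) ^ 2) := h4.symm
          _ ≤ (η / (2 * E)) ^ 2 * q := mul_le_mul_of_nonneg_left h3 (by positivity)
      have h5 : Real.sqrt (2 / q) ≤ η / (2 * E) := by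
        rw [← Real.sqrt_sq (show 0 ≤ η / (2 * E) by positivity)]
        exact Real.sqrt_le_sqrt h2
      calc E * Real.sqrt (2 / q) ≤ E * (η / (2 * E)) := mul_le_mul_of_nonneg_left h5 hE0.le
        _ = η / 2 := by field_simp
    calc ∑ H ∈ 𝓢, (#{m ∈ range N | pat k m = H} : ℝ)
        ≤ ∑ H ∈ 𝓢, C1 * x / (Real.log x) ^ k * Fac k A H := sum_le_sum hpat
      _ = C1 * x / (Real.log x) ^ k * ∑ H ∈ 𝓢, Fac k A H := by rw [mul_sum]
      _ ≤ C1 * x / (Real.log x) ^ k *
          (Real.sqrt C2 * (2 * C0 * Real.log x) ^ (k - 1) * Real.sqrt (2 / q)) :=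
          mul_le_mul_of_nonneg_left hFacs (by positivity)
      _ = E * Real.sqrt (2 / q) * (x / Real.log x) := by
          have e1 : (Real.log x) ^ k = (Real.log x) ^ (k - 1) * Real.log x := by
            rw [← pow_succ]
            congr 1
            omega
          rw [e1, mul_pow (2 * C0), hE]
          field_simp
      _ ≤ η / 2 * (x / Real.log x) := mul_le_mul_of_nonneg_right h1 (by positivity)
  calc (#{m ∈ range N | Hit q s h m} : ℝ) ≤ _ := hsplit
    _ ≤ η / 2 * (x / Real.log x) + η / 2 * (x / Real.log x) := add_le_add hw hsecond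
    _ = _ := by ring

end Pool.Agent.helper306_moser
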