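import Pool.Agent.helper306_moser.Many
import Pool.Agent.helper306_moser.RepBound
import Pool.Agent.helper306_moser.Star

/-!
The number of integers in a residue class which are sums of consecutive primes.
-/

open Finset

namespace Pool.Agent.helper306_moser

/-- Telescoping of the spans. -/
lemma sum_span (k t : ℕ) : ∑ i ∈ range t, (P (i + k) - P i) ≤ ∑ r ∈ range k, P (t + r) := by
  induction t with
  | zero => simp
  | succ t ih =>
    rw [sum_range_succ]
    have h1 : ∑ r ∈ range (k + 1), P (t + r) = ∑ r ∈ range k, P (t + r) + P (t + k) :=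
      sum_range_succ _ _
    have h2 : ∑ r ∈ range (k + 1), P (t + r) = ∑ r ∈ range k, P (t + 1 + r) + P t := by
      rw [sum_range_succ']
      simp only [add_zero]
      congr 1
      apply sum_congr rfl
      intro r _
      congr 1
      omega
    have h3 : P t ≤ P (t + k) := P_mono (by omega)
    omega

/-- Few blocks of given length have a large span. -/
lemma span_bad (N C₁ l : ℕ) (hl : 1 ≤ l) :
    #{i ∈ range (2 ^ N) | S l i < 2 ^ N ∧ ¬ P (i + l - 1) ≤ P i + C₁ * l * N} * (C₁ * l * N) ≤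
      2 ^ N := by
  classical
  obtain ⟨k, rfl⟩ : ∃ k, l = k + 1 := ⟨l - 1, by omega⟩
  set Bd := {i ∈ range (2 ^ N) | S (k + 1) i < 2 ^ N ∧
    ¬ P (i + (k + 1) - 1) ≤ P i + C₁ * (k + 1) * N} with hBd
  rcases Bd.eq_empty_or_nonempty with h0 | h0
  · rw [h0]
    simp
  · set t := Bd.max' h0 with ht
    have htB : t ∈ Bd := max'_mem _ _
    have htS : S (k + 1) t < 2 ^ N := (mem_filter.1 htB).2.1
    have h1 : #Bd * (C₁ * (k + 1) * N) ≤ ∑ i ∈ Bd, (P (i + k) - P i) := by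
      rw [← smul_eq_mul, ← sum_const]
      apply sum_le_sum
      intro i hi
      have := (mem_filter.1 hi).2.2
      have e : i + (k + 1) - 1 = i + k := by omega
      rw [e] at this
      omega
    have h2 : ∑ i ∈ Bd, (P (i + k) - P i) ≤ ∑ i ∈ range (t + 1), (P (i + k) - P i) := by
      apply sum_le_sum_of_subset
      intro i hi
      rw [mem_range]
      have := le_max' Bd i hi
      omega
    have h3 := sum_span k (t + 1)
    have h4 : ∑ r ∈ range k, P (t + 1 + r) ≤ S (k + 1) t := by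
      unfold S
      rw [sum_range_succ']
      refine le_trans (le_of_eq ?_) (Nat.le_add_right _ _)
      apply sum_congr rfl
      intro r _
      congr 1
      omega
    omega

open scoped Classical in
/-- Blocks lost by the two restrictions. -/
lemma good_many (N C₁ m q a : ℕ) (hC : 1 ≤ C₁) (hN : 1 ≤ N) :
    (#(Bl q a (2 ^ N) m) : ℝ) ≤ #{w ∈ Gd N C₁ m | S w.1 w.2 ≡ a [MOD q]} +
      m * (N ^ 2 * 2 ^ (N / 2)) + 1 / C₁ * (2 ^ N / N) * (1 + Real.log m) := by
  classical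
  set Sm : Finset (ℕ × ℕ) := Icc 1 m ×ˢ range (N ^ 2 * 2 ^ (N / 2)) with hSm
  set Bd : ℕ → Finset ℕ := fun l =>
    {i ∈ range (2 ^ N) | S l i < 2 ^ N ∧ ¬ P (i + l - 1) ≤ P i + C₁ * l * N} with hBd
  have hsub : Bl q a (2 ^ N) m ⊆ ({w ∈ Gd N C₁ m | S w.1 w.2 ≡ a [MOD q]} ∪ Sm) ∪
      ((Icc 1 m).sigma Bd).image (fun x => (x.1, x.2)) := by
    intro w hw
    unfold Bl at hw
    rw [mem_filter, mem_product] at hw
    obtain ⟨⟨h1, h2⟩, h3, h4⟩ := hw
    rw [mem_union, mem_union]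
    by_cases h5 : N ^ 2 * 2 ^ (N / 2) ≤ S w.1 w.2
    · by_cases h6 : P (w.2 + w.1 - 1) ≤ P w.2 + C₁ * w.1 * N
      · left; left
        rw [mem_filter]
        refine ⟨?_, h4⟩
        unfold Gd Wd
        rw [mem_filter, mem_filter, mem_product]
        exact ⟨⟨⟨h1, h2⟩, h3⟩, h5, h6⟩
      · right
        rw [mem_image]
        refine ⟨⟨w.1, w.2⟩, ?_, rfl⟩
        rw [mem_sigma]
        refine ⟨h1, ?_⟩
        rw [hBd]
        simp only
        rw [mem_filter]
        exact ⟨h2, h3, h6⟩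
    · left; right
      rw [hSm, mem_product, mem_range]
      refine ⟨h1, ?_⟩
      have h7 : P w.2 ≤ S w.1 w.2 := by
        calc P w.2 = 1 * P w.2 := (one_mul _).symm
          _ ≤ w.1 * P w.2 := Nat.mul_le_mul_right _ (mem_Icc.1 h1).1
          _ ≤ _ := mul_P_le_S _ _
      have := lt_P w.2
      omega
  have hcard := card_le_card hsub
  have hc1 := card_union_le ({w ∈ Gd N C₁ m | S w.1 w.2 ≡ a [MOD q]} ∪ Sm)
    (((Icc 1 m).sigma Bd).image (fun x => (x.1, x.2)))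
  have hc2 := card_union_le {w ∈ Gd N C₁ m | S w.1 w.2 ≡ a [MOD q]} Sm
  have hc3 : #(((Icc 1 m).sigma Bd).image (fun x => (x.1, x.2))) ≤ ∑ l ∈ Icc 1 m, #(Bd l) := by
    rw [← card_sigma]
    exact card_image_le
  have hc4 : #Sm = m * (N ^ 2 * 2 ^ (N / 2)) := by
    rw [hSm, card_product, Nat.card_Icc, card_range, Nat.add_sub_cancel]
  have htot : #(Bl q a (2 ^ N) m) ≤ #{w ∈ Gd N C₁ m | S w.1 w.2 ≡ a [MOD q]} +
      m * (N ^ 2 * 2 ^ (N / 2)) + ∑ l ∈ Icc 1 m, #(Bd l) := by omega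
  have htot' : (#(Bl q a (2 ^ N) m) : ℝ) ≤ #{w ∈ Gd N C₁ m | S w.1 w.2 ≡ a [MOD q]} +
      m * (N ^ 2 * 2 ^ (N / 2)) + ∑ l ∈ Icc 1 m, (#(Bd l) : ℝ) := by exact_mod_cast htot
  refine htot'.trans ?_
  apply add_le_add le_rfl
  have hCr : (0 : ℝ) < C₁ := by exact_mod_cast hC
  have hNr : (0 : ℝ) < N := by exact_mod_cast hN
  have h1 : ∀ l ∈ Icc 1 m, (#(Bd l) : ℝ) ≤ 1 / C₁ * (2 ^ N / N) * (1 / l) := by
    intro l hl
    have hl1 := (mem_Icc.1 hl).1
    have hlr : (0 : ℝ) < l := by exact_mod_cast hl1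
    have h2 := span_bad N C₁ l hl1
    have h3 : (#(Bd l) : ℝ) * (C₁ * l * N) ≤ 2 ^ N := by exact_mod_cast h2
    have e : 1 / C₁ * (2 ^ N / N) * (1 / (l : ℝ)) = 2 ^ N / (C₁ * l * N) := by
      field_simp
    rw [e, le_div_iff₀ (by positivity)]
    exact h3
  calc ∑ l ∈ Icc 1 m, (#(Bd l) : ℝ) ≤ ∑ l ∈ Icc 1 m, 1 / C₁ * (2 ^ N / N) * (1 / (l : ℝ)) :=
        sum_le_sum h1
    _ = 1 / C₁ * (2 ^ N / N) * ∑ l ∈ Icc 1 m, (1 / (l : ℝ)) := by rw [mul_sum]
    _ ≤ _ := mul_le_mul_of_nonneg_left (sum_inv_le m) (by positivity)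

/-- `n` is a sum of consecutive primes. -/
def Rep (n : ℕ) : Prop := ∃ l i, 1 ≤ l ∧ S l i = n

open scoped Classical in
/-- The bound for a power of two and a free number of terms. -/
theorem dyadic (q a : ℕ) (hq : 1 ≤ q) : ∃ c : ℝ, 0 < c ∧ ∃ A K N₀ : ℕ, 1 ≤ K ∧ 50 ≤ A ∧
    ∀ N : ℕ, N₀ ≤ N → ∀ m : ℕ, m ^ A ≤ N → K * Lam N ≤ m →
      c * (2 ^ N / N * Real.log m) ≤ #{n ∈ range (2 ^ N) | n ≡ a [MOD q] ∧ Rep n} := by
  classical
  obtain ⟨c, hc, M₀, x₀, hmany⟩ := many_blocks q a hq (star q q hq hq)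
  obtain ⟨C₁, hC₁⟩ := exists_nat_ge (8 / c)
  have hC₁0 : (0 : ℝ) < C₁ := lt_of_lt_of_le (by positivity) hC₁
  have hC₁1 : 1 ≤ C₁ := by exact_mod_cast hC₁0
  obtain ⟨A, K, N₁, hK, hA, hrep⟩ := rep_bound C₁ (c / 4) (by positivity)
  -- N ^ 4 is small
  have htend : Filter.Tendsto (fun n : ℕ => (n : ℝ) ^ 4 / (2 : ℝ) ^ n) Filter.atTop (nhds 0) :=
    tendsto_pow_const_div_const_pow_of_one_lt 4 (by norm_num)
  obtain ⟨N₂, hN₂⟩ := Filter.eventually_atTop.1 (htend.eventually (gt_mem_nhds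
    (show (0 : ℝ) < c / 324 by positivity)))
  refine ⟨c / 4, by positivity, A, K + M₀ + 3, max (max N₁ (2 * N₂ + 2)) (x₀ + 3), by omega, hA, ?_⟩
  intro N hN m hmA hKm
  have hN1 : N₁ ≤ N := (le_max_left _ _).trans ((le_max_left _ _).trans hN)
  have hN2 : 2 * N₂ + 2 ≤ N := (le_max_right _ _).trans ((le_max_left _ _).trans hN)
  have hN3 : x₀ + 3 ≤ N := (le_max_right _ _).trans hN
  have hLam := Lam_pos N
  have hKm' : K * Lam N ≤ m := le_trans (Nat.mul_le_mul_right _ (by omega)) hKm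
  have hmM : K + M₀ + 3 ≤ m := le_trans (Nat.le_mul_of_pos_right _ hLam) hKm
  have hm3 : 3 ≤ m := by omega
  have hNr : (0 : ℝ) < N := by
    have : 0 < N := by omega
    exact_mod_cast this
  have hmr : (3 : ℝ) ≤ m := by exact_mod_cast hm3
  have hlogm : 1 ≤ Real.log m := by
    have h1 : Real.exp 1 ≤ m := by
      have := Real.exp_one_lt_d9
      linarith
    rw [← Real.log_exp 1]
    exact Real.log_le_log (Real.exp_pos 1) h1
  have hmN : m ≤ N := by
    refine le_trans ?_ hmA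
    calc m = m ^ 1 := (pow_one _).symm
      _ ≤ m ^ A := Nat.pow_le_pow_right (by omega) (by omega)
  have hm4 : m ^ 4 ≤ 2 ^ N := by
    calc m ^ 4 ≤ m ^ A := Nat.pow_le_pow_right (by omega) (by omega)
      _ ≤ N := hmA
      _ ≤ 2 ^ N := Nat.lt_two_pow_self.le
  have hxN : x₀ ≤ 2 ^ N := by
    have := (Nat.lt_two_pow_self (n := N)).le
    omega
  have h1 := hmany (2 ^ N) hxN m (by omega) hm4
  have h2 := good_many N C₁ m q a hC₁1 (by omega)
  have h3 := hrep N hN1 m hmA hKm'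
  set G := {w ∈ Gd N C₁ m | S w.1 w.2 ≡ a [MOD q]} with hG
  have h4 := card_le_image N C₁ m G (filter_subset _ _)
  have h5 : #(G.image (fun w => S w.1 w.2)) ≤ #{n ∈ range (2 ^ N) | n ≡ a [MOD q] ∧ Rep n} := by
    apply card_le_card
    intro n hn
    rw [mem_image] at hn
    obtain ⟨w, hw, rfl⟩ := hn
    rw [hG, mem_filter] at hw
    have hw' := hw.1
    unfold Gd Wd at hw'
    rw [mem_filter, mem_filter, mem_product, mem_Icc] at hw'
    rw [mem_filter, mem_range]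
    exact ⟨hw'.1.2, hw.2, w.1, w.2, hw'.1.1.1.1, rfl⟩
  have h6 : (#G : ℝ) ≤ #{n ∈ range (2 ^ N) | n ≡ a [MOD q] ∧ Rep n} + #(Rp N C₁ m) := by
    have : #G ≤ #{n ∈ range (2 ^ N) | n ≡ a [MOD q] ∧ Rep n} + #(Rp N C₁ m) := by omega
    exact_mod_cast this
  -- simplify the main term
  have hX : (0 : ℝ) < 2 ^ N / N := by positivity
  have h7 : c * (2 ^ N / N * Real.log m) ≤ #(Bl q a (2 ^ N) m) := by
    refine le_trans ?_ h1
    apply mul_le_mul_of_nonneg_left _ hc.le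
    apply mul_le_mul_of_nonneg_right _ (by linarith)
    push_cast
    rw [Real.log_pow]
    apply div_le_div_of_nonneg_left (by positivity)
    · have := Real.log_pos (show (1 : ℝ) < 2 by norm_num)
      positivity
    · have h8 := Real.log_two_lt_d9
      nlinarith
  have h8 : 1 / C₁ * (2 ^ N / N) * (1 + Real.log m) ≤ c / 4 * (2 ^ N / N * Real.log m) := by
    have h9 : 1 / (C₁ : ℝ) ≤ c / 8 := by
      rw [div_le_iff₀ hC₁0]
      rw [div_le_iff₀ hc] at hC₁
      linarith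
    calc 1 / C₁ * (2 ^ N / N) * (1 + Real.log m) ≤ c / 8 * (2 ^ N / N) * (2 * Real.log m) := by
          apply mul_le_mul _ (by linarith) (by linarith) (by positivity)
          exact mul_le_mul_of_nonneg_right h9 hX.le
      _ = _ := by ring
  have h9 : (m : ℝ) * (N ^ 2 * 2 ^ (N / 2)) ≤ c / 4 * (2 ^ N / N * Real.log m) := by
    set n := N / 2 with hn
    have h10 := hN₂ n (by omega)
    have h11 : (0 : ℝ) < 2 ^ n := by positivity
    rw [div_lt_iff₀ h11] at h10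
    have h12 : (N : ℝ) ≤ 2 * n + 1 := by
      have : N ≤ 2 * n + 1 := by omega
      exact_mod_cast this
    have h13 : (1 : ℝ) ≤ n := by
      have : 1 ≤ n := by omega
      exact_mod_cast this
    have h14 : (N : ℝ) ^ 4 ≤ c / 4 * 2 ^ n := by
      have h15 : (N : ℝ) ^ 4 ≤ (3 * n) ^ 4 := pow_le_pow_left₀ (by positivity) (by linarith) 4
      have h16 : (3 * (n : ℝ)) ^ 4 = 81 * (n : ℝ) ^ 4 := by ring
      linarith
    have h18 : (2 : ℝ) ^ n * 2 ^ n ≤ 2 ^ N := by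
      rw [← pow_add]
      exact pow_le_pow_right₀ (by norm_num) (by omega)
    have h19 : (m : ℝ) ≤ N := by exact_mod_cast hmN
    have h20 : (m : ℝ) * (N ^ 2 * 2 ^ n) * N ≤ c / 4 * 2 ^ N := by
      calc (m : ℝ) * (N ^ 2 * 2 ^ n) * N ≤ N * (N ^ 2 * 2 ^ n) * N := by
            apply mul_le_mul_of_nonneg_right _ hNr.le
            exact mul_le_mul_of_nonneg_right h19 (by positivity)
        _ = (N : ℝ) ^ 4 * 2 ^ n := by ring
        _ ≤ c / 4 * 2 ^ n * 2 ^ n := mul_le_mul_of_nonneg_right h14 h11.le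
        _ = c / 4 * (2 ^ n * 2 ^ n) := by ring
        _ ≤ c / 4 * 2 ^ N := mul_le_mul_of_nonneg_left h18 (by positivity)
    have h21 : (m : ℝ) * (N ^ 2 * 2 ^ n) ≤ c / 4 * (2 ^ N / N) := by
      rw [← mul_div_assoc, le_div_iff₀ hNr]
      exact h20
    refine h21.trans ?_
    apply mul_le_mul_of_nonneg_left _ (by positivity)
    nlinarith
  have h10 : 0 < c / 4 * (2 ^ N / N * Real.log m) := by positivity
  linarith

end Pool.Agent.helper306_moser
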